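import Pool.Agent.MP_94842c_co.ES.Defs

/-! Basic facts on even sets, cuts, links and reach sets (project ES). -/

set_option autoImplicit false
set_option linter.unusedSectionVars false

namespace Pool.Agent.MP_94842c_co.ES

open Finset
open scoped symmDiff

variable {E : Type} [Fintype E] [DecidableEq E] {en : E × Bool → ℕ}

@[simp] theorem rev_rev (d : E × Bool) : rev (rev d) = d := by simp [rev]

@[simp] theorem rev_fst (d : E × Bool) : (rev d).1 = d.1 := rfl

theorem rev_ne (d : E × Bool) : rev d ≠ d := by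
  rcases d with ⟨e, b⟩; cases b <;> simp [rev]

theorem rev_inj {d e : E × Bool} (h : rev d = rev e) : d = e := by
  rw [← rev_rev d, h, rev_rev]

theorem eq_or_rev {d e : E × Bool} (h : d.1 = e.1) : d = e ∨ d = rev e := by
  rcases d with ⟨x, b⟩; rcases e with ⟨y, c⟩
  simp only at h; subst h
  cases b <;> cases c <;> simp [rev]

theorem mem_Z {X : Finset E} : X ∈ Z en ↔ Ev en X := by simp [Z]

theorem mem_circs {X : Finset E} : X ∈ circs en ↔ Circ en X := by simp [circs]

theorem mem_vs {X : Finset E} {v : ℕ} : v ∈ vs en X ↔ ∃ d : E × Bool, d.1 ∈ X ∧ en d = v := by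
  simp only [vs, mem_image, mem_filter, mem_univ, true_and]

theorem en_mem_vs {X : Finset E} {d : E × Bool} (h : d.1 ∈ X) : en d ∈ vs en X :=
  mem_vs.2 ⟨d, h, rfl⟩

theorem mem_darts {T : Finset ℕ} {d : E × Bool} : d ∈ darts en T ↔ en d ∈ T := by simp [darts]

theorem mem_fam {G : Finset ℕ} {M : ℕ} {D : Finset E} :
    D ∈ fam en G M ↔ Circ en D ∧ D.card ≤ M ∧ vs en D ⊆ G := by simp [fam]

theorem mem_walks {l : ℕ} {w : (E × Bool) × Finset ℕ} : w ∈ walks E l ↔ ∀ k ∈ w.2, k < l := by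
  simp [walks, subset_iff]

theorem mem_good {R : Cub en} {G : Finset ℕ} {l : ℕ} {w : (E × Bool) × Finset ℕ} :
    w ∈ good R G l ↔ w ∈ walks E l ∧ Ins en (wk R w) l G ∧ Simple en (wk R w) l := by
  simp [good]

theorem mem_lensP {R : Cub en} {G : Finset ℕ} {l i a a' : ℕ} {D : Finset E}
    {q : ((E × Bool) × Finset ℕ) × ((E × Bool) × Finset ℕ)} :
    q ∈ lensP R G l D i a a' ↔
      q.1 ∈ good R G l ∧ q.2 ∈ good R G l ∧ Lens R l q.1 q.2 D i a a' := by
  simp [lensP, and_assoc]

theorem mem_seg {R : Cub en} {l i a : ℕ} {D : Finset E} {w : (E × Bool) × Finset ℕ} :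
    w ∈ seg R l D i a ↔ w ∈ walks E l ∧ ∀ k, 1 ≤ k → k ≤ a → (wk R w (i + k)).1 ∈ D := by
  simp [seg]

theorem mem_contact {D D' : Finset E} {r x : ℕ} : x ∈ contact en D D' r ↔
    x ∈ vs en D ∧ ∃ y ∈ vs en D', y ∈ reach en (univ \ (D ∪ D')) {x} r := by
  simp only [contact, mem_filter]

theorem mem_edges {p : ℕ → E × Bool} {t : ℕ} {e : E} :
    e ∈ edges p t ↔ ∃ k, k < t ∧ (p k).1 = e := by simp [edges]

theorem mem_cut {T : Finset ℕ} (d : E × Bool) :
    d.1 ∈ cut en T ↔ ¬ (en d ∈ T ↔ en (rev d) ∈ T) := by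
  rcases d with ⟨e, b⟩
  cases b <;> simp only [cut, mem_filter, mem_univ, true_and, rev, Bool.not_true, Bool.not_false]
  tauto

theorem mem_cut' {T : Finset ℕ} {e : E} :
    e ∈ cut en T ↔ ¬ (en (e, true) ∈ T ↔ en (e, false) ∈ T) := by
  simp only [cut, mem_filter, mem_univ, true_and]

theorem vs_mono {X Y : Finset E} (h : X ⊆ Y) : vs en X ⊆ vs en Y := fun _ hv => by
  obtain ⟨d, h1, h2⟩ := mem_vs.1 hv
  exact mem_vs.2 ⟨d, h h1, h2⟩

theorem vs_union (X Y : Finset E) : vs en (X ∪ Y) = vs en X ∪ vs en Y := by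
  ext v
  simp only [mem_vs, mem_union]
  constructor
  · rintro ⟨d, h | h, e⟩
    exacts [Or.inl ⟨d, h, e⟩, Or.inr ⟨d, h, e⟩]
  · rintro (⟨d, h, e⟩ | ⟨d, h, e⟩)
    exacts [⟨d, Or.inl h, e⟩, ⟨d, Or.inr h, e⟩]

theorem card_dartsOf (X : Finset E) :
    (univ.filter fun d : E × Bool => d.1 ∈ X).card = 2 * X.card := by
  have : (univ.filter fun d : E × Bool => d.1 ∈ X) = X ×ˢ univ := by ext d; simp
  rw [this, card_product, card_univ, Fintype.card_bool, mul_comm]

theorem card_vs_le (X : Finset E) : (vs en X).card ≤ 2 * X.card :=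
  card_image_le.trans (card_dartsOf X).le

theorem disjoint_of_vs {X Y : Finset E} (h : Disjoint (vs en X) (vs en Y)) : Disjoint X Y :=
  disjoint_left.2 fun e h1 h2 =>
    disjoint_left.1 h (en_mem_vs (d := (e, true)) h1) (en_mem_vs (d := (e, true)) h2)

@[simp] theorem deg_empty (v : ℕ) : deg en ∅ v = 0 := by simp [deg]

theorem deg_mono {X Y : Finset E} (h : X ⊆ Y) (v : ℕ) : deg en X v ≤ deg en Y v :=
  card_le_card fun d hd => by
    simp only [mem_filter, mem_univ, true_and] at hd ⊢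
    exact ⟨h hd.1, hd.2⟩

theorem deg_pos {X : Finset E} {v : ℕ} : 0 < deg en X v ↔ v ∈ vs en X := by
  rw [deg, card_pos, mem_vs]
  simp only [Finset.Nonempty, mem_filter, mem_univ, true_and]

theorem deg_eq_sum (X : Finset E) (v : ℕ) : deg en X v =
    ∑ e ∈ X, ((if en (e, true) = v then 1 else 0) + (if en (e, false) = v then 1 else 0)) := by
  have : (univ.filter fun d : E × Bool => d.1 ∈ X ∧ en d = v) =
      (X ×ˢ univ).filter fun d : E × Bool => en d = v := by ext d; simp
  rw [deg, this, card_filter, sum_product]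
  simp only [Fintype.univ_bool, mem_singleton, Bool.true_eq_false, not_false_eq_true, sum_insert,
    sum_singleton]

theorem deg_single (d : E × Bool) (v : ℕ) : deg en {d.1} v =
    (if v = en d then 1 else 0) + (if v = en (rev d) then 1 else 0) := by
  rw [deg_eq_sum, sum_singleton]
  rcases d with ⟨e, b⟩
  cases b <;> simp only [rev, Bool.not_true, Bool.not_false, @eq_comm _ v]
  omega

theorem deg_union {X Y : Finset E} (h : Disjoint X Y) (v : ℕ) :
    deg en (X ∪ Y) v = deg en X v + deg en Y v := by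
  simp only [deg_eq_sum, sum_union h]

theorem deg_symmDiff (X Y : Finset E) (v : ℕ) :
    deg en (X ∆ Y) v + 2 * deg en (X ∩ Y) v = deg en X v + deg en Y v := by
  have h1 : deg en X v = deg en (X \ Y) v + deg en (X ∩ Y) v := by
    rw [← deg_union (disjoint_sdiff_inter X Y), sdiff_union_inter]
  have h2 : deg en Y v = deg en (Y \ X) v + deg en (X ∩ Y) v := by
    rw [inter_comm, ← deg_union (disjoint_sdiff_inter Y X), sdiff_union_inter]
  have h3 : deg en (X ∆ Y) v = deg en (X \ Y) v + deg en (Y \ X) v := by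
    rw [← deg_union disjoint_sdiff_sdiff]; rfl
  omega

theorem sum_deg (X : Finset E) (T : Finset ℕ) :
    ∑ v ∈ T, deg en X v = (univ.filter fun d : E × Bool => d.1 ∈ X ∧ en d ∈ T).card := by
  rw [card_eq_sum_card_fiberwise (f := en) (t := T) fun d hd => by
    simp only [coe_filter, Set.mem_ofPred_eq] at hd; exact hd.2.2]
  refine sum_congr rfl fun v hv => congrArg card ?_
  ext d
  simp only [mem_filter, mem_univ, true_and]
  constructor
  · rintro ⟨h1, h2⟩; exact ⟨⟨h1, h2 ▸ hv⟩, h2⟩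
  · rintro ⟨h1, h2⟩; exact ⟨h1.1, h2⟩

theorem ev_empty : Ev en (∅ : Finset E) := fun v => by simp

theorem Ev.symmDiff {X Y : Finset E} (hX : Ev en X) (hY : Ev en Y) : Ev en (X ∆ Y) := fun v => by
  have h := deg_symmDiff (en := en) X Y v
  have h1 := hX v
  have h2 := hY v
  rw [Nat.even_iff] at *
  omega

theorem cut_symmDiff (T T' : Finset ℕ) : cut en (T ∆ T') = cut en T ∆ cut en T' := by
  ext e
  simp only [mem_cut', mem_symmDiff]
  tauto

@[simp] theorem cut_empty : cut en ∅ = (∅ : Finset E) := by ext e; simp [mem_cut']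

theorem cut_compl (T : Finset ℕ) : cut en (vs en univ \ T) = cut en T := by
  ext e
  have h1 : en (e, true) ∈ vs en univ := en_mem_vs (mem_univ _)
  have h2 : en (e, false) ∈ vs en univ := en_mem_vs (mem_univ _)
  simp only [mem_cut', mem_sdiff, h1, h2, true_and]
  tauto

theorem isCut_empty : IsCut en (∅ : Finset E) := ⟨∅, cut_empty⟩

theorem IsCut.symmDiff {X Y : Finset E} (hX : IsCut en X) (hY : IsCut en Y) : IsCut en (X ∆ Y) := by
  obtain ⟨T, rfl⟩ := hX
  obtain ⟨T', rfl⟩ := hY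
  exact ⟨_, cut_symmDiff T T'⟩

/-- A set of vertices whose cut misses a circuit contains all its vertices or none. -/
theorem Circ.const {D : Finset E} (hD : Circ en D) {T : Finset ℕ} (h : Disjoint (cut en T) D) :
    vs en D ⊆ T ∨ Disjoint (vs en D) T := by
  have key : ∀ d : E × Bool, d.1 ∈ D → (en d ∈ T ↔ en (d.1, true) ∈ T) := fun d hd => by
    have := fun h' => disjoint_left.1 h h' hd
    rw [mem_cut'] at this
    rcases d with ⟨e, b⟩
    cases b <;> tauto
  have hY : Ev en (D.filter fun e => en (e, true) ∈ T) := fun v => by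
    by_cases hv : v ∈ T
    · have : deg en (D.filter fun e => en (e, true) ∈ T) v = deg en D v := by
        refine congrArg card ?_
        ext d
        simp only [mem_filter, mem_univ, true_and]
        exact ⟨fun h' => ⟨h'.1.1, h'.2⟩, fun h' => ⟨⟨h'.1, (key d h'.1).1 (h'.2 ▸ hv)⟩, h'.2⟩⟩
      rw [this]; exact hD.1 v
    · have : deg en (D.filter fun e => en (e, true) ∈ T) v = 0 := by
        rw [deg, card_eq_zero, filter_eq_empty_iff]
        rintro d - ⟨h1, h2⟩
        rw [mem_filter] at h1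
        exact hv (h2 ▸ (key d h1.1).2 h1.2)
      rw [this]; exact Even.zero
  rcases (D.filter fun e => en (e, true) ∈ T).eq_empty_or_nonempty with h0 | h0
  · refine Or.inr (disjoint_left.2 fun v hv hT => ?_)
    obtain ⟨d, h1, rfl⟩ := mem_vs.1 hv
    exact filter_eq_empty_iff.1 h0 h1 ((key d h1).1 hT)
  · refine Or.inl fun v hv => ?_
    obtain ⟨d, h1, rfl⟩ := mem_vs.1 hv
    rw [← hD.2.2 _ hY (filter_subset _ _) h0, mem_filter] at h1
    exact (key d h1.1).2 h1.2

/-- A nonempty even set contains a circuit. -/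
theorem Ev.exists_circ {X : Finset E} (hX : Ev en X) (h0 : X.Nonempty) :
    ∃ D, D ⊆ X ∧ Circ en D := by
  classical
  obtain ⟨D, hD, hm⟩ := exists_min_image
    (X.powerset.filter fun Y => Ev en Y ∧ Y.Nonempty) card ⟨X, by simp [hX, h0]⟩
  simp only [mem_filter, mem_powerset] at hD hm
  exact ⟨D, hD.1, hD.2.1, hD.2.2, fun Y h1 h2 h3 =>
    eq_of_subset_of_card_le h2 (hm Y ⟨h2.trans hD.1, h1, h3⟩)⟩

theorem Rho.of_finset {β : Type} {D D' : Finset E} (s : Finset β) (f : Finset ℕ → β)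
    (hf : ∀ T, f T ∈ s) (h : ∀ T T', cut en T ⊆ D ∪ D' → cut en T' ⊆ D ∪ D' →
      f T = f T' → IsCut en ((cut en T ∆ cut en T') ∩ D)) : Rho en D D' s.card :=
  ⟨fun T => s.equivFin ⟨f T, hf T⟩, fun _ => Fin.is_lt _, fun T T' h1 h2 h3 =>
    h T T' h1 h2 (congrArg Subtype.val (s.equivFin.injective (Fin.ext h3)))⟩

theorem Rho.mono {D D' : Finset E} {k k' : ℕ} (h : Rho en D D' k) (hk : k ≤ k') :
    Rho en D D' k' := by
  obtain ⟨f, h1, h2⟩ := h
  exact ⟨f, fun T => (h1 T).trans_le hk, h2⟩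

theorem Link.refl (A : Finset E) (W : Finset ℕ) (j x : ℕ) : Link en A W j x x :=
  ⟨∅, empty_subset _, by simp, by simp [vs], fun v => by
    rw [deg_empty, zero_add]; exact ⟨_, rfl⟩⟩

theorem Link.symm {A : Finset E} {W : Finset ℕ} {j x y : ℕ} (h : Link en A W j x y) :
    Link en A W j y x := by
  obtain ⟨X, h1, h2, h3, h4⟩ := h
  exact ⟨X, h1, h2, h3, fun v => by rw [add_right_comm]; exact h4 v⟩

theorem Link.mono {A A' : Finset E} {W W' : Finset ℕ} {j j' x y : ℕ} (h : Link en A W j x y)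
    (hA : A ⊆ A') (hW : W ⊆ W') (hj : j ≤ j') : Link en A' W' j' x y := by
  obtain ⟨X, h1, h2, h3, h4⟩ := h
  exact ⟨X, h1.trans hA, h2.trans hj, h3.trans hW, h4⟩

theorem symmDiff_sub (X Y : Finset E) : X ∆ Y ⊆ X ∪ Y := fun e he => by
  rw [mem_symmDiff] at he; rw [mem_union]; tauto

theorem Link.trans {A : Finset E} {W : Finset ℕ} {j j' x y z : ℕ} (h : Link en A W j x y)
    (h' : Link en A W j' y z) : Link en A W (j + j') x z := by
  obtain ⟨X, h1, h2, h3, h4⟩ := h
  obtain ⟨Y, k1, k2, k3, k4⟩ := h'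
  refine ⟨X ∆ Y, (symmDiff_sub X Y).trans (union_subset h1 k1),
    (card_le_card (symmDiff_sub X Y)).trans ((card_union_le _ _).trans (add_le_add h2 k2)),
    (vs_mono (symmDiff_sub X Y)).trans (by rw [vs_union]; exact union_subset h3 k3), fun v => ?_⟩
  have a1 := deg_symmDiff (en := en) X Y v
  have a2 := h4 v
  have a3 := k4 v
  rw [Nat.even_iff] at *
  omega

theorem Link.step {A : Finset E} {W : Finset ℕ} {d : E × Bool} (hA : d.1 ∈ A) (h1 : en d ∈ W)
    (h2 : en (rev d) ∈ W) : Link en A W 1 (en d) (en (rev d)) := by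
  refine ⟨{d.1}, by simpa using hA, by simp, fun v hv => ?_, fun v => ?_⟩
  · obtain ⟨e, he, rfl⟩ := mem_vs.1 hv
    rcases eq_or_rev (mem_singleton.1 he) with rfl | rfl <;> assumption
  · rw [deg_single, Nat.even_iff]; omega

theorem mem_reach_succ {A : Finset E} {P : Finset ℕ} {j y : ℕ} : y ∈ reach en A P (j + 1) ↔
    y ∈ reach en A P j ∨ ∃ d : E × Bool, d.1 ∈ A ∧ en d ∈ reach en A P j ∧ en (rev d) = y := by
  simp only [reach, mem_union, mem_image, mem_filter, mem_univ, true_and, and_assoc]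

theorem reach_mono {A : Finset E} {P : Finset ℕ} {j k : ℕ} (h : j ≤ k) :
    reach en A P j ⊆ reach en A P k := by
  induction h with
  | refl => exact Subset.refl _
  | step _ ih => exact fun y hy => mem_reach_succ.2 (Or.inl (ih hy))

theorem reach_mono' {A A' : Finset E} {P P' : Finset ℕ} (hA : A ⊆ A') (hP : P ⊆ P') (j : ℕ) :
    reach en A P j ⊆ reach en A' P' j := by
  induction j with
  | zero => exact hP
  | succ j ih =>
    intro y hy
    rcases mem_reach_succ.1 hy with h | ⟨d, h1, h2, h3⟩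
    exacts [mem_reach_succ.2 (Or.inl (ih h)), mem_reach_succ.2 (Or.inr ⟨d, hA h1, ih h2, h3⟩)]

theorem reach_source {A : Finset E} {P : Finset ℕ} {j y : ℕ} (h : y ∈ reach en A P j) :
    ∃ x ∈ P, y ∈ reach en A {x} j := by
  induction j generalizing y with
  | zero => exact ⟨y, h, mem_singleton_self y⟩
  | succ j ih =>
    rcases mem_reach_succ.1 h with h | ⟨d, h1, h2, h3⟩
    · obtain ⟨x, hx, h'⟩ := ih h
      exact ⟨x, hx, mem_reach_succ.2 (Or.inl h')⟩
    · obtain ⟨x, hx, h'⟩ := ih h2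
      exact ⟨x, hx, mem_reach_succ.2 (Or.inr ⟨d, h1, h', h3⟩)⟩

theorem reach_link {A : Finset E} {x j y : ℕ} (h : y ∈ reach en A {x} j) :
    Link en A (reach en A {x} j) j x y := by
  induction j generalizing y with
  | zero => rw [mem_singleton.1 h]; exact Link.refl _ _ _ _
  | succ j ih =>
    rcases mem_reach_succ.1 h with h' | ⟨d, h1, h2, rfl⟩
    · exact (ih h').mono (Subset.refl _) (reach_mono j.le_succ) j.le_succ
    · exact ((ih h2).mono (Subset.refl _) (reach_mono j.le_succ) le_rfl).trans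
        (Link.step h1 (reach_mono j.le_succ h2) h)

theorem Zone.anti' {S : Finset ℕ} {G : ℕ → Finset ℕ} {x g : ℕ} (hz : Zone en S G x g) {j k : ℕ}
    (h : j ≤ k) : G k ⊆ G j := by
  induction h with
  | refl => exact Subset.refl _
  | step _ ih => exact (hz.anti _).trans ih

theorem Zone.reach_sub {S : Finset ℕ} {G : ℕ → Finset ℕ} {x g : ℕ} (hz : Zone en S G x g)
    {A : Finset E} {P : Finset ℕ} {j k : ℕ} (hP : P ⊆ G (k + j)) : reach en A P j ⊆ G k := by
  induction j generalizing k with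
  | zero => exact hP
  | succ j ih =>
    have h : reach en A P j ⊆ G (k + 1) := ih (by rwa [add_assoc, add_comm 1 j])
    intro y hy
    rcases mem_reach_succ.1 hy with h' | ⟨d, -, h2, rfl⟩
    exacts [hz.anti k (h h'), hz.nbr k d (h h2)]

theorem NS.mono {G G' : Finset ℕ} {g g' : ℕ} (h : NS en G g) (hG : G' ⊆ G) (hg : g' ≤ g) :
    NS en G' g' := fun X h1 h2 h3 => h X h1 (h2.trans hg) (h3.trans hG)

end Pool.Agent.MP_94842c_co.ES
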