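import Mathlib

/-! Multigraphs given by darts, even edge sets, circuits, cuts, walks (project ES). -/

set_option autoImplicit false

namespace Pool.Agent.MP_94842c_co.ES

open Finset
open scoped symmDiff

variable {E : Type} [Fintype E] [DecidableEq E]

/-- The other dart of the same edge. -/
def rev (d : E × Bool) : E × Bool := (d.1, !d.2)

/-- Number of darts of `X` that start at `v`. -/
def deg (en : E × Bool → ℕ) (X : Finset E) (v : ℕ) : ℕ :=
  (univ.filter fun d : E × Bool => d.1 ∈ X ∧ en d = v).card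

/-- Even edge sets. -/
def Ev (en : E × Bool → ℕ) (X : Finset E) : Prop := ∀ v, Even (deg en X v)

open Classical in
/-- The cycle space. -/
noncomputable def Z (en : E × Bool → ℕ) : Finset (Finset E) := univ.filter (Ev en)

/-- Circuits: minimal nonempty even sets. -/
def Circ (en : E × Bool → ℕ) (D : Finset E) : Prop :=
  Ev en D ∧ D.Nonempty ∧ ∀ Y, Ev en Y → Y ⊆ D → Y.Nonempty → Y = D

open Classical in
noncomputable def circs (en : E × Bool → ℕ) : Finset (Finset E) := univ.filter (Circ en)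

/-- The vertices of an edge set. -/
def vs (en : E × Bool → ℕ) (X : Finset E) : Finset ℕ :=
  (univ.filter fun d : E × Bool => d.1 ∈ X).image en

/-- The edges with exactly one end in `T`. -/
def cut (en : E × Bool → ℕ) (T : Finset ℕ) : Finset E :=
  univ.filter fun e => ¬ (en (e, true) ∈ T ↔ en (e, false) ∈ T)

def IsCut (en : E × Bool → ℕ) (X : Finset E) : Prop := ∃ T, cut en T = X

def Cubic (en : E × Bool → ℕ) : Prop := ∀ d, deg en univ (en d) = 3

/-- The darts that start in `T`. -/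
def darts (en : E × Bool → ℕ) (T : Finset ℕ) : Finset (E × Bool) := univ.filter fun d => en d ∈ T

/-- Number of even sets that contain `D`. -/
noncomputable def cnt (en : E × Bool → ℕ) (D : Finset E) : ℕ :=
  ((Z en).filter fun C => D ⊆ C).card

/-- Number of even sets that contain a member of `F`. -/
noncomputable def hit (en : E × Bool → ℕ) (F : Finset (Finset E)) : ℕ :=
  ((Z en).filter fun C => ∃ D ∈ F, D ⊆ C).card

/-- `D` and `D'` share at most `k` linear functionals on the cycle space. -/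
def Rho (en : E × Bool → ℕ) (D D' : Finset E) (k : ℕ) : Prop :=
  ∃ f : Finset ℕ → ℕ, (∀ T, f T < k) ∧ ∀ T T', cut en T ⊆ D ∪ D' → cut en T' ⊆ D ∪ D' →
    f T = f T' → IsCut en ((cut en T ∆ cut en T') ∩ D)

/-- An edge set inside `A` with vertices in `W`, at most `j` edges and boundary `x + y`. -/
def Link (en : E × Bool → ℕ) (A : Finset E) (W : Finset ℕ) (j x y : ℕ) : Prop :=
  ∃ X, X ⊆ A ∧ X.card ≤ j ∧ vs en X ⊆ W ∧
    ∀ v, Even (deg en X v + (if v = x then 1 else 0) + (if v = y then 1 else 0))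

/-- Vertices reached from `P` in at most `j` steps along edges of `A`. -/
def reach (en : E × Bool → ℕ) (A : Finset E) (P : Finset ℕ) : ℕ → Finset ℕ
  | 0 => P
  | j + 1 => reach en A P j ∪
      (univ.filter fun d : E × Bool => d.1 ∈ A ∧ en d ∈ reach en A P j).image fun d => en (rev d)

/-- No nonempty even set with at most `g` edges has all its vertices in `G`. -/
def NS (en : E × Bool → ℕ) (G : Finset ℕ) (g : ℕ) : Prop :=
  ∀ X, Ev en X → X.card ≤ g → vs en X ⊆ G → X = ∅

/-- Chain of darts `p 0, ..., p t`. -/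
def Ch (en : E × Bool → ℕ) (p : ℕ → E × Bool) (t : ℕ) : Prop :=
  ∀ k, k < t → en (p (k + 1)) = en (rev (p k))

/-- No backtracking among `p 0, ..., p t`. -/
def Nb (p : ℕ → E × Bool) (t : ℕ) : Prop := ∀ k, k < t → p (k + 1) ≠ rev (p k)

/-- The start vertices of `p 0, ..., p t` are distinct. -/
def Simple (en : E × Bool → ℕ) (p : ℕ → E × Bool) (t : ℕ) : Prop :=
  ∀ j k, j ≤ t → k ≤ t → en (p j) = en (p k) → j = k

/-- The start vertices of `p 0, ..., p t` lie in `G`. -/
def Ins (en : E × Bool → ℕ) (p : ℕ → E × Bool) (t : ℕ) (G : Finset ℕ) : Prop :=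
  ∀ k, k ≤ t → en (p k) ∈ G

/-- The edges of `p 0, ..., p (t-1)`. -/
def edges (p : ℕ → E × Bool) (t : ℕ) : Finset E := (range t).image fun k => (p k).1

/-- The two successor maps of a cubic multigraph. -/
structure Cub (en : E × Bool → ℕ) where
  nx : Bool → Equiv.Perm (E × Bool)
  en_nx : ∀ b d, en (nx b d) = en (rev d)
  ne_rev : ∀ b d, nx b d ≠ rev d
  ne : ∀ d, nx true d ≠ nx false d
  all : ∀ d e, en e = en (rev d) → e = rev d ∨ e = nx true d ∨ e = nx false d

/-- The walk with first dart `w.1` and bits `w.2`. -/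
def wk {en : E × Bool → ℕ} (R : Cub en) (w : (E × Bool) × Finset ℕ) : ℕ → E × Bool
  | 0 => w.1
  | k + 1 => R.nx (decide (k ∈ w.2)) (wk R w k)

/-- All walks of length `l`. -/
def walks (E : Type) [Fintype E] (l : ℕ) : Finset ((E × Bool) × Finset ℕ) :=
  univ ×ˢ (range l).powerset

/-- A locally expanding zone of large girth. -/
structure Zone (en : E × Bool → ℕ) (S : Finset ℕ) (G : ℕ → Finset ℕ) (x g : ℕ) : Prop where
  subV : S ⊆ vs en univ
  sub0 : G 0 ⊆ S
  anti : ∀ j, G (j + 1) ⊆ G j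
  nbr : ∀ j d, en d ∈ G (j + 1) → en (rev d) ∈ G j
  few : ∀ j, (S \ G j).card ≤ 4 ^ j * x
  sq : x ^ 2 ≤ S.card
  ns : NS en (G 0) g
  big : ∀ T p, 1 ≤ p → (cut en T).card ≤ p → (S ∩ T).card < 16 * p ^ 2 ∨ (S \ T).card < 16 * p ^ 2

open Classical in
/-- Circuits with at most `M` edges and all vertices in `G`. -/
noncomputable def fam (en : E × Bool → ℕ) (G : Finset ℕ) (M : ℕ) : Finset (Finset E) :=
  univ.filter fun D => Circ en D ∧ D.card ≤ M ∧ vs en D ⊆ G

/-- Total weight of a family. -/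
noncomputable def wt (F : Finset (Finset E)) : ℝ := ∑ D ∈ F, (1 / 2 : ℝ) ^ D.card

open Classical in
/-- Simple walks of length `l` inside `G`. -/
noncomputable def good {en : E × Bool → ℕ} (R : Cub en) (G : Finset ℕ) (l : ℕ) :
    Finset ((E × Bool) × Finset ℕ) :=
  (walks E l).filter fun w => Ins en (wk R w) l G ∧ Simple en (wk R w) l

/-- Two walks split after index `i` and meet again around `D`. -/
structure Lens {en : E × Bool → ℕ} (R : Cub en) (l : ℕ) (w w' : (E × Bool) × Finset ℕ)
    (D : Finset E) (i a a' : ℕ) : Prop where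
  pre : ∀ k, k ≤ i → wk R w k = wk R w' k
  split : wk R w (i + 1) ≠ wk R w' (i + 1)
  a1 : 1 ≤ a
  a1' : 1 ≤ a'
  le : i + 1 + a ≤ l
  le' : i + 1 + a' ≤ l
  card : D.card = a + a'
  mem : ∀ k, 1 ≤ k → k ≤ a → (wk R w (i + k)).1 ∈ D
  mem' : ∀ k, 1 ≤ k → k ≤ a' → (wk R w' (i + k)).1 ∈ D
  meet : en (wk R w (i + 1 + a)) = en (wk R w' (i + 1 + a'))
  last : wk R w l = wk R w' l

open Classical in
/-- Pairs of good walks with a lens of the given shape. -/
noncomputable def lensP {en : E × Bool → ℕ} (R : Cub en) (G : Finset ℕ) (l : ℕ) (D : Finset E)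
    (i a a' : ℕ) : Finset (((E × Bool) × Finset ℕ) × ((E × Bool) × Finset ℕ)) :=
  (good R G l ×ˢ good R G l).filter fun q => Lens R l q.1 q.2 D i a a'

open Classical in
/-- Walks of length `l` whose darts `i+1, ..., i+a` lie on `D`. -/
noncomputable def seg {en : E × Bool → ℕ} (R : Cub en) (l : ℕ) (D : Finset E) (i a : ℕ) :
    Finset ((E × Bool) × Finset ℕ) :=
  (walks E l).filter fun w => ∀ k, 1 ≤ k → k ≤ a → (wk R w (i + k)).1 ∈ D

/-- Contact vertices of `D` with `D'` within `r` steps. -/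
def contact (en : E × Bool → ℕ) (D D' : Finset E) (r : ℕ) : Finset ℕ :=
  (vs en D).filter fun x => ∃ y ∈ vs en D', y ∈ reach en (univ \ (D ∪ D')) {x} r

/-- The kernel of the pair count. -/
noncomputable def hh (l a : ℕ) : ℝ := 8 * (a : ℝ) * ((l - a : ℕ) : ℝ) * (1 / 2 : ℝ) ^ (l - a)

/-- The bound to be proved. -/
def Bd (ε C : ℝ) (en : E × Bool → ℕ) : Prop :=
  ((circs en).card : ℝ) ≤ (1 / 2 + ε) * (Z en).card + C

end Pool.Agent.MP_94842c_co.ES
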