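import Pool.Agent.MP_94842c_co.ES.Spec

/-! From the dart model to simple graphs (project ES). -/

set_option autoImplicit false

namespace Pool.Agent.MP_94842c_co.ES

open Finset Pool.Agent.MP_94842c_co.Lim

theorem row_gen (h1 : CORE) (h2 : RED1) (h3 : RED2) : GEN := fun ε hε => by
  obtain ⟨C, hC, h⟩ := h1 ε hε
  exact ⟨C, h2 ε C (h3 ε C hε.le hC h)⟩

theorem card_edgeSet {V : Type} (G : SimpleGraph V) [Fintype G.edgeSet] :
    Fintype.card G.edgeSet = G.edgeSet.ncard := by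
  rw [← Nat.card_eq_fintype_card, Nat.card_coe_set_eq]

theorem mainA (h1 : GEN) (h2 : BR1) (h3 : BR2) (h4 : LIN4) (ε : ℝ) (hε : 0 < ε) :
    ∃ C : ℝ, ∀ (V : Type) [Finite V] (G : SimpleGraph V), G.Connected →
      ((cycles G).ncard : ℝ) ≤
        (1 + ε) * 2 ^ ((G.edgeSet.ncard : ℤ) - (Nat.card V : ℤ)) + C := by
  obtain ⟨C, h⟩ := h1 (ε / 2) (by positivity)
  refine ⟨C, fun V _ G hG => ?_⟩
  classical
  have : Fintype G.edgeSet := Fintype.ofFinite _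
  obtain ⟨V0, v0, a, b, c⟩ := (h3 V G).2 hG
  have k1 := h4 (enG G) V0 v0 a c
  rw [card_edgeSet] at k1
  have k2 : ((Z (enG G)).card : ℝ) ≤ 2 * 2 ^ ((G.edgeSet.ncard : ℤ) - (Nat.card V : ℤ)) := by
    rw [zpow_sub₀ two_ne_zero, zpow_natCast, zpow_natCast, ← b, pow_succ, ← mul_div_assoc,
      le_div_iff₀ (by positivity)]
    have : ((Z (enG G)).card : ℝ) * 2 ^ V0.card ≤ 2 ^ G.edgeSet.ncard := by exact_mod_cast k1
    linarith
  have k3 : ((cycles G).ncard : ℝ) ≤ (circs (enG G)).card := Nat.cast_le.2 (h2 V G)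
  have k4 := h (enG G)
  unfold Bd at k4
  have k5 := mul_le_mul_of_nonneg_left k2 (show 0 ≤ 1 / 2 + ε / 2 by positivity)
  linarith

theorem mainB (h1 : COMP) (h2 : BR1) (h3 : BR2) (ε : ℝ) (hε : 0 < ε) :
    ∃ C : ℝ, ∀ (V : Type) [Finite V] (G : SimpleGraph V), (∀ v, (G.neighborSet v).ncard ≤ 3) →
      ((cycles G).ncard : ℝ) ≤ (1 + ε) * 2 ^ (G.edgeSet.ncard / 3) + C := by
  obtain ⟨C, h⟩ := h1 ε hε
  refine ⟨C, fun V _ G hG => ?_⟩
  classical
  have : Fintype G.edgeSet := Fintype.ofFinite _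
  have k := h (enG G) ((h3 V G).1 hG)
  rw [card_edgeSet] at k
  exact (Nat.cast_le.2 (h2 V G)).trans k

end Pool.Agent.MP_94842c_co.ES
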