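import Pool.Agent.MP_94842c_co.ES.Spec

/-! Project ES, row ARCS: cutting a circuit into short arcs. -/

set_option autoImplicit false
set_option linter.unusedSectionVars false

namespace Pool.Agent.MP_94842c_co.ES

open Finset

theorem row_arcs (h : TRACE) : ARCS := by
  intro E _ _ en R D u hD hu
  obtain ⟨e, he⟩ := hD.2.1
  obtain ⟨b, -, h1, h2, -⟩ := h en R D (e, true) hD he
  have hc := wk_ch (R := R) ((e, true), b) D.card
  have h0 : en (wk R ((e, true), b) D.card) = en (wk R ((e, true), b) 0) := h2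
  generalize wk R ((e, true), b) = p at h1 hc h0
  have hm : ∀ k, k < D.card → (p k).1 ∈ D := fun k hk =>
    (h1 ▸ mem_edges.2 ⟨k, hk, rfl⟩ : (p k).1 ∈ D)
  have hx : ∀ x, ∃ k, k ≤ D.card ∧ (x ∈ vs en D → en (p k) = x) := fun x => by
    by_cases hx : x ∈ vs en D
    · obtain ⟨d, d1, rfl⟩ := mem_vs.1 hx
      rw [← h1] at d1
      obtain ⟨k, hk, e⟩ := mem_edges.1 d1
      rcases eq_or_rev e.symm with rfl | rfl
      exacts [⟨k, hk.le, fun _ => rfl⟩, ⟨k + 1, hk, fun _ => hc k hk⟩]
    · exact ⟨0, Nat.zero_le _, fun a => absurd a hx⟩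
  choose κ k1 k2 using hx
  have lk : ∀ j n, j + n ≤ D.card → Link en D (vs en D) n (en (p j)) (en (p (j + n))) := by
    intro j n
    induction n with
    | zero => exact fun _ => Link.refl _ _ _ _
    | succ n ih =>
      intro hn
      have a := hm (j + n) hn
      rw [← add_assoc, hc (j + n) hn]
      exact (ih (by omega)).trans (Link.step a (en_mem_vs a) (en_mem_vs (d := rev _) a))
  have key : ∀ j k, j ≤ k → k ≤ D.card → j / u = k / u →
      Link en D (vs en D) u (en (p j)) (en (p k)) := fun j k hjk hk e => by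
    obtain ⟨n, rfl⟩ := Nat.exists_eq_add_of_le hjk
    refine (lk j n hk).mono (Subset.refl _) (Subset.refl _) ?_
    have a1 := Nat.div_add_mod j u
    have a2 := Nat.div_add_mod (j + n) u
    have a3 := Nat.mod_lt (j + n) hu
    rw [← e] at a2
    omega
  refine ⟨fun x => κ x / u, fun x => Nat.div_le_div_right (k1 x), fun x hx y hy e => ?_⟩
  rw [← k2 x hx, ← k2 y hy]
  rcases le_total (κ x) (κ y) with c | c
  exacts [key _ _ c (k1 y) e, (key _ _ c (k1 x) e.symm).symm]

end Pool.Agent.MP_94842c_co.ES
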