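import Pool.Agent.MP_94842c_co.ES.Spec

/-! The family of circuits of logarithmic length has weight at least two (project ES). -/

set_option autoImplicit false

namespace Pool.Agent.MP_94842c_co.ES

open Finset

theorem row_aw (h1 : GOODW) (h2 : PAIRS) (h3 : SUMA) : AW := by
  intro E _ _ en R S G x g u K l0 hz hn hg
  by_contra hc
  rw [not_le] at hc
  have hS : 1 ≤ S.card := le_trans (Nat.one_le_iff_ne_zero.2 (by positivity)) hn.n2
  have key : ∀ l ∈ Icc l0 (K * u), 1 / 2 * (1 / (l : ℝ)) ≤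
      ∑ D ∈ fam en (G (2 * u)) (2 * (K * u)), hh l (D.card / 2) / l * (1 / 2) ^ D.card := by
    intro l hl
    rw [mem_Icc] at hl
    have a := h1 en R S G x g u l hz hn.u1 hg (le_trans (by gcongr; exact hl.2) hn.n2)
      (le_trans (by gcongr; exact hl.2) hn.n3)
    have b := h2 en R S (G (2 * u)) g (5 * u) l (K * u)
      (hz.ns.mono (hz.anti' (Nat.zero_le _)) le_rfl) (by omega) hl.2
      ((hz.anti' (Nat.zero_le _)).trans hz.sub0) hS a
      (hn.n4.trans (Nat.pow_le_pow_right two_pos hl.1)) hn.n5 hc.le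
    refine (mul_le_mul_of_nonneg_right b (by positivity)).trans_eq ?_
    rw [sum_mul]
    exact sum_congr rfl fun D _ => by ring
  have s1 := sum_le_sum key
  rw [← mul_sum, sum_comm] at s1
  have s2 : ∑ D ∈ fam en (G (2 * u)) (2 * (K * u)), ∑ l ∈ Icc l0 (K * u),
      hh l (D.card / 2) / l * (1 / 2) ^ D.card ≤ 16 * wt (fam en (G (2 * u)) (2 * (K * u))) := by
    rw [wt, mul_sum]
    refine sum_le_sum fun D _ => ?_
    rw [← sum_mul]
    exact mul_le_mul_of_nonneg_right (h3 _ _ _ hn.l1) (by positivity)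
  have := hn.n6
  linarith

end Pool.Agent.MP_94842c_co.ES
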