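import Pool.Agent.MP_94842c_co.ES.Spec

/-! Row BR1: cycles of a simple graph are circuits of its dart model. -/

set_option autoImplicit false

namespace Pool.Agent.MP_94842c_co.ES

open Finset Pool.Agent.MP_94842c_co.Lim

namespace BR1

variable {V : Type} [Finite V] {G : SimpleGraph V}

theorem dart {a b : V} (h : G.Adj a b) : ∃ d : G.edgeSet × Bool, d.1.1 = s(a, b) ∧
    enG G d = (Finite.equivFin V a).val ∧ enG G (rev d) = (Finite.equivFin V b).val := by
  have h1 : s((Quot.out s(a, b)).1, (Quot.out s(a, b)).2) = s(a, b) := Quot.out_eq _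
  rcases Sym2.eq_iff.1 h1 with ⟨h2, h3⟩ | ⟨h2, h3⟩
  · exact ⟨(⟨s(a, b), h⟩, true), rfl, by simp [enG, h2], by simp [enG, rev, h3]⟩
  · exact ⟨(⟨s(a, b), h⟩, false), rfl, by simp [enG, h3], by simp [enG, rev, h2]⟩

open Classical in
theorem circ [Fintype G.edgeSet] [DecidableEq G.edgeSet] (h : CYC) {v : V} {p : G.Walk v v}
    (hp : p.IsCycle) : Circ (enG G) (univ.filter fun e : G.edgeSet => e.1 ∈ p.edgeSet) := by
  have h3 := hp.three_le_length
  choose q q1 q2 q3 using fun k : ℕ =>
    dart (p.adj_getVert_succ (Nat.mod_lt k (by omega : 0 < p.length)))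
  have lab : ∀ a b : V, (Finite.equivFin V a).val = (Finite.equivFin V b).val → a = b :=
    fun a b hab => (Finite.equivFin V).injective (Fin.ext hab)
  have inj : ∀ j k, j < p.length → k < p.length → p.getVert j = p.getVert k → j = k :=
    fun j k hj hk e => hp.getVert_injOn' (Nat.le_sub_one_of_lt hj) (Nat.le_sub_one_of_lt hk) e
  have wrap : ∀ k, k ≤ p.length → p.getVert (k % p.length) = p.getVert k := fun k hk => by
    rcases hk.eq_or_lt with rfl | hk
    · rw [Nat.mod_self, p.getVert_zero, p.getVert_length]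
    · rw [Nat.mod_eq_of_lt hk]
  have key := h (enG G) q p.length (by omega)
    (fun k hk => by rw [q2, q3, wrap _ hk, Nat.mod_eq_of_lt hk])
    (fun k hk e => by
      have e1 := q3 (k + 1)
      rw [e, rev_rev, q2, Nat.mod_eq_of_lt hk, Nat.mod_eq_of_lt (by omega : k < p.length)] at e1
      have e2 := (lab _ _ e1).trans (wrap _ hk).symm
      have e3 := inj _ _ (by omega) (Nat.mod_lt _ (by omega)) e2
      rcases (Nat.succ_le_of_lt hk).eq_or_lt with e4 | e4
      · rw [e4, Nat.mod_self] at e3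
        omega
      · rw [Nat.mod_eq_of_lt e4] at e3
        omega)
    (fun j k hj hk e => by
      rw [q2, q2, Nat.mod_eq_of_lt hj, Nat.mod_eq_of_lt hk] at e
      exact inj j k hj hk (lab _ _ e))
    (by rw [q2, q2, Nat.mod_self, Nat.zero_mod])
  have he : edges q p.length = univ.filter fun e : G.edgeSet => e.1 ∈ p.edgeSet := by
    ext ⟨e, he⟩
    rw [mem_edges, mem_filter, SimpleGraph.Walk.mem_edgeSet]
    induction e using Sym2.ind with
    | _ a b =>
      rw [p.mk_mem_edges_iff_exists]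
      refine ⟨fun ⟨k, hk, e⟩ => ⟨mem_univ _, k, hk, ?_⟩, fun ⟨_, k, hk, e⟩ => ⟨k, hk, Subtype.ext ?_⟩⟩
      · have e1 := q1 k
        rw [e, Nat.mod_eq_of_lt hk] at e1
        exact e1.symm
      · rw [q1, Nat.mod_eq_of_lt hk, e]
  exact he ▸ key.1

end BR1

theorem row_br1 (h : CYC) : BR1 := by
  intro V _ G _ _
  classical
  rw [← Set.ncard_coe_finset]
  refine Set.ncard_le_ncard_of_injOn (fun S => univ.filter fun e : G.edgeSet => e.1 ∈ S) ?_ ?_
  · rintro _ ⟨v, p, hp, rfl⟩
    have := BR1.circ h hp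
    rw [mem_coe, mem_circs]
    refine (congrArg (Circ (enG G)) ?_).mp this
    ext e
    simp only [mem_filter]
  · have key : ∀ S ∈ cycles G, ∀ S' : Set (Sym2 V), (univ.filter fun e : G.edgeSet => e.1 ∈ S) =
        (univ.filter fun e : G.edgeSet => e.1 ∈ S') → S ⊆ S' := by
      rintro _ ⟨v, p, -, rfl⟩ S' e x hx
      have h1 : (⟨x, p.edges_subset_edgeSet hx⟩ : G.edgeSet) ∈
          univ.filter fun e : G.edgeSet => e.1 ∈ p.edgeSet := mem_filter.2 ⟨mem_univ _, hx⟩
      rw [e] at h1
      exact (mem_filter.1 h1).2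
    exact fun S hS S' hS' e => (key S hS S' e).antisymm (key S' hS' S e.symm)

end Pool.Agent.MP_94842c_co.ES
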