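import Pool.Agent.MP_94842c_co.ES.Spec

/-! The dart model of a simple graph: degrees and links (project ES, row BR2). -/

set_option autoImplicit false
set_option linter.unusedSectionVars false

namespace Pool.Agent.MP_94842c_co.ES

open Finset

namespace RowBR2

variable {V : Type} [Finite V] {G : SimpleGraph V} [Fintype G.edgeSet] [DecidableEq G.edgeSet]

/-- The start of a dart. -/
noncomputable def src (d : G.edgeSet × Bool) : V :=
  if d.2 then (Quot.out d.1.1).1 else (Quot.out d.1.1).2

/-- The label of a vertex. -/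
noncomputable def lab (v : V) : ℕ := (Finite.equivFin V v).val

theorem en_eq (d : G.edgeSet × Bool) : enG G d = lab (src d) := rfl

theorem lab_inj : Function.Injective (lab : V → ℕ) := fun _ _ h =>
  (Finite.equivFin V).injective (Fin.ext h)

theorem edge_eq (d : G.edgeSet × Bool) : s(src d, src (rev d)) = d.1.1 := by
  rcases d with ⟨e, b⟩
  have h : s((Quot.out e.1).1, (Quot.out e.1).2) = e.1 := Quot.out_eq e.1
  cases b
  · exact Sym2.eq_swap.trans h
  · exact h

theorem adj (d : G.edgeSet × Bool) : G.Adj (src d) (src (rev d)) := by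
  rw [← SimpleGraph.mem_edgeSet, edge_eq]
  exact d.1.2

theorem dart_ext {d e : G.edgeSet × Bool} (h1 : src d = src e)
    (h2 : src (rev d) = src (rev e)) : d = e := by
  have h : d.1 = e.1 := Subtype.ext (by rw [← edge_eq d, ← edge_eq e, h1, h2])
  rcases eq_or_rev h with h | h
  · exact h
  · subst h
    exact absurd h1.symm (adj e).ne

theorem exists_dart {a b : V} (h : G.Adj a b) :
    ∃ d : G.edgeSet × Bool, src d = a ∧ src (rev d) = b := by
  have h1 := edge_eq (G := G) (⟨s(a, b), h⟩, true)
  rcases Sym2.eq_iff.1 h1 with ⟨h2, h3⟩ | ⟨h2, h3⟩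
  · exact ⟨_, h2, h3⟩
  · exact ⟨_, h3, by rw [rev_rev]; exact h2⟩

theorem link (W : Finset ℕ) (hW : ∀ v : V, lab v ∈ W) {a b : V} (p : G.Walk a b) :
    ∃ j, Link (enG G) univ W j (lab a) (lab b) := by
  induction p with
  | nil => exact ⟨0, Link.refl _ _ _ _⟩
  | cons h _ ih =>
    obtain ⟨j, hj⟩ := ih
    obtain ⟨d, rfl, h2⟩ := exists_dart h
    have h3 := Link.step (en := enG G) (W := W) (mem_univ d.1) (hW _) (hW _)
    rw [en_eq, en_eq, h2] at h3
    exact ⟨_, h3.trans hj⟩

end RowBR2

open RowBR2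

theorem row_br2 : BR2 := by
  intro V _ G _ _
  refine ⟨fun h u => ?_, fun hc => ?_⟩
  · rcases (univ.filter fun d : G.edgeSet × Bool => d.1 ∈ univ ∧ enG G d = u).eq_empty_or_nonempty
      with h0 | ⟨d0, h0⟩
    · rw [deg, h0]; simp
    have key : ∀ d ∈ univ.filter fun d : G.edgeSet × Bool => d.1 ∈ univ ∧ enG G d = u,
        src d = src d0 := fun d hd =>
      lab_inj ((mem_filter.1 hd).2.2.trans (mem_filter.1 h0).2.2.symm)
    rw [deg, ← Set.ncard_coe_finset]
    refine (Set.ncard_le_ncard_of_injOn (fun d => src (rev d)) (fun d hd => ?_)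
      (fun d hd e he hde => ?_) (Set.toFinite _)).trans (h (src d0))
    · rw [← key d (mem_coe.1 hd)]
      exact adj d
    · exact dart_ext ((key d (mem_coe.1 hd)).trans (key e (mem_coe.1 he)).symm) hde
  · have := Fintype.ofFinite V
    obtain ⟨v0⟩ := hc.nonempty
    have hW : ∀ v : V, lab v ∈ univ.image (lab : V → ℕ) := fun v =>
      mem_image_of_mem _ (mem_univ v)
    refine ⟨(univ.image (lab : V → ℕ)).erase (lab v0), lab v0, notMem_erase _ _, ?_, fun v hv => ?_⟩
    · rw [card_erase_add_one (hW v0), card_image_of_injective _ lab_inj, card_univ,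
        Nat.card_eq_fintype_card]
    · obtain ⟨b, -, rfl⟩ := mem_image.1 (mem_of_mem_erase hv)
      obtain ⟨p⟩ := hc v0 b
      exact ⟨_, link _ hW p⟩

end Pool.Agent.MP_94842c_co.ES
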