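import Pool.Agent.MP_94842c_co.ES.Spec

/-! Row CA of project ES. -/

set_option autoImplicit false

namespace Pool.Agent.MP_94842c_co.ES

open Finset
open scoped symmDiff

namespace RowCA

variable {E : Type} [Fintype E] [DecidableEq E] {en : E × Bool → ℕ}

omit [Fintype E] in
theorem sd_inter (X Y D : Finset E) : X ∆ Y ∩ D = (X ∩ D) ∆ (Y ∩ D) := by
  ext e
  simp only [mem_inter, mem_symmDiff]
  tauto

theorem rho_pow (D D' : Finset E) : Rho en D D' (2 ^ D.card) := by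
  rw [← card_powerset]
  refine Rho.of_finset _ (fun T => cut en T ∩ D) (fun T => mem_powerset.2 inter_subset_right)
    fun T T' _ _ h => ?_
  have e : cut en T ∆ cut en T' ∩ D = ∅ := by
    rw [sd_inter, h, symmDiff_self]; rfl
  rw [e]
  exact isCut_empty

theorem bad {D D' : Finset E} (h : ¬ Rho en D D' 2) : ∃ T : Finset ℕ × Finset ℕ,
    cut en T.1 ⊆ D ∪ D' ∧ cut en T.2 ⊆ D ∪ D' ∧ ¬ (IsCut en (cut en T.1 ∩ D) ∨
      IsCut en (cut en T.2 ∩ D) ∨ IsCut en ((cut en T.1 ∆ cut en T.2) ∩ D)) := by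
  classical
  by_contra hc
  refine h ⟨fun T => if IsCut en (cut en T ∩ D) then 0 else 1, fun T => ?_, fun T T' h1 h2 h3 => ?_⟩
  · dsimp only
    split_ifs <;> norm_num
  · have h4 : IsCut en (cut en T ∩ D) ↔ IsCut en (cut en T' ∩ D) := by
      dsimp only at h3
      split_ifs at h3 with a b <;> tauto
    by_cases h5 : IsCut en (cut en T ∩ D)
    · rw [sd_inter]
      exact h5.symmDiff (h4.1 h5)
    · by_contra h6
      exact hc ⟨(T, T'), h1, h2, fun h7 => h7.elim h5 fun h8 => h8.elim (fun h9 => h5 (h4.2 h9)) h6⟩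

open Classical in
theorem few (h2 : TT) {F : Finset (Finset E)} (hF : ∀ D ∈ F, Circ en D)
    (hd : ∀ D ∈ F, ∀ D' ∈ F, D ≠ D' → Disjoint (vs en D) (vs en D')) {D : Finset E} (hD : D ∈ F) :
    (F.filter fun D' => D ≠ D' ∧ ¬ Rho en D D' 2).card ≤ 2 ^ D.card * 2 ^ D.card := by
  have h : ∀ D', ∃ T : Finset ℕ × Finset ℕ, ¬ Rho en D D' 2 →
      cut en T.1 ⊆ D ∪ D' ∧ cut en T.2 ⊆ D ∪ D' ∧ ¬ (IsCut en (cut en T.1 ∩ D) ∨
        IsCut en (cut en T.2 ∩ D) ∨ IsCut en ((cut en T.1 ∆ cut en T.2) ∩ D)) := fun D' => by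
    by_cases h : Rho en D D' 2
    · exact ⟨(∅, ∅), fun h' => absurd h h'⟩
    · exact (bad h).imp fun _ a _ => a
  choose T hT using h
  rw [← card_powerset, ← card_product]
  refine card_le_card_of_injOn (fun D' => (cut en (T D').1 ∩ D, cut en (T D').2 ∩ D))
    (fun D' _ => ?_) fun D2 a D3 b e => ?_
  · exact mem_coe.2 (mem_product.2 ⟨mem_powerset.2 inter_subset_right,
      mem_powerset.2 inter_subset_right⟩)
  · rw [mem_coe, mem_filter] at a b
    by_contra hne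
    obtain ⟨a1, a2, a3⟩ := hT D2 a.2.2
    obtain ⟨b1, b2, -⟩ := hT D3 b.2.2
    exact a3 (h2 en D D2 D3 _ _ _ _ (hF _ hD) (hF _ a.1) (hF _ b.1) (hd _ hD _ a.1 a.2.1)
      (hd _ hD _ b.1 b.2.1) (hd _ a.1 _ b.1 hne) a1 a2 b1 b2 (congrArg Prod.fst e)
      (congrArg Prod.snd e))

end RowCA

open RowCA in
theorem row_ca (h1 : SM) (h2 : TT) : CA := by
  intro E _ _ en hc F g hF hd
  classical
  obtain ⟨k, hk⟩ : ∃ k : Finset E → Finset E → ℕ, ∀ D D',
      k D D' = if D ≠ D' ∧ ¬ Rho en D D' 2 then 2 ^ g else 2 := ⟨_, fun _ _ => rfl⟩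
  have h := h1 en hc F (fun _ => (1 / 2) ^ g) k (fun D hD => (hF D hD).1)
    (fun D hD => ⟨by positivity, pow_le_pow_of_le_one (by norm_num) (by norm_num) (hF D hD).2⟩)
    fun D hD D' _ hdis => by
      rw [hk]
      split_ifs with a
      · exact (rho_pow D D').mono (Nat.pow_le_pow_right (by norm_num) (hF D hD).2)
      · by_contra b
        refine a ⟨fun e => ?_, b⟩
        obtain ⟨x, hx⟩ := (hF D hD).1.2.1
        exact disjoint_left.1 (disjoint_of_vs hdis) hx (e ▸ hx)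
  have hs : ∀ D ∈ F, ∑ D' ∈ F, k D D' ≤ 2 * F.card + 8 ^ g := fun D hD => by
    have a1 := few h2 (fun D hD => (hF D hD).1) hd hD
    have a2 : 2 ^ D.card ≤ 2 ^ g := Nat.pow_le_pow_right (by norm_num) (hF D hD).2
    have a3 : (F.filter fun D' => ¬ (D ≠ D' ∧ ¬ Rho en D D' 2)).card ≤ F.card := card_filter_le _ _
    have a4 := Nat.mul_le_mul_right (2 ^ g) (a1.trans (Nat.mul_le_mul a2 a2))
    rw [← mul_pow, ← mul_pow, (by norm_num : 2 * 2 * 2 = 8)] at a4
    simp only [hk]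
    rw [sum_ite, sum_const, sum_const, smul_eq_mul, smul_eq_mul]
    omega
  have hs' : ∑ D ∈ F, ∑ D' ∈ F, ((1 / 2 : ℝ) ^ g * (1 / 2) ^ g * k D D') ≤
      F.card * ((1 / 2) ^ g * (1 / 2) ^ g * (2 * F.card + 8 ^ g)) := by
    rw [← nsmul_eq_mul]
    refine sum_le_card_nsmul _ _ _ fun D hD => ?_
    rw [← mul_sum]
    exact mul_le_mul_of_nonneg_left (by exact_mod_cast hs D hD) (by positivity)
  rw [sum_const, nsmul_eq_mul] at h
  have hH : (0 : ℝ) ≤ hit en F := Nat.cast_nonneg _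
  replace h := h.trans (mul_le_mul_of_nonneg_left (add_le_add_right hs' _) hH)
  rcases Nat.eq_zero_or_pos F.card with h0 | h0
  · rw [h0, Nat.cast_zero, zero_mul]
    positivity
  have hp : (0 : ℝ) < F.card * ((1 / 2) ^ g * (1 / 2) ^ g) := by positivity
  have e1 : (1 / 2 : ℝ) ^ g * 2 ^ g = 1 := by rw [← mul_pow]; norm_num
  have e2 : (2 : ℝ) ^ g ≤ 8 ^ g := pow_le_pow_left₀ (by norm_num) (by norm_num) g
  refine le_of_mul_le_mul_left ?_ hp
  have e3 : (F.card : ℝ) * (1 / 2) ^ g = F.card * ((1 / 2) ^ g * (1 / 2) ^ g) * 2 ^ g := by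
    rw [mul_assoc, mul_assoc, e1, mul_one]
  have e4 := mul_le_mul_of_nonneg_left (mul_le_mul_of_nonneg_left e2 hp.le) hH
  rw [← e3] at e4
  linarith

end Pool.Agent.MP_94842c_co.ES
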