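import Pool.Agent.MP_94842c_co.ES.Spec

/-! Row CB of project ES: the second moment bound in the large girth case. -/

set_option autoImplicit false

namespace Pool.Agent.MP_94842c_co.ES

open Finset

theorem row_cb (h1 : SM) (h2 : CT2) (h3 : CT3) (h4 : NEAR) (h5 : AW) : CB := by
  intro E _ _ en R S G x g u K l0 hz hn hg
  classical
  have hA := h5 en R S G x g u K l0 hz hn hg
  set F := fam en (G (2 * u)) (2 * (K * u)) with hF
  have hKu : 1 ≤ K * u := Nat.mul_pos hn.K1 hn.u1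
  let k : Finset E → Finset E → ℕ := fun D D' =>
    if Disjoint (vs en D) (vs en D') then 2 ^ (contact en D D' (2 * u)).card else 0
  have hs := h1 en R.cubic F (fun D => (1 / 2 : ℝ) ^ D.card) k (fun D hD => (mem_fam.1 hD).1)
    (fun D _ => ⟨by positivity, le_rfl⟩) (fun D hD D' hD' hd => by
      simp only [k, if_pos hd]
      refine h3 en R S G x g u (4 * (K * u)) D D' hz hn.u1 (by omega) (mem_fam.1 hD).2.2
        (by omega) ?_ hn.n7
      have a1 := (mem_fam.1 hD).2.1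
      have a2 := (mem_fam.1 hD').2.1
      have a3 := card_union_le D D'
      omega)
  have hk : ∀ D ∈ F, ∀ D' ∈ F, (k D D' : ℝ) ≤
      1 + if (contact en D D' (2 * u)).Nonempty then (2 : ℝ) ^ ((2 * K + 1) ^ 2) else 0 := by
    intro D hD D' hD'
    by_cases hd : Disjoint (vs en D) (vs en D')
    · simp only [k, if_pos hd]
      by_cases hc : (contact en D D' (2 * u)).Nonempty
      · rw [if_pos hc]
        have a1 := h2 en R S G x g u (2 * K) D D' hz hn.u1 (by omega)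
          (by rw [mul_assoc]; exact hD) (by rw [mul_assoc]; exact hD') hd
        have a2 : (2 : ℝ) ^ (contact en D D' (2 * u)).card ≤ 2 ^ ((2 * K + 1) ^ 2) :=
          pow_le_pow_right₀ one_le_two a1
        push_cast
        linarith
      · rw [if_neg hc, not_nonempty_iff_eq_empty.1 hc]
        simp
    · simp only [k, if_neg hd]
      split_ifs
      · simp only [Nat.cast_zero]; positivity
      · simp
  have hrow : ∀ D ∈ F, ∑ D' ∈ F, (1 / 2 : ℝ) ^ D'.card * k D D' ≤ wt F + 1 := by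
    intro D hD
    have a1 := h4 en R (G (2 * u)) g u (2 * (K * u)) D
      (hz.ns.mono (hz.anti' (Nat.zero_le _)) le_rfl) hg (mem_fam.1 hD).2.1
    have a2 : ∑ D' ∈ F, (1 / 2 : ℝ) ^ D'.card * k D D' ≤ ∑ D' ∈ F, ((1 / 2 : ℝ) ^ D'.card +
        2 ^ ((2 * K + 1) ^ 2) *
          if (contact en D D' (2 * u)).Nonempty then (1 / 2 : ℝ) ^ D'.card else 0) := by
      refine sum_le_sum fun D' hD' => ?_
      refine (mul_le_mul_of_nonneg_left (hk D hD D' hD') (by positivity)).trans (le_of_eq ?_)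
      split_ifs <;> ring
    rw [sum_add_distrib, ← mul_sum, ← sum_filter] at a2
    have a3 : (2 : ℝ) ^ ((2 * K + 1) ^ 2) * (24 * ((K : ℝ) * u) ^ 2) ≤ 2 ^ u := by
      exact_mod_cast hn.n8
    have a4 : (2 : ℝ) ^ ((2 * K + 1) ^ 2) * (6 * ((2 * (K * u) : ℕ) : ℝ) ^ 2 * (1 / 2) ^ u) ≤ 1 := by
      have a5 : (2 : ℝ) ^ u * (1 / 2) ^ u = 1 := by rw [← mul_pow]; simp
      have a6 : (0 : ℝ) ≤ (1 / 2) ^ u := by positivity
      generalize (2 : ℝ) ^ ((2 * K + 1) ^ 2) = c at a3 ⊢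
      push_cast
      calc c * (6 * (2 * ((K : ℝ) * u)) ^ 2 * (1 / 2) ^ u)
          = c * (24 * ((K : ℝ) * u) ^ 2) * (1 / 2) ^ u := by ring
        _ ≤ 2 ^ u * (1 / 2) ^ u := mul_le_mul_of_nonneg_right a3 a6
        _ = 1 := a5
    have a7 := mul_le_mul_of_nonneg_left a1 (by positivity : (0 : ℝ) ≤ 2 ^ ((2 * K + 1) ^ 2))
    unfold wt at a7 ⊢
    linarith
  have hsum : ∑ D ∈ F, ∑ D' ∈ F, (1 / 2 : ℝ) ^ D.card * (1 / 2 : ℝ) ^ D'.card * k D D' ≤
      wt F * (wt F + 1) := by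
    rw [wt, sum_mul]
    refine sum_le_sum fun D hD => ?_
    simp only [mul_assoc]
    rw [← mul_sum]
    exact mul_le_mul_of_nonneg_left (hrow D hD) (by positivity)
  have hw : ∑ D ∈ F, (1 / 2 : ℝ) ^ D.card = wt F := rfl
  rw [hw] at hs
  have hh : (0 : ℝ) ≤ hit en F := Nat.cast_nonneg _
  have b1 : wt F + wt F * (wt F + 1) ≤ 2 * wt F ^ 2 := by nlinarith
  have b2 : wt F ^ 2 * (Z en).card ≤ wt F ^ 2 * (2 * hit en F) := by
    calc wt F ^ 2 * (Z en).card ≤ hit en F * (2 * wt F ^ 2) :=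
          hs.trans (mul_le_mul_of_nonneg_left (by linarith) hh)
      _ = wt F ^ 2 * (2 * hit en F) := by ring
  have b3 := le_of_mul_le_mul_left b2 (by positivity)
  exact_mod_cast b3

end Pool.Agent.MP_94842c_co.ES
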