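import Pool.Agent.MP_94842c_co.ES.Spec

/-! Row CNT of project ES: counting even sets through a given even set by characters. -/

set_option autoImplicit false
set_option linter.unusedSectionVars false

namespace Pool.Agent.MP_94842c_co.ES

open Finset
open scoped symmDiff

namespace CNTx

variable {E : Type} [Fintype E] [DecidableEq E] {en : E × Bool → ℕ}

/-- The sign character. -/
def chi (X C : Finset E) : ℤ := ∏ e ∈ X, (if e ∈ C then (-1 : ℤ) else 1)

theorem chi_eq (X C : Finset E) : chi X C = (-1) ^ (X ∩ C).card := by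
  rw [chi, prod_ite, prod_const, prod_const, one_pow, mul_one, filter_mem_eq_inter]

theorem chi_symmDiff (X C C' : Finset E) : chi X (C ∆ C') = chi X C * chi X C' := by
  rw [chi, chi, chi, ← prod_mul_distrib]
  refine prod_congr rfl fun e _ => ?_
  by_cases h1 : e ∈ C <;> by_cases h2 : e ∈ C' <;> simp [mem_symmDiff, h1, h2]

theorem sum_inner (D C : Finset E) :
    ∑ X ∈ D.powerset, chi X C = if Disjoint D C then (2 : ℤ) ^ D.card else 0 := by
  unfold chi
  rw [← prod_one_add]
  split_ifs with h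
  · rw [← prod_const]
    refine prod_congr rfl fun e he => ?_
    rw [if_neg (disjoint_left.1 h he)]
    norm_num
  · obtain ⟨e, h1, h2⟩ := not_disjoint_iff.1 h
    exact prod_eq_zero h1 (by rw [if_pos h2]; norm_num)

theorem sum_shift {C0 : Finset E} (h0 : Ev en C0) (f : Finset E → ℤ) :
    ∑ C ∈ Z en, f (C ∆ C0) = ∑ C ∈ Z en, f C :=
  sum_bij' (fun C _ => C ∆ C0) (fun C _ => C ∆ C0)
    (fun _ h => mem_Z.2 ((mem_Z.1 h).symmDiff h0)) (fun _ h => mem_Z.2 ((mem_Z.1 h).symmDiff h0))
    (fun _ _ => symmDiff_symmDiff_cancel_right _ _) (fun _ _ => symmDiff_symmDiff_cancel_right _ _)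
    fun _ _ => rfl

open Classical in
theorem sum_outer (h : DUAL) (X : Finset E) :
    ∑ C ∈ Z en, chi X C = if IsCut en X then ((Z en).card : ℤ) else 0 := by
  split_ifs with hX
  · rw [card_eq_sum_ones, Nat.cast_sum]
    refine sum_congr rfl fun C hC => ?_
    rw [chi_eq, ((h en X).1 hX C (mem_Z.1 hC)).neg_one_pow, Nat.cast_one]
  · rw [h en X] at hX
    push Not at hX
    obtain ⟨C0, h0, h1⟩ := hX
    have h2 : chi X C0 = -1 := by rw [chi_eq, (Nat.not_even_iff_odd.1 h1).neg_one_pow]
    have h3 := sum_shift h0 (chi X)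
    simp only [chi_symmDiff, h2, mul_neg, mul_one, sum_neg_distrib] at h3
    omega

theorem card_disj {D : Finset E} (hD : Ev en D) :
    ((Z en).filter fun C => Disjoint D C).card = cnt en D := by
  unfold cnt
  refine card_bij' (fun C _ => C ∆ D) (fun C _ => C ∆ D) (fun C hC => ?_) (fun C hC => ?_)
    (fun _ _ => symmDiff_symmDiff_cancel_right _ _) fun _ _ => symmDiff_symmDiff_cancel_right _ _
  · rw [mem_filter, mem_Z] at hC ⊢
    refine ⟨hC.1.symmDiff hD, fun e he => ?_⟩
    rw [mem_symmDiff]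
    exact Or.inr ⟨he, disjoint_left.1 hC.2 he⟩
  · rw [mem_filter, mem_Z] at hC ⊢
    refine ⟨hC.1.symmDiff hD, disjoint_left.2 fun e he h' => ?_⟩
    rw [mem_symmDiff] at h'
    rcases h' with h' | h'
    exacts [h'.2 he, h'.2 (hC.2 he)]

end CNTx

theorem row_cnt (h : DUAL) : CNT := by
  intro E _ _ en D hD
  classical
  have h1 : ∑ C ∈ Z en, ∑ X ∈ D.powerset, CNTx.chi X C = (cnt en D : ℤ) * 2 ^ D.card := by
    simp only [CNTx.sum_inner]
    rw [← sum_filter, sum_const, CNTx.card_disj hD, nsmul_eq_mul]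
  have h2 : ∑ X ∈ D.powerset, ∑ C ∈ Z en, CNTx.chi X C = ((Z en).card : ℤ) * ncut en D := by
    simp only [CNTx.sum_outer h]
    rw [← sum_filter, sum_const, nsmul_eq_mul, mul_comm]
    rfl
  rw [sum_comm, h2] at h1
  exact_mod_cast h1.symm

end Pool.Agent.MP_94842c_co.ES
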