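import Pool.Agent.MP_94842c_co.ES.Spec

/-! Row COMP of project ES: subcubic multigraphs, component by component. -/

set_option autoImplicit false
set_option linter.unusedSectionVars false

namespace Pool.Agent.MP_94842c_co.ES

open Finset

namespace Comp

variable {E : Type} [Fintype E] [DecidableEq E] {en : E × Bool → ℕ}

/-- The restriction to the edges with property `p`. -/
def res (en : E × Bool → ℕ) (p : E → Prop) (d : {e // p e} × Bool) : ℕ := en (d.1.1, d.2)

theorem deg_res (p : E → Prop) [DecidablePred p] (X : Finset {e // p e}) (v : ℕ) :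
    deg (res en p) X v = deg en (X.map (Function.Embedding.subtype p)) v := by
  rw [deg_eq_sum, deg_eq_sum, sum_map]; rfl

theorem card_res (p : E → Prop) [DecidablePred p] :
    ((circs en).filter fun D => ∀ e ∈ D, p e).card ≤ (circs (res en p)).card := by
  refine le_trans (card_le_card fun D hD => ?_)
    (card_image_le (f := fun X => X.map (Function.Embedding.subtype p)))
  obtain ⟨h1, h2⟩ := mem_filter.1 hD
  obtain ⟨a, b, c⟩ := mem_circs.1 h1
  have e := subtype_map_of_mem h2
  refine mem_image.2 ⟨D.subtype p, mem_circs.2 ⟨fun v => ?_, ?_, fun Y y1 y2 y3 => ?_⟩, e⟩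
  · rw [deg_res, e]; exact a v
  · rwa [← e, map_nonempty] at b
  · refine map_injective (Function.Embedding.subtype p) ((c _ (fun v => ?_) ?_ ?_).trans e.symm)
    · rw [← deg_res]; exact y1 v
    · rw [← e]; exact map_subset_map.2 y2
    · exact map_nonempty.2 y3

/-- The bound of the induction. -/
noncomputable def psi (e C : ℝ) (m : ℕ) : ℝ :=
  (if 3 ≤ m then (1 + e) * 2 ^ (m / 3) else 0) + C * m

theorem psi_add {e : ℝ} (he : 0 ≤ e) (C : ℝ) (a b : ℕ) :
    psi e C a + psi e C b ≤ psi e C (a + b) := by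
  have h0 : ∀ x y : ℕ, x ≤ y → (1 + e) * 2 ^ x ≤ (1 + e) * 2 ^ y := fun x y h =>
    mul_le_mul_of_nonneg_left (pow_le_pow_right₀ one_le_two h) (by linarith)
  unfold psi
  push_cast
  by_cases ha : 3 ≤ a <;> by_cases hb : 3 ≤ b
  · rw [if_pos ha, if_pos hb, if_pos (by omega)]
    have h1 := h0 (a / 3 + 1) ((a + b) / 3) (by omega)
    have h2 := h0 (b / 3 + 1) ((a + b) / 3) (by omega)
    rw [pow_succ] at h1 h2
    linarith
  · rw [if_pos ha, if_neg hb, if_pos (by omega)]
    have := h0 (a / 3) ((a + b) / 3) (by omega)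
    linarith
  · rw [if_neg ha, if_pos hb, if_pos (by omega)]
    have := h0 (b / 3) ((a + b) / 3) (by omega)
    linarith
  · rw [if_neg ha, if_neg hb]
    split_ifs
    · have : 0 ≤ (1 + e) * 2 ^ ((a + b) / 3) := by positivity
      linarith
    · linarith

theorem conn (h2 : LIN4) (hd : ∀ v, deg en univ v ≤ 3) {v0 : ℕ} (h0 : v0 ∈ vs en univ)
    (h : ∀ v ∈ vs en univ, ∃ W j, Link en univ W j v0 v) :
    (Z en).card ≤ 2 * 2 ^ (Fintype.card E / 3) := by
  have h1 := h2 en ((vs en univ).erase v0) v0 (notMem_erase _ _) fun v hv => h v (mem_of_mem_erase hv)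
  have h3 : 2 * Fintype.card E ≤ (vs en univ).card * 3 := by
    rw [← card_univ, ← card_dartsOf]
    refine le_trans (card_le_card fun d hd => ?_) ((sum_deg (en := en) univ (vs en univ)).symm.trans_le
      (sum_le_card_nsmul _ _ 3 fun v _ => hd v))
    exact mem_filter.2 ⟨mem_univ _, mem_univ _, en_mem_vs (mem_univ _)⟩
  have h4 := card_erase_add_one h0
  refine Nat.le_of_mul_le_mul_right (h1.trans ?_) (Nat.two_pow_pos _)
  rw [← pow_succ', ← pow_add]
  exact Nat.pow_le_pow_right two_pos (by omega)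

theorem main (h2 : LIN4) {e C : ℝ} (he : 0 ≤ e) (hC : 4 ≤ C)
    (h1 : ∀ {E : Type} [Fintype E] [DecidableEq E] (en : E × Bool → ℕ), Bd (e / 2) C en) (n : ℕ) :
    ∀ {E : Type} [Fintype E] [DecidableEq E] (en : E × Bool → ℕ), Fintype.card E = n →
      (∀ v, deg en univ v ≤ 3) → ((circs en).card : ℝ) ≤ psi e C n := by
  induction n using Nat.strong_induction_on with
  | _ n ih =>
  intro E _ _ en hn hd
  classical
  rcases isEmpty_or_nonempty E with hE | ⟨⟨e0⟩⟩
  · have : circs en = ∅ := eq_empty_of_forall_notMem fun D hD => by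
      obtain ⟨x, -⟩ := (mem_circs.1 hD).2.1
      exact hE.elim x
    rw [this, ← hn, Fintype.card_eq_zero]
    simp [psi]
  set T := (vs en univ).filter fun v => ∃ W j, Link en univ W j (en (e0, true)) v with hT
  have cl : ∀ d, en d ∈ T → en (rev d) ∈ T := fun d h => by
    obtain ⟨-, W, j, l⟩ := mem_filter.1 h
    exact mem_filter.2 ⟨en_mem_vs (mem_univ _), W ∪ vs en univ, j + 1,
      (l.mono (Subset.refl _) subset_union_left le_rfl).trans (Link.step (mem_univ _)
        (mem_union_right _ (en_mem_vs (mem_univ _))) (mem_union_right _ (en_mem_vs (mem_univ _))))⟩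
  by_cases hp : ∀ x, en (x, true) ∈ T
  · have hn1 : (1 : ℝ) ≤ n := by
      rw [← hn]; exact_mod_cast Fintype.card_pos_iff.2 ⟨e0⟩
    unfold psi
    split_ifs with h3
    · have h4 := conn h2 hd (en_mem_vs (d := (e0, true)) (mem_univ _)) fun v hv => by
        obtain ⟨⟨x, b⟩, -, rfl⟩ := mem_vs.1 hv
        cases b
        exacts [(mem_filter.1 (cl _ (hp x))).2, (mem_filter.1 (hp x)).2]
      rw [hn] at h4
      have h5 : ((Z en).card : ℝ) ≤ 2 * 2 ^ (n / 3) := by exact_mod_cast h4
      have h6 := h1 en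
      unfold Bd at h6
      nlinarith [mul_le_mul_of_nonneg_left h5 (show 0 ≤ 1 / 2 + e / 2 by linarith)]
    · have h4 : (circs en).card ≤ 4 := by
        refine (card_le_univ _).trans ?_
        rw [Fintype.card_finset, hn]
        exact Nat.pow_le_pow_right two_pos (show n ≤ 2 by omega)
      have h5 : ((circs en).card : ℝ) ≤ 4 := by exact_mod_cast h4
      nlinarith
  · obtain ⟨x, hx⟩ := not_forall.1 hp
    have p0 : en (e0, true) ∈ T :=
      mem_filter.2 ⟨en_mem_vs (mem_univ _), ∅, 0, Link.refl _ _ _ _⟩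
    have l1 := Fintype.card_subtype_lt (p := fun x => en (x, true) ∈ T) hx
    have l2 := Fintype.card_subtype_lt (p := fun x => ¬ en (x, true) ∈ T) (not_not.2 p0)
    have l3 := Fintype.card_subtype_compl fun x => en (x, true) ∈ T
    have dg : ∀ (p : E → Prop) [DecidablePred p] v, deg (res en p) univ v ≤ 3 := fun p _ v =>
      (deg_res p _ v).trans_le ((deg_mono (subset_univ _) v).trans (hd v))
    have a1 := ih _ (hn ▸ l1) (res en _) rfl (dg _)
    have a2 := ih _ (hn ▸ l2) (res en _) rfl (dg _)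
    have hc : cut en T = ∅ := eq_empty_of_forall_notMem fun y hy =>
      mem_cut'.1 hy ⟨cl (y, true), cl (y, false)⟩
    have b : (circs en).card ≤ (circs (res en fun x => en (x, true) ∈ T)).card +
        (circs (res en fun x => ¬ en (x, true) ∈ T)).card := by
      refine le_trans (card_le_card fun D hD => ?_)
        ((card_union_le _ _).trans (add_le_add (card_res _) (card_res _)))
      rcases (mem_circs.1 hD).const (T := T) (by rw [hc]; exact disjoint_empty_left _) with h | h
      · exact mem_union_left _ (mem_filter.2 ⟨hD, fun y hy => h (en_mem_vs (d := (y, true)) hy)⟩)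
      · exact mem_union_right _ (mem_filter.2 ⟨hD, fun y hy =>
          disjoint_left.1 h (en_mem_vs (d := (y, true)) hy)⟩)
    have b' := (Nat.cast_le (α := ℝ)).2 b
    rw [Nat.cast_add] at b'
    refine b'.trans ((add_le_add a1 a2).trans ((psi_add he C _ _).trans_eq ?_))
    congr 1
    omega

theorem sq_le (k : ℕ) : k ^ 2 ≤ 2 * 2 ^ k := by
  induction k with
  | zero => simp
  | succ k ih =>
    have := @Nat.lt_two_pow_self k
    rw [pow_succ 2 k]
    nlinarith

end Comp

theorem row_comp (h1 : GEN) (h2 : LIN4) : COMP := by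
  intro ε hε
  obtain ⟨C0, hC⟩ := h1 (ε / 2 / 2) (by positivity)
  set C := max C0 4
  have c4 : 4 ≤ C := le_max_right _ _
  refine ⟨2 * C + 9 * C ^ 2 / ε, fun {E} _ _ en hd => ?_⟩
  have h := Comp.main h2 (e := ε / 2) (by positivity) c4
    (fun en => (hC en).trans (add_le_add le_rfl (le_max_left _ _))) _ en rfl hd
  generalize Fintype.card E = m at h ⊢
  have h3 : (m : ℝ) ≤ 3 * (m / 3 : ℕ) + 2 := by exact_mod_cast (by omega : m ≤ 3 * (m / 3) + 2)
  have h4 : ((m / 3 : ℕ) : ℝ) ^ 2 ≤ 2 * 2 ^ (m / 3) := by exact_mod_cast Comp.sq_le (m / 3)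
  have h5 : Comp.psi (ε / 2) C m ≤ (1 + ε / 2) * 2 ^ (m / 3) + C * m := by
    unfold Comp.psi
    split_ifs
    · exact le_rfl
    · exact add_le_add (by positivity) le_rfl
  generalize ((m / 3 : ℕ) : ℝ) = k at h3 h4
  have h6 : 3 * C * k ≤ ε / 4 * k ^ 2 + 9 * C ^ 2 / ε := by
    rw [← sub_nonneg, show ε / 4 * k ^ 2 + 9 * C ^ 2 / ε - 3 * C * k = (ε * k - 6 * C) ^ 2 / (4 * ε)
      by field_simp; ring]
    positivity
  nlinarith [mul_le_mul_of_nonneg_left h3 (show 0 ≤ C by linarith),
    mul_le_mul_of_nonneg_left h4 hε.le]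

end Pool.Agent.MP_94842c_co.ES
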