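import Pool.Agent.MP_94842c_co.ES.Spec

/-! Row CORE: the bound for cubic graphs. -/

set_option autoImplicit false

namespace Pool.Agent.MP_94842c_co.ES

open Finset

namespace RowCORE

theorem cube {s : ℕ} (h : 10 ≤ s) : s ^ 3 ≤ 2 ^ s := by
  induction s, h using Nat.le_induction with
  | base => norm_num
  | succ s h ih =>
    have h1 : 10 * s ^ 2 ≤ s ^ 3 := by rw [pow_succ' s 2]; exact Nat.mul_le_mul_right _ h
    have h2 : 10 * s ≤ s ^ 2 := by rw [sq]; exact Nat.mul_le_mul_right _ h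
    have h3 : (s + 1) ^ 3 = s ^ 3 + 3 * s ^ 2 + 3 * s + 1 := by ring
    rw [pow_succ 2]
    omega

theorem big {K c s : ℕ} (h : 4 * K + 2 * c + 10 ≤ s) : 2 * ((s + 2) * (K * s) + c) ≤ 2 ^ s := by
  refine le_trans ?_ (cube (by omega))
  have h1 : (s + 2) * (K * s) ≤ (2 * s) * (K * s) := Nat.mul_le_mul_right _ (by omega)
  have h2 : c * 1 ≤ c * (s * s) := Nat.mul_le_mul_left _ (Nat.mul_pos (by omega) (by omega))
  have h3 : (4 * K + 2 * c) * (s * s) ≤ s * (s * s) := Nat.mul_le_mul_right _ (by omega)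
  calc 2 * ((s + 2) * (K * s) + c) ≤ 2 * ((2 * s) * (K * s) + c * (s * s)) := by omega
    _ = (4 * K + 2 * c) * (s * s) := by ring
    _ ≤ s ^ 3 := h3.trans_eq (by ring)

theorem small {K c n m z : ℕ} (h : 2 ^ (4 * K + 2 * c + 10) ≤ n) (e : 2 * m = 3 * n)
    (hz : 2 ^ m ≤ z * 2 ^ n) : (m + 1) ^ (K * Nat.log 2 n) * 2 ^ c ≤ z := by
  have n0 : 0 < n := (Nat.two_pow_pos _).trans_le h
  have h1 := big (Nat.le_log_of_pow_le one_lt_two h)
  have h2 := Nat.pow_log_le_self 2 n0.ne'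
  have h3 := Nat.lt_pow_succ_log_self one_lt_two n
  have h4 : m + 1 ≤ 2 ^ (Nat.log 2 n + 2) := by
    rw [Nat.succ_eq_add_one] at h3
    rw [pow_succ 2 (Nat.log 2 n + 1)]
    omega
  refine Nat.le_of_mul_le_mul_right (le_trans ?_ hz) (Nat.two_pow_pos n)
  refine (Nat.mul_le_mul_right _ (Nat.mul_le_mul_right _ (Nat.pow_le_pow_left h4 _))).trans ?_
  rw [← pow_mul, ← pow_add, ← pow_add]
  exact Nat.pow_le_pow_right two_pos (by omega)

end RowCORE

open RowCORE in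
theorem row_core (h1 : HIT) (h2 : SMALL) (h3 : LIN3) : CORE := by
  intro ε hε
  obtain ⟨n1, K, hK⟩ := h1 (ε / 2) (half_pos hε)
  obtain ⟨c, hc⟩ := pow_unbounded_of_one_lt (2 / ε) (one_lt_two (α := ℝ))
  refine ⟨2 ^ (2 * (n1 + 2 ^ (4 * K + 2 * c + 10))), one_le_pow₀ one_le_two, fun {E} _ _ en hC => ?_⟩
  have e := hC.card_edges
  have z0 : (0 : ℝ) ≤ (Z en).card := Nat.cast_nonneg _
  by_cases hn : n1 + 2 ^ (4 * K + 2 * c + 10) ≤ (vs en univ).card
  · obtain ⟨F, hF, a1⟩ := hK en hC (le_of_add_le_left hn)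
    have a2 : ((circs en).card : ℝ) + hit en F ≤ (Z en).card +
        ((Fintype.card E + 1) ^ (K * Nat.log 2 (vs en univ).card) : ℕ) := by
      exact_mod_cast h2 en F _ hF
    have a3 : (((Fintype.card E + 1) ^ (K * Nat.log 2 (vs en univ).card) : ℕ) : ℝ) * 2 ^ c ≤
        (Z en).card := by exact_mod_cast small (le_of_add_le_right hn) e (h3 en)
    have a4 := mul_le_mul_of_nonneg_left a3 (half_pos hε).le
    have a5 := mul_le_mul_of_nonneg_left ((div_lt_iff₀ hε).1 hc).le (Nat.cast_nonneg (α := ℝ)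
      ((Fintype.card E + 1) ^ (K * Nat.log 2 (vs en univ).card)))
    have a6 : (0 : ℝ) ≤ 2 ^ (2 * (n1 + 2 ^ (4 * K + 2 * c + 10))) := by positivity
    unfold Bd
    linarith
  · have a1 : (circs en).card ≤ 2 ^ (2 * (n1 + 2 ^ (4 * K + 2 * c + 10))) :=
      (card_le_univ _).trans (Fintype.card_finset.le.trans
        (Nat.pow_le_pow_right two_pos (by omega)))
    exact le_add_of_nonneg_of_le (by positivity) (by exact_mod_cast a1)

end Pool.Agent.MP_94842c_co.ES
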