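import Pool.Agent.MP_94842c_co.ES.Spec

/-! Small sides without contact cut `D` along a cut (project ES). -/

set_option autoImplicit false

namespace Pool.Agent.MP_94842c_co.ES

open Finset

theorem row_ct1 (h1 : SHORT) (h2 : UNIQ) : CT1 := by
  intro E _ _ en R S G x g u D D' T hz hu hg hD hT hs hc
  set A : Finset E := univ \ (D ∪ D') with hA
  set P := vs en D ∩ T with hP
  have mA : ∀ d : E × Bool, d.1 ∈ A ↔ d.1 ∉ D ∧ d.1 ∉ D' := fun d => by simp [hA]
  have inT : ∀ j, reach en A P j ⊆ T := fun j => by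
    induction j with
    | zero => exact inter_subset_right
    | succ j ih =>
      intro y hy
      rcases mem_reach_succ.1 hy with h | ⟨d, a, b, rfl⟩
      · exact ih h
      · by_contra hn
        have := hT ((mem_cut d).2 fun e => hn (e.1 (ih b)))
        rw [mem_union] at this
        rw [mA] at a
        tauto
  have inG : ∀ j, j ≤ 2 * u → reach en A P j ⊆ G 0 := fun j hj =>
    (reach_mono hj).trans (hz.reach_sub (by rw [zero_add]; exact inter_subset_left.trans hD))
  have noD' : ∀ j, j ≤ 2 * u → ∀ y ∈ reach en A P j, y ∉ vs en D' := fun j hj y hy hy' => by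
    obtain ⟨z, hz', h⟩ := reach_source (reach_mono hj hy)
    rw [hP, mem_inter] at hz'
    exact disjoint_left.1 hc (mem_contact.2 ⟨hz'.1, y, hy', h⟩) hz'.2
  have onD : ∀ j y, y ∈ vs en D → (y ∈ reach en A P j ↔ y ∈ T) := fun j y hy =>
    ⟨fun h => inT j h, fun h => reach_mono j.zero_le (mem_inter.2 ⟨hy, h⟩)⟩
  obtain ⟨v, rfl⟩ : ∃ v, u = v + 1 := ⟨u - 1, by omega⟩
  rw [Nat.add_sub_cancel] at hs
  by_cases hR : reach en A P (v + 1) ⊆ reach en A P v
  · refine ⟨reach en A P v, Finset.ext fun e => ?_⟩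
    have key : ∀ d : E × Bool, en d ∈ reach en A P v → en (rev d) ∉ reach en A P v → d.1 ∈ D :=
      fun d a b => by
        by_contra hn
        exact b (hR (mem_reach_succ.2 (Or.inr ⟨d, (mA d).2
          ⟨hn, fun h => noD' v (by omega) _ a (en_mem_vs h)⟩, a, rfl⟩)))
    have hD : e ∈ D → (e ∈ cut en (reach en A P v) ↔ e ∈ cut en T) := fun h => by
      rw [mem_cut', mem_cut', onD v _ (en_mem_vs (d := (e, true)) h),
        onD v _ (en_mem_vs (d := (e, false)) h)]
    rw [mem_inter]
    refine ⟨fun h => ?_, fun h => (hD h.2).2 h.1⟩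
    have he : e ∈ D := by
      rw [mem_cut'] at h
      by_cases a : en (e, true) ∈ reach en A P v
      · exact key (e, true) a fun b => h (iff_of_true a b)
      · exact key (e, false) (by tauto) a
    exact ⟨(hD he).1 h, he⟩
  exfalso
  obtain ⟨z, z1, z2⟩ := not_subset.1 hR
  obtain ⟨d, -, -, rfl⟩ := (mem_reach_succ.1 z1).resolve_left z2
  have step : ∀ (b : Finset ℕ) k, k ≤ v → en (wk R (rev d, b) k) ∈ reach en A P (v + 1 + k) ∧
      en (wk R (rev d, b) k) ∉ reach en A P (v - k) := fun b k hk => by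
    induction k with
    | zero => exact ⟨z1, z2⟩
    | succ k ih =>
      obtain ⟨a, c⟩ := ih (by omega)
      have m : (wk R (rev d, b) k).1 ∈ A := (mA _).2
        ⟨fun h => c ((onD _ _ (en_mem_vs h)).2 (inT _ a)),
          fun h => noD' _ (by omega) _ a (en_mem_vs h)⟩
      rw [wk_ch R _ (k + 1) k k.lt_succ_self]
      refine ⟨mem_reach_succ.2 (Or.inr ⟨_, m, a, rfl⟩), fun h => c ?_⟩
      rw [show v - k = v - (k + 1) + 1 by omega]
      exact mem_reach_succ.2 (Or.inr ⟨rev _, m, h, by rw [rev_rev]⟩)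
  have ins : ∀ b : Finset ℕ, Ins en (wk R (rev d, b)) v (G 0) := fun b k hk =>
    inG _ (by omega) (step b k hk).1
  have sim : ∀ b : Finset ℕ, Simple en (wk R (rev d, b)) v := fun b =>
    h1 en _ g _ v hz.ns (wk_ch R _ _) (wk_nb R _ _) (ins b) (by omega)
  have cnt : (range v).powerset.card ≤ (darts en (S ∩ T)).card := by
    refine card_le_card_of_injOn (fun b => wk R (rev d, b) v) (fun b _ => ?_) fun b hb b' hb' e => ?_
    · exact mem_coe.2 (mem_darts.2 (mem_inter.2
        ⟨hz.sub0 (ins b v le_rfl), inT _ (step b v le_rfl).1⟩))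
    · rw [mem_coe, mem_powerset] at hb hb'
      have e' : wk R (rev d, b) v = wk R (rev d, b') v := e
      have := (h2 en _ g _ _ v v hz.ns (wk_ch R _ _) (wk_ch R _ _) (sim b) (sim b') (ins b) (ins b')
        (by omega) rfl (congrArg en e')).2
      exact congrArg Prod.snd (wk_ext R (w := (rev d, b)) (w' := (rev d, b'))
        (mem_walks.2 fun k hk => mem_range.1 (hb hk)) (mem_walks.2 fun k hk => mem_range.1 (hb' hk))
        fun k hk => hk.lt_or_eq.elim (this k) fun h => h ▸ e')
  rw [card_powerset, card_range] at cnt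
  have := R.cubic.card_darts_le (S ∩ T)
  omega

end Pool.Agent.MP_94842c_co.ES
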