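import Pool.Agent.MP_94842c_co.ES.Spec

/-! Project ES, row CT23: few contacts, few shared functionals. -/

set_option autoImplicit false

namespace Pool.Agent.MP_94842c_co.ES

open Finset
open scoped symmDiff

theorem row_ct2 (h : ARCS) : CT2 := by
  intro E _ _ en R S G x g u K D D' hz hu hg hD hD' hdis
  obtain ⟨c1, n1, s1⟩ := mem_fam.1 hD
  obtain ⟨c2, n2, s2⟩ := mem_fam.1 hD'
  obtain ⟨α, a1, a2⟩ := h en R D u c1 hu
  obtain ⟨β, b1, b2⟩ := h en R D' u c2 hu
  have q1 : D.card / u ≤ K := Nat.div_le_of_le_mul (by rwa [mul_comm])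
  have q2 : D'.card / u ≤ K := Nat.div_le_of_le_mul (by rwa [mul_comm])
  have ex : ∀ v ∈ contact en D D' (2 * u), ∃ y, y ∈ vs en D' ∧
      y ∈ reach en (univ \ (D ∪ D')) {v} (2 * u) := fun v hv => (mem_contact.1 hv).2
  choose! y y1 y2 using ex
  have g0 : G (2 * u) ⊆ G 0 := hz.anti' (Nat.zero_le _)
  have l1 : ∀ v ∈ contact en D D' (2 * u), Link en (univ \ D) (G 0) (2 * u) v (y v) := fun v hv =>
    (reach_link (y2 v hv)).mono (sdiff_subset_sdiff (Subset.refl _) subset_union_left)
      (hz.reach_sub (by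
        rw [zero_add]; exact singleton_subset_iff.2 (s1 (mem_contact.1 hv).1))) le_rfl
  rw [show (K + 1) ^ 2 = (range (K + 1) ×ˢ range (K + 1)).card by
    rw [card_product, card_range, sq]]
  refine card_le_card_of_injOn (fun v => (α v, β (y v))) (fun v _ => ?_) fun v hv w hw e => ?_
  · have := a1 v
    have := b1 (y v)
    simp only [coe_product, coe_range, Set.mem_prod, Set.mem_Iio]
    omega
  obtain ⟨e1, e2⟩ := Prod.mk.inj e
  have l2 : Link en (univ \ D) (G 0) u (y v) (y w) :=
    (b2 _ (y1 v hv) _ (y1 w hw) e2).mono (fun a ha => mem_sdiff.2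
      ⟨mem_univ _, fun k => disjoint_left.1 (disjoint_of_vs hdis) k ha⟩) (s2.trans g0) le_rfl
  obtain ⟨X, x1, x2, x3, x4⟩ := ((l1 v hv).trans l2).trans (l1 w hw).symm
  obtain ⟨Y, z1, z2, z3, z4⟩ := a2 v (mem_contact.1 hv).1 w (mem_contact.1 hw).1 e1
  have ev : Ev en (X ∆ Y) := fun t => by
    have k1 := deg_symmDiff (en := en) X Y t
    have k2 := x4 t
    have k3 := z4 t
    rw [Nat.even_iff] at *
    omega
  have e0 : X = Y := symmDiff_eq_empty.1 (hz.ns _ ev
    ((card_le_card (symmDiff_sub X Y)).trans ((card_union_le _ _).trans (by omega)))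
    ((vs_mono (symmDiff_sub X Y)).trans (by
      rw [vs_union]; exact union_subset x3 (z3.trans (s1.trans g0)))))
  have y0 : Y = ∅ := eq_empty_of_forall_notMem fun a ha =>
    (mem_sdiff.1 (x1 (e0 ▸ ha))).2 (z1 ha)
  have k := z4 v
  rw [y0, deg_empty, if_pos rfl] at k
  by_contra ne
  rw [if_neg ne] at k
  exact absurd k (by decide)

theorem row_ct3 (h : CT1) : CT3 := by
  intro E _ _ en R S G x g u p D D' hz hu hg hD hp hc hb
  obtain ⟨nm, hn⟩ : ∃ nm : Finset ℕ → Finset ℕ, ∀ T, nm T =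
      if (S ∩ T).card < 16 * p ^ 2 then T else vs en univ \ T := ⟨_, fun _ => rfl⟩
  have n1 : ∀ T, cut en (nm T) = cut en T := fun T => by
    rw [hn]
    split_ifs
    exacts [rfl, cut_compl T]
  have n2 : ∀ T, cut en T ⊆ D ∪ D' → (S ∩ nm T).card < 16 * p ^ 2 := fun T k => by
    rw [hn]
    split_ifs with c
    · exact c
    · refine lt_of_le_of_lt (card_le_card fun a ha => ?_)
        ((hz.big T p hp ((card_le_card k).trans hc)).resolve_left c)
      simp only [mem_inter, mem_sdiff] at ha ⊢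
      exact ⟨ha.1, ha.2.2⟩
  rw [← card_powerset]
  refine Rho.of_finset _ (fun T => nm T ∩ contact en D D' (2 * u))
    (fun T => mem_powerset.2 inter_subset_right) fun T T' k k' e => ?_
  have e1 : cut en (nm T ∆ nm T') = cut en T ∆ cut en T' := by rw [cut_symmDiff, n1, n1]
  rw [← e1]
  refine h en R S G x g u D D' _ hz hu hg hD
    (e1 ▸ (symmDiff_sub _ _).trans (union_subset k k')) ?_ (disjoint_left.2 fun a ha hb => ?_)
  · have c : (S ∩ nm T ∆ nm T').card ≤ (S ∩ nm T).card + (S ∩ nm T').card := by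
      refine le_trans (card_le_card fun a ha => ?_) (card_union_le _ _)
      simp only [mem_inter, mem_union, mem_symmDiff] at ha ⊢
      tauto
    have := n2 T k
    have := n2 T' k'
    omega
  · have := Finset.ext_iff.1 e a
    simp only [mem_inter, mem_symmDiff] at this hb
    tauto

end Pool.Agent.MP_94842c_co.ES
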