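import Pool.Agent.MP_94842c_co.ES.Spec

/-! Row DUAL: cuts are the orthogonal complement of the cycle space. -/

set_option autoImplicit false

namespace Pool.Agent.MP_94842c_co.ES

open Finset
open scoped symmDiff

namespace RowDual

variable {E : Type} [Fintype E] [DecidableEq E]

/-- `Y` has boundary `a + b`. -/
def Bdy (en : E × Bool → ℕ) (Y : Finset E) (a b : ℕ) : Prop :=
  ∀ v, Even (deg en Y v + (if v = a then 1 else 0) + (if v = b then 1 else 0))

omit [Fintype E] in
theorem card_inter_symmDiff (X Y Y' : Finset E) :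
    (X ∩ (Y ∆ Y')).card + 2 * (X ∩ (Y ∩ Y')).card = (X ∩ Y).card + (X ∩ Y').card := by
  have h : ∀ W : Finset E, (X ∩ W).card = ∑ e ∈ X, if e ∈ W then 1 else 0 := fun W => by
    rw [← card_filter, filter_mem_eq_inter]
  simp only [h, mul_sum, ← sum_add_distrib]
  refine sum_congr rfl fun e _ => ?_
  by_cases h1 : e ∈ Y <;> by_cases h2 : e ∈ Y' <;> simp [mem_symmDiff, h1, h2]

theorem cut_even (en : E × Bool → ℕ) (T : Finset ℕ) (C : Finset E) (hC : Ev en C) :
    Even (cut en T ∩ C).card := by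
  have h1 : Even (∑ v ∈ T, deg en C v) := even_sum _ fun v _ => hC v
  have h2 : ∑ v ∈ T, deg en C v = ∑ e ∈ C, ((if en (e, true) ∈ T then 1 else 0) +
      (if en (e, false) ∈ T then 1 else 0)) := by
    simp only [deg_eq_sum]
    rw [sum_comm]
    refine sum_congr rfl fun e _ => ?_
    rw [sum_add_distrib, sum_ite_eq, sum_ite_eq]
  have h3 : (cut en T ∩ C).card = ∑ e ∈ C, if e ∈ cut en T then 1 else 0 := by
    rw [← card_filter, filter_mem_eq_inter, inter_comm]
  have h4 : ∑ e ∈ C, ((if en (e, true) ∈ T then 1 else 0) + (if en (e, false) ∈ T then 1 else 0)) =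
      (∑ e ∈ C, if e ∈ cut en T then 1 else 0) +
        2 * ∑ e ∈ C, if en (e, true) ∈ T ∧ en (e, false) ∈ T then 1 else 0 := by
    rw [mul_sum, ← sum_add_distrib]
    refine sum_congr rfl fun e _ => ?_
    by_cases k1 : en (e, true) ∈ T <;> by_cases k2 : en (e, false) ∈ T <;>
      simp [mem_cut', k1, k2]
  rw [h2, h4, ← h3] at h1
  rw [Nat.even_add] at h1
  exact h1.2 (even_two_mul _)

theorem bdy_refl (en : E × Bool → ℕ) (a : ℕ) : Bdy en (∅ : Finset E) a a := fun v => by
  rw [deg_empty, zero_add]; exact ⟨_, rfl⟩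

theorem bdy_step (en : E × Bool → ℕ) {Y : Finset E} {r : ℕ} (d : E × Bool)
    (h : Bdy en Y r (en d)) : Bdy en (Y ∆ {d.1}) r (en (rev d)) := fun v => by
  have h1 := deg_symmDiff (en := en) Y {d.1} v
  have h2 := deg_single (en := en) d v
  have h3 := h v
  rw [Nat.even_iff] at h3 ⊢
  omega

theorem bdy_ev (en : E × Bool → ℕ) {Y Y' : Finset E} {a b : ℕ} (h : Bdy en Y a b)
    (h' : Bdy en Y' a b) : Ev en (Y ∆ Y') := fun v => by
  have h1 := deg_symmDiff (en := en) Y Y' v
  have h3 := h v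
  have h4 := h' v
  rw [Nat.even_iff] at h3 h4 ⊢
  omega

end RowDual

open RowDual in
theorem row_dual : DUAL := by
  intro E _ _ en X
  classical
  constructor
  · rintro ⟨T, rfl⟩ C hC
    exact cut_even en T C hC
  · intro hX
    have ex : ∀ v, ∃ u, ∃ Y : Finset E, Bdy en Y u v := fun v => ⟨v, ∅, bdy_refl en v⟩
    have hroot : ∀ d : E × Bool, Nat.find (ex (en (rev d))) ≤ Nat.find (ex (en d)) := fun d => by
      obtain ⟨Y, hY⟩ := Nat.find_spec (ex (en d))
      exact Nat.find_min' _ ⟨_, bdy_step en d hY⟩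
    have hroot' : ∀ d : E × Bool, Nat.find (ex (en (rev d))) = Nat.find (ex (en d)) := fun d => by
      have h1 := hroot (rev d)
      rw [rev_rev] at h1
      exact le_antisymm (hroot d) h1
    have hpar : ∀ (Y Y' : Finset E) (a b : ℕ), Bdy en Y a b → Bdy en Y' a b →
        (X ∩ Y).card % 2 = (X ∩ Y').card % 2 := fun Y Y' a b h h' => by
      have h1 := hX _ (bdy_ev en h h')
      have h2 := card_inter_symmDiff X Y Y'
      rw [Nat.even_iff] at h1
      omega
    refine ⟨(vs en univ).filter fun v =>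
      ∃ Y : Finset E, Bdy en Y (Nat.find (ex v)) v ∧ (X ∩ Y).card % 2 = 1, ?_⟩
    ext e
    obtain ⟨Y, hY⟩ := Nat.find_spec (ex (en (e, true)))
    have hY' : Bdy en (Y ∆ {e}) (Nat.find (ex (en (e, false)))) (en (e, false)) := by
      have h1 := bdy_step en (e, true) hY
      have h2 := hroot' (e, true)
      have h3 : rev (e, true) = (e, false) := rfl
      rw [h3] at h1 h2
      rw [h2]; exact h1
    have m1 : en (e, true) ∈ vs en univ := en_mem_vs (mem_univ _)
    have m2 : en (e, false) ∈ vs en univ := en_mem_vs (mem_univ _)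
    have k1 : (∃ W : Finset E, Bdy en W (Nat.find (ex (en (e, true)))) (en (e, true)) ∧
        (X ∩ W).card % 2 = 1) ↔ (X ∩ Y).card % 2 = 1 :=
      ⟨fun ⟨W, h1, h2⟩ => by rw [← hpar W Y _ _ h1 hY]; exact h2, fun h => ⟨Y, hY, h⟩⟩
    have k2 : (∃ W : Finset E, Bdy en W (Nat.find (ex (en (e, false)))) (en (e, false)) ∧
        (X ∩ W).card % 2 = 1) ↔ (X ∩ (Y ∆ {e})).card % 2 = 1 :=
      ⟨fun ⟨W, h1, h2⟩ => by rw [← hpar W _ _ _ h1 hY']; exact h2, fun h => ⟨_, hY', h⟩⟩
    have k3 := card_inter_symmDiff X Y {e}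
    have k4 : (X ∩ {e}).card = if e ∈ X then 1 else 0 := by
      by_cases he : e ∈ X
      · rw [if_pos he, inter_singleton_of_mem he, card_singleton]
      · rw [if_neg he, inter_singleton_of_notMem he, card_empty]
    rw [mem_cut', mem_filter, mem_filter, k1, k2]
    by_cases he : e ∈ X
    · rw [if_pos he] at k4
      simp only [m1, m2, true_and, he, iff_true]
      omega
    · rw [if_neg he] at k4
      simp only [m1, m2, true_and, he, iff_false, not_not]
      omega

end Pool.Agent.MP_94842c_co.ES
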