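import Pool.Agent.MP_94842c_co.ES.Spec

/-! Row GOODW of project ES: most walks that start in the zone are good. -/

set_option autoImplicit false
set_option linter.unusedSectionVars false

namespace Pool.Agent.MP_94842c_co.ES

open Finset

theorem row_goodw (h : GW2) : GOODW := by
  intro E _ _ en R S G x g u l hz hu hg h1 h2
  classical
  have hc := R.cubic
  set Ex := (range (l + 1)).biUnion fun k => (darts en (S \ G (2 * u))).biUnion fun c =>
    (walks E l).filter fun w => wk R w k = c
  set Rp := (darts en S).biUnion fun d => (walks E l).filter fun w =>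
    w.1 = d ∧ Ins en (wk R w) l (G (2 * u)) ∧ ¬ Simple en (wk R w) l
  have sub : darts en S ×ˢ (range l).powerset ⊆ good R (G (2 * u)) l ∪ (Ex ∪ Rp) := by
    intro w hw
    obtain ⟨a, b⟩ := mem_product.1 hw
    have hw' : w ∈ walks E l := mem_product.2 ⟨mem_univ _, b⟩
    by_cases hi : Ins en (wk R w) l (G (2 * u))
    · by_cases hs : Simple en (wk R w) l
      · exact mem_union_left _ (mem_good.2 ⟨hw', hi, hs⟩)
      · exact mem_union_right _ (mem_union_right _
          (mem_biUnion.2 ⟨_, a, mem_filter.2 ⟨hw', rfl, hi, hs⟩⟩))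
    · have ex : ∃ k, k ≤ l ∧ en (wk R w k) ∉ G (2 * u) := by
        by_contra hn
        exact hi fun k hk => by_contra fun h' => hn ⟨k, hk, h'⟩
      obtain ⟨k1, k2⟩ := Nat.find_spec ex
      have k3 := fun m => @Nat.find_min _ _ ex m
      generalize Nat.find ex = k at k1 k2 k3
      refine mem_union_right _ (mem_union_left _ (mem_biUnion.2 ⟨k, mem_range.2 (by omega),
        mem_biUnion.2 ⟨_, mem_darts.2 (mem_sdiff.2 ⟨?_, k2⟩), mem_filter.2 ⟨hw', rfl⟩⟩⟩))
      cases k with
      | zero => exact mem_darts.1 a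
      | succ j =>
        have h3 : en (wk R w j) ∈ G (2 * u - 1 + 1) := by
          rw [show 2 * u - 1 + 1 = 2 * u by omega]
          exact by_contra fun h' => k3 j j.lt_succ_self ⟨by omega, h'⟩
        rw [wk_ch R w (j + 1) j j.lt_succ_self]
        exact hz.sub0 (hz.anti' (Nat.zero_le _) (hz.nbr _ _ h3))
  have c0 := (card_le_card sub).trans
    ((card_union_le _ _).trans (add_le_add le_rfl (card_union_le _ _)))
  rw [card_product, card_powerset, card_range, hc.card_darts_eq hz.subV] at c0
  have c1 : Ex.card ≤ (l + 1) * (3 * (16 ^ u * x) * 2 ^ l) := by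
    refine (card_biUnion_le_card_mul _ _ _ fun k _ => ?_).trans_eq (by rw [card_range])
    refine (card_biUnion_le_card_mul _ _ _ fun c _ => card_at R c).trans
      (Nat.mul_le_mul_right _ ((hc.card_darts_le _).trans (Nat.mul_le_mul_left _ ?_)))
    have := hz.few (2 * u)
    rwa [pow_mul] at this
  have c2 : 16 * (l + 1) * 16 ^ u * x ≤ S.card := by
    have h3 := Nat.mul_le_mul h1 hz.sq
    rw [← mul_pow, ← sq] at h3
    exact (Nat.pow_le_pow_iff_left two_ne_zero).1 h3
  have c3 : 16 * Ex.card ≤ 3 * S.card * 2 ^ l :=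
    calc 16 * Ex.card ≤ 16 * ((l + 1) * (3 * (16 ^ u * x) * 2 ^ l)) := Nat.mul_le_mul_left _ c1
      _ = 3 * (16 * (l + 1) * 16 ^ u * x) * 2 ^ l := by ring
      _ ≤ _ := Nat.mul_le_mul_right _ (Nat.mul_le_mul_left _ c2)
  have c4 : 16 * Rp.card ≤ 3 * S.card * 2 ^ l := by
    refine (Nat.mul_le_mul_left _ card_biUnion_le).trans ?_
    rw [mul_sum, ← hc.card_darts_eq hz.subV]
    refine sum_le_card_nsmul _ _ _ fun d _ => ?_
    have h3 := h en R (G (2 * u)) g (5 * u) l d _ (hz.ns.mono (hz.anti' (Nat.zero_le _)) le_rfl)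
      (by omega) (by omega) (filter_subset _ _) fun w hw => (mem_filter.1 hw).2
    refine Nat.le_of_mul_le_mul_left ?_ (show 0 < 2 * (l + 1) ^ 2 by positivity)
    refine le_trans (le_of_eq (by ring)) ((Nat.mul_le_mul_right _ h2).trans h3)
  omega

end Pool.Agent.MP_94842c_co.ES
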