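import Pool.Agent.MP_94842c_co.ES.Spec

/-! Row GW2: walks that repeat a vertex are rare. -/

set_option autoImplicit false

namespace Pool.Agent.MP_94842c_co.ES

open Finset

namespace GW2R

variable {E : Type} [Fintype E] [DecidableEq E] {en : E × Bool → ℕ}

theorem far (h1 : SHORT) (R : Cub en) {G : Finset ℕ} {g l j k : ℕ} (hns : NS en G g)
    {w : (E × Bool) × Finset ℕ} (hw : Ins en (wk R w) l G) (hjk : j < k) (hk : k ≤ l)
    (e : en (wk R w j) = en (wk R w k)) : j + g < k := by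
  by_contra hn
  have hs : j + (k - j) ≤ l := by omega
  have := h1 en G g _ (k - j) hns ((wk_ch R w l).shift hs) ((wk_nb R w l).shift hs) (hw.shift hs)
    (by omega) 0 (k - j) (Nat.zero_le _) le_rfl (by
      show en (wk R w (j + 0)) = en (wk R w (j + (k - j)))
      rw [Nat.add_zero, Nat.add_sub_cancel' hjk.le]; exact e)
  omega

theorem key (h1 : SHORT) (h2 : UNIQ) (R : Cub en) {G : Finset ℕ} {g γ l j k : ℕ} {d : E × Bool}
    {P : Finset ((E × Bool) × Finset ℕ)} (hns : NS en G g) (hγ : 1 ≤ γ) (hg : 2 * γ ≤ g)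
    (hP : P ⊆ walks E l) (hjk : j < k) (hk : k ≤ l)
    (h : ∀ w ∈ P, w.1 = d ∧ Ins en (wk R w) l G ∧ en (wk R w j) = en (wk R w k)) :
    2 ^ γ * P.card ≤ 2 * 2 ^ l := by
  rcases P.eq_empty_or_nonempty with rfl | ⟨w0, hw0⟩
  · simp
  have hf := far h1 R hns (h w0 hw0).2.1 hjk hk (h w0 hw0).2.2
  have hs : k - γ + γ ≤ l := by omega
  have hc : P.card ≤ 2 ^ (l - (k - 1 - (k - γ))) := by
    refine card_le_of_bits (by omega) hP fun w hw w' hw' hb => ?_
    obtain ⟨a1, a2, a3⟩ := h w hw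
    obtain ⟨b1, b2, b3⟩ := h w' hw'
    have h0 : ∀ m, m ≤ k - γ → wk R w m = wk R w' m := fun m hm =>
      wk_fwd R (Nat.zero_le m) (a1.trans b1.symm) fun t _ ht => hb t (Or.inl (by omega))
    have sh : ∀ v : (E × Bool) × Finset ℕ, Ins en (wk R v) l G →
        Simple en (fun t => wk R v (k - γ + t)) γ := fun v hv =>
      h1 en G g _ γ hns ((wk_ch R v l).shift hs) ((wk_nb R v l).shift hs) (hv.shift hs) (by omega)
    have hu := (h2 en G g _ _ γ γ hns ((wk_ch R w l).shift hs) ((wk_ch R w' l).shift hs) (sh w a2)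
      (sh w' b2) (a2.shift hs) (b2.shift hs) (by omega) (congrArg en (h0 _ le_rfl)) (by
        show en (wk R w (k - γ + γ)) = en (wk R w' (k - γ + γ))
        rw [Nat.sub_add_cancel (by omega), ← a3, ← b3, h0 j (by omega)])).2
    have h3 : ∀ m, k - γ ≤ m → m < k → wk R w m = wk R w' m := fun m m1 m2 => by
      have := hu (m - (k - γ)) (by omega)
      simpa only [Nat.add_sub_cancel' m1] using this
    refine Prod.ext (a1.trans b1.symm) (Finset.ext fun m => ?_)
    by_cases hm : m < k - γ ∨ k - 1 ≤ m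
    · exact hb m hm
    · exact wk_bit R (h3 m (by omega) (by omega)) (h3 (m + 1) (by omega) (by omega))
  refine (Nat.mul_le_mul_left _ hc).trans_eq ?_
  rw [← pow_add, ← pow_succ']
  exact congrArg _ (by omega)

end GW2R

theorem row_gw2 (h1 : SHORT) (h2 : UNIQ) : GW2 := by
  intro E _ _ en R G g γ l d P hns hγ hg hP h
  have cover : P ⊆ (range (l + 1) ×ˢ range (l + 1)).biUnion fun q =>
      P.filter fun w => q.1 < q.2 ∧ en (wk R w q.1) = en (wk R w q.2) := fun w hw => by
    have h3 := (h w hw).2.2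
    simp only [Simple, not_forall] at h3
    obtain ⟨j, k, hj, hk, e, hne⟩ := h3
    rcases Nat.lt_or_gt_of_ne hne with a | a
    · exact mem_biUnion.2 ⟨(j, k), by simp; omega, mem_filter.2 ⟨hw, a, e⟩⟩
    · exact mem_biUnion.2 ⟨(k, j), by simp; omega, mem_filter.2 ⟨hw, a, e.symm⟩⟩
  refine (Nat.mul_le_mul_left _ ((card_le_card cover).trans card_biUnion_le)).trans ?_
  rw [mul_sum]
  refine (sum_le_card_nsmul _ _ (2 * 2 ^ l) fun q hq => ?_).trans_eq (by simp; ring)
  by_cases a : q.1 < q.2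
  · have hk : q.2 ≤ l := Nat.lt_succ_iff.1 (mem_range.1 (mem_product.1 hq).2)
    exact GW2R.key h1 h2 R hns hγ hg ((filter_subset _ _).trans hP) a hk fun w hw =>
      ⟨(h w (mem_filter.1 hw).1).1, (h w (mem_filter.1 hw).1).2.1, (mem_filter.1 hw).2.2⟩
  · simp [a]

end Pool.Agent.MP_94842c_co.ES
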