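import Pool.Agent.MP_94842c_co.ES.Spec

/-! Row HIT of project ES: about half of the even sets contain a short circuit. -/

set_option autoImplicit false
set_option linter.unusedSectionVars false

namespace Pool.Agent.MP_94842c_co.ES

open Finset

namespace Hit

theorem sq_le {g : ℕ} (h : 4 ≤ g) : g * g ≤ 2 ^ g := by
  induction h with
  | refl => norm_num
  | @step g hg ih =>
    have hg' : 4 ≤ g := hg
    rw [Nat.succ_eq_add_one, pow_succ]
    nlinarith

theorem small {c g z f : ℕ} (h4 : 4 ≤ g) (hc : 6 * c < g) (hz : z ≤ f * (2 * g))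
    (hf : f < c * 8 ^ g) : (3 * z) ^ 2 < 2 ^ (8 * g) := by
  have h1 : 6 * c * g < 2 ^ g :=
    lt_of_lt_of_le (Nat.mul_lt_mul_of_pos_right hc (by omega)) (sq_le h4)
  have h2 : 3 * z ≤ 6 * c * g * 8 ^ g := by
    have := Nat.mul_le_mul_right (2 * g) hf.le
    nlinarith
  have h3 : 6 * c * g * 8 ^ g < 2 ^ g * 8 ^ g := Nat.mul_lt_mul_of_pos_right h1 (by positivity)
  have e : 2 ^ (8 * g) = (2 ^ g * 8 ^ g) ^ 2 := by
    rw [← mul_pow, ← pow_mul, pow_mul, mul_comm g 2, pow_mul]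
    norm_num
  rw [e]
  exact Nat.pow_lt_pow_left (h2.trans_lt h3) two_ne_zero

theorem many {ε f a z h m : ℝ} (hε : 0 < ε) (hm : 1 ≤ ε * m) (ha : 0 < a) (hf : m * a ≤ f)
    (hz : 0 ≤ z) (hh : 0 ≤ h) (H : f * z ≤ (2 * f + 2 * a) * h) : (1 / 2 - ε) * z ≤ h := by
  have h1 : a ≤ ε * f := by nlinarith [mul_le_mul_of_nonneg_left hf hε.le]
  have h0 : 0 < f := (mul_pos_iff_of_pos_left hε).1 (ha.trans_le h1)
  have h2 : f * z ≤ f * ((2 + 2 * ε) * h) := by nlinarith [mul_le_mul_of_nonneg_right h1 hh]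
  have h3 : z ≤ (2 + 2 * ε) * h := le_of_mul_le_mul_left h2 h0
  rcases le_total (1 / 2 - ε) 0 with h4 | h4
  · exact (mul_nonpos_of_nonpos_of_nonneg h4 hz).trans hh
  · nlinarith [mul_le_mul_of_nonneg_left h3 h4, mul_nonneg hε.le hh,
      mul_nonneg hε.le (mul_nonneg hε.le hh)]

variable {E : Type} [Fintype E] [DecidableEq E] (en : E × Bool → ℕ)

/-- A maximal family of disjoint short circuits. -/
theorem maximal (g : ℕ) : ∃ F : Finset (Finset E), (∀ D ∈ F, Circ en D ∧ D.card ≤ g) ∧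
    (∀ D ∈ F, ∀ D' ∈ F, D ≠ D' → Disjoint (vs en D) (vs en D')) ∧
    NS en (vs en univ \ F.biUnion (vs en)) g := by
  classical
  obtain ⟨F, hF, hm⟩ := exists_max_image ((univ : Finset (Finset (Finset E))).filter fun F =>
    (∀ D ∈ F, Circ en D ∧ D.card ≤ g) ∧
      ∀ D ∈ F, ∀ D' ∈ F, D ≠ D' → Disjoint (vs en D) (vs en D')) card ⟨∅, by simp⟩
  obtain ⟨-, h1, h2⟩ := mem_filter.1 hF
  refine ⟨F, h1, h2, fun X hX hg hv => by_contra fun hne => ?_⟩
  obtain ⟨D, hD, hc⟩ := hX.exists_circ (nonempty_iff_ne_empty.2 hne)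
  have hd : ∀ D' ∈ F, Disjoint (vs en D) (vs en D') := fun D' hD' =>
    disjoint_left.2 fun v a b =>
      (mem_sdiff.1 (hv (vs_mono hD a))).2 (mem_biUnion.2 ⟨D', hD', b⟩)
  have hn : D ∉ F := fun h => by
    obtain ⟨e, he⟩ := hc.2.1
    exact disjoint_left.1 (disjoint_of_vs (hd D h)) he he
  have := hm (insert D F) (mem_filter.2 ⟨mem_univ _, fun A hA => ?_, fun A hA B hB hAB => ?_⟩)
  · rw [card_insert_of_notMem hn] at this
    omega
  · rcases mem_insert.1 hA with rfl | hA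
    exacts [⟨hc, (card_le_card hD).trans hg⟩, h1 A hA]
  · rcases mem_insert.1 hA with rfl | a <;> rcases mem_insert.1 hB with rfl | b
    exacts [absurd rfl hAB, hd B b, (hd A a).symm, h2 A a B b hAB]

end Hit

open Hit in
theorem row_hit (h1 : ROT) (h2 : CA) (h3 : LOOSE) (h4 : NUM) (h5 : CB) : HIT := by
  intro ε hε
  obtain ⟨n0, K, hK⟩ := h4
  obtain ⟨M, hM⟩ := exists_nat_ge (1 / ε)
  have hm : 1 ≤ ε * M := by rwa [div_le_iff₀' hε] at hM
  refine ⟨2 ^ (8 * (6 * M + 2 * n0 + 4)), 2 * K + 1, ?_⟩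
  intro E _ _ en hc hn
  have hn0 : (vs en univ).card ≠ 0 := (lt_of_lt_of_le (by positivity) hn).ne'
  have hL : 8 * (6 * M + 2 * n0 + 4) ≤ Nat.log 2 (vs en univ).card :=
    Nat.le_log_of_pow_le one_lt_two hn
  have hp : 2 ^ Nat.log 2 (vs en univ).card ≤ (vs en univ).card := Nat.pow_log_le_self 2 hn0
  have hS : ∀ S : Finset ℕ, S ⊆ vs en univ → Nat.log 2 S.card ≤ Nat.log 2 (vs en univ).card :=
    fun S h => Nat.log_mono_right (card_le_card h)
  generalize Nat.log 2 (vs en univ).card = L at hL hp hS ⊢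
  obtain ⟨F, f1, f2, f3⟩ := maximal en (L / 8)
  rcases le_or_gt (M * 8 ^ (L / 8)) F.card with hF | hF
  · refine ⟨F, fun D hD => ⟨(f1 D hD).1, (f1 D hD).2.trans ?_⟩, ?_⟩
    · rw [add_mul]
      omega
    · refine many (a := 8 ^ (L / 8)) hε hm (by positivity) ?_ (Nat.cast_nonneg _)
        (Nat.cast_nonneg _) (h2 en hc F _ f1 f2)
      exact_mod_cast hF
  · have hz : (F.biUnion (vs en)).card ≤ F.card * (2 * (L / 8)) :=
      card_biUnion_le_card_mul _ _ _ fun D hD =>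
        (card_vs_le D).trans (Nat.mul_le_mul_left 2 (f1 D hD).2)
    obtain ⟨S, G, x, hZ, hg⟩ := h3 en hc _ _ f3 ((small (by omega) (by omega) hz hF).trans_le
      ((Nat.pow_le_pow_right two_pos (by omega)).trans hp))
    obtain ⟨R⟩ := h1 en hc
    have hl := hS S hZ.subV
    have H := h5 en R S G x _ _ K _ hZ (hK S.card (by omega)) (by omega)
    have H' := (Nat.cast_le (α := ℝ)).2 H
    rw [Nat.cast_mul, Nat.cast_ofNat] at H'
    refine ⟨_, fun D hD => ⟨(mem_fam.1 hD).1, (mem_fam.1 hD).2.1.trans ?_⟩,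
      le_trans ?_ ((div_le_iff₀' two_pos).2 H')⟩
    · have : K * (Nat.log 2 S.card / 100) ≤ K * L := Nat.mul_le_mul_left K (by omega)
      rw [add_mul, mul_assoc]
      omega
    · have : 0 ≤ ε * (Z en).card := by positivity
      linarith

end Pool.Agent.MP_94842c_co.ES
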