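import Pool.Agent.MP_94842c_co.ES.Spec

/-! Two simple chains with common ends and different first darts enclose a circuit. -/

set_option autoImplicit false

namespace Pool.Agent.MP_94842c_co.ES

open Finset

namespace RowLENS

variable {E : Type} [Fintype E] [DecidableEq E] {en : E × Bool → ℕ}

theorem nb {p : ℕ → E × Bool} {r : ℕ} (h : Ch en p r) (s : Simple en p r) (k : ℕ)
    (hk : k + 2 ≤ r) : p (k + 1) ≠ rev (p k) := fun e => by
  have h1 := h (k + 1) (by omega)
  rw [e, rev_rev] at h1
  have := s _ _ (by omega) (by omega) h1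
  omega

/-- The closed chain around the lens. -/
def lq (p p' : ℕ → E × Bool) (a a' k : ℕ) : E × Bool :=
  if k < a then p k else if k < a + a' then rev (p' (a + a' - 1 - k)) else p 0

end RowLENS

open RowLENS in
theorem row_lens (h : CYC) : LENS := by
  intro E _ _ en p p' r r' c c' s s' h0 hne hr hr' he
  classical
  have ex : ∃ a, 1 ≤ a ∧ ∃ a', 1 ≤ a' ∧ a' ≤ r' ∧ en (p a) = en (p' a') :=
    ⟨r, hr, r', hr', le_rfl, he⟩
  have hle : Nat.find ex ≤ r := Nat.find_min' ex ⟨hr, r', hr', le_rfl, he⟩
  have hmin : ∀ j, j < Nat.find ex → 1 ≤ j → ∀ i, 1 ≤ i → i ≤ r' → en (p j) ≠ en (p' i) :=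
    fun j hj h1 i i1 i2 e => Nat.find_min ex hj ⟨h1, i, i1, i2, e⟩
  obtain ⟨a1, a', b1, b2, hm⟩ := Nat.find_spec ex
  generalize Nat.find ex = a at hle hmin a1 hm
  have q1 : ∀ k, k < a → lq p p' a a' k = p k := fun k hk => if_pos hk
  have q2 : ∀ k, a ≤ k → k < a + a' → lq p p' a a' k = rev (p' (a + a' - 1 - k)) :=
    fun k h1 h2 => by rw [lq, if_neg (by omega), if_pos h2]
  have q3 : lq p p' a a' (a + a') = p 0 := by rw [lq, if_neg (by omega), if_neg (by omega)]
  have e2 : ∀ k, a ≤ k → k ≤ a + a' → en (lq p p' a a' k) = en (p' (a + a' - k)) := by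
    intro k h1 h2
    rcases Nat.lt_or_ge k (a + a') with d | d
    · rw [q2 k h1 d, ← c' _ (by omega)]
      congr 2
      omega
    · obtain rfl : k = a + a' := by omega
      rw [q3, h0, Nat.sub_self]
  have e1 : ∀ k, k ≤ a → en (lq p p' a a' k) = en (p k) := by
    intro k hk
    rcases Nat.lt_or_ge k a with d | d
    · rw [q1 k d]
    · obtain rfl : k = a := by omega
      rw [e2 k le_rfl (by omega), hm, Nat.add_sub_cancel_left]
  have mix : ∀ j k, j < a → a ≤ k → k < a + a' →
      en (lq p p' a a' j) ≠ en (lq p p' a a' k) := by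
    intro j k h1 h2 h3 e
    rw [e1 j h1.le, e2 k h2 h3.le] at e
    rcases Nat.eq_zero_or_pos j with rfl | d
    · have := s' _ _ (Nat.zero_le _) (by omega) (h0.symm.trans e)
      omega
    · exact hmin j h1 d _ (by omega) (by omega) e
  have ed : edges (lq p p' a a') (a + a') = edges p a ∪ edges p' a' := by
    ext e
    rw [mem_union, mem_edges, mem_edges, mem_edges]
    constructor
    · rintro ⟨k, hk, rfl⟩
      rcases Nat.lt_or_ge k a with d | d
      · exact Or.inl ⟨k, d, by rw [q1 k d]⟩
      · exact Or.inr ⟨a + a' - 1 - k, by omega, by rw [q2 k d hk]; rfl⟩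
    · rintro (⟨k, hk, rfl⟩ | ⟨k, hk, rfl⟩)
      · exact ⟨k, by omega, by rw [q1 k hk]⟩
      · refine ⟨a + a' - 1 - k, by omega, ?_⟩
        rw [q2 _ (by omega) (by omega), show a + a' - 1 - (a + a' - 1 - k) = k by omega]
        rfl
  have := h en (lq p p' a a') (a + a') (by omega) (fun k hk => ?_) (fun k hk => ?_)
    (fun j k hj hk e => ?_) (by rw [q3, q1 0 (by omega)])
  · rw [ed] at this
    exact ⟨a, a', a1, hle, b1, b2, hm, this⟩
  · rcases Nat.lt_or_ge k a with d | d
    · rw [e1 _ d, q1 k d, c k (by omega)]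
    · rw [e2 _ (by omega) hk, q2 k d hk, rev_rev]
      congr 2
      omega
  · rcases Nat.lt_trichotomy (k + 1) a with d | d | d
    · rw [q1 _ d, q1 k (by omega)]
      exact nb c s k (by omega)
    · rw [q2 _ d.ge hk, q1 k (by omega)]
      intro e
      have e' : p' (a + a' - 1 - (k + 1)) = p k := by rw [← rev_rev (p k), ← e, rev_rev]
      rcases Nat.eq_zero_or_pos k with rfl | d'
      · have := s' _ _ (by omega) (Nat.zero_le _) ((congrArg en e').trans h0)
        rw [this] at e'
        exact hne e'.symm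
      · rcases Nat.eq_zero_or_pos (a + a' - 1 - (k + 1)) with z | z
        · rw [z] at e'
          have := s _ _ (Nat.zero_le _) (by omega) (h0.trans (congrArg en e'))
          omega
        · exact hmin k (by omega) d' _ z (by omega) (congrArg en e').symm
    · rw [q2 _ d.le hk, q2 k (by omega) (by omega), rev_rev,
        show a + a' - 1 - k = a + a' - 1 - (k + 1) + 1 by omega]
      exact (nb c' s' _ (by omega)).symm
  · rcases Nat.lt_or_ge j a with d | d <;> rcases Nat.lt_or_ge k a with d' | d'
    · rw [e1 j d.le, e1 k d'.le] at e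
      exact s _ _ (by omega) (by omega) e
    · exact absurd e (mix j k d d' hk)
    · exact absurd e.symm (mix k j d' d hj)
    · rw [e2 j d hj.le, e2 k d' hk.le] at e
      have := s' _ _ (by omega) (by omega) e
      omega

end Pool.Agent.MP_94842c_co.ES
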