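import Pool.Agent.MP_94842c_co.ES.Spec

/-! Project ES, row LIN12: counting even sets that contain one or two given even sets. -/

set_option autoImplicit false

namespace Pool.Agent.MP_94842c_co.ES

open Finset
open scoped symmDiff

theorem lin12_pos {E : Type} [Fintype E] [DecidableEq E] (en : E × Bool → ℕ) (D : Finset E) :
    1 ≤ ncut en D := by
  classical
  unfold ncut
  exact card_pos.2 ⟨∅, by simp [isCut_empty]⟩

theorem lin12_union {E : Type} [Fintype E] [DecidableEq E] (en : E × Bool → ℕ)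
    (D D' : Finset E) (k : ℕ) (hd : Disjoint D D') (hR : Rho en D D' k) :
    ncut en (D ∪ D') ≤ ncut en D * ncut en D' * k := by
  classical
  obtain ⟨f, hf, hR⟩ := hR
  have hτ : ∃ τ : Finset E → Finset ℕ, ∀ Y, IsCut en Y → cut en (τ Y) = Y := by
    refine ⟨fun Y => if h : IsCut en Y then h.choose else ∅, fun Y h => ?_⟩
    simp only [h, dif_pos]
    exact h.choose_spec
  obtain ⟨τ, hτ⟩ := hτ
  unfold ncut
  rw [← card_product]
  refine (card_le_mul_card_image_of_maps_to (f := fun Y => f (τ Y)) (t := range k)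
    (fun Y _ => mem_range.2 (hf _)) _ fun b _ => ?_).trans (by rw [card_range])
  rcases (filter (fun Y => f (τ Y) = b)
    (filter (IsCut en) (D ∪ D').powerset)).eq_empty_or_nonempty with h0 | ⟨Y0, h0⟩
  · rw [h0]; simp
  simp only [mem_filter, mem_powerset] at h0
  refine card_le_card_of_injOn (fun Y => ((Y ∆ Y0) ∩ D, (Y ∆ Y0) ∩ D')) (fun Y hY => ?_)
    fun Y hY Y' hY' e => ?_
  · simp only [coe_filter, mem_filter, mem_powerset, Set.mem_ofPred_eq] at hY
    have h1 : IsCut en ((Y ∆ Y0) ∩ D) := by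
      have := hR (τ Y) (τ Y0) (by rw [hτ Y hY.1.2]; exact hY.1.1)
        (by rw [hτ Y0 h0.1.2]; exact h0.1.1) (hY.2.trans h0.2.symm)
      rwa [hτ Y hY.1.2, hτ Y0 h0.1.2] at this
    have h2 : (Y ∆ Y0) ∩ D' = (Y ∆ Y0) ∆ ((Y ∆ Y0) ∩ D) := by
      ext x
      have a1 : x ∈ Y → x ∈ D ∨ x ∈ D' := fun h => mem_union.1 (hY.1.1 h)
      have a2 : x ∈ Y0 → x ∈ D ∨ x ∈ D' := fun h => mem_union.1 (h0.1.1 h)
      have a3 : x ∈ D → x ∉ D' := fun h => disjoint_left.1 hd h
      simp only [mem_inter, mem_symmDiff]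
      tauto
    simp only [coe_product, coe_filter, mem_powerset, Set.mem_prod, Set.mem_ofPred_eq]
    exact ⟨⟨inter_subset_right, h1⟩, inter_subset_right,
      h2 ▸ (hY.1.2.symmDiff h0.1.2).symmDiff h1⟩
  · simp only [coe_filter, mem_filter, mem_powerset, Set.mem_ofPred_eq] at hY hY'
    simp only [Prod.mk.injEq] at e
    ext x
    have a1 : x ∈ Y → x ∈ D ∨ x ∈ D' := fun h => mem_union.1 (hY.1.1 h)
    have a2 : x ∈ Y' → x ∈ D ∨ x ∈ D' := fun h => mem_union.1 (hY'.1.1 h)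
    have a3 : x ∈ (Y ∆ Y0) ∩ D ↔ x ∈ (Y' ∆ Y0) ∩ D := by rw [e.1]
    have a4 : x ∈ (Y ∆ Y0) ∩ D' ↔ x ∈ (Y' ∆ Y0) ∩ D' := by rw [e.2]
    simp only [mem_inter, mem_symmDiff] at a3 a4
    clear e hY hY' h0 hτ hR
    by_cases b1 : x ∈ Y <;> by_cases b2 : x ∈ Y' <;> by_cases b3 : x ∈ Y0 <;> simp_all

theorem row_lin1 (h : CNT) : LIN1 := by
  intro E _ _ en D hD
  rw [mul_comm, h en D hD]
  exact Nat.le_mul_of_pos_right _ (lin12_pos en D)

theorem row_lin2 (h : CNT) : LIN2 := by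
  intro E _ _ en D D' k hD hD' hd hR
  have hU : Ev en (D ∪ D') := fun v => by
    rw [deg_union hd]; exact (hD v).add (hD' v)
  have h1 := h en D hD
  have h2 := h en D' hD'
  have h3 := h en (D ∪ D') hU
  rw [card_union_of_disjoint hd, pow_add] at h3
  have h4 := lin12_union en D D' k hd hR
  refine Nat.le_of_mul_le_mul_right (c := 2 ^ D.card * 2 ^ D'.card) ?_ (by positivity)
  calc cnt en (D ∪ D') * (Z en).card * (2 ^ D.card * 2 ^ D'.card)
      = cnt en (D ∪ D') * (2 ^ D.card * 2 ^ D'.card) * (Z en).card := by ring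
    _ = (Z en).card * ncut en (D ∪ D') * (Z en).card := by rw [h3]
    _ ≤ (Z en).card * (ncut en D * ncut en D' * k) * (Z en).card := by gcongr
    _ = k * ((Z en).card * ncut en D) * ((Z en).card * ncut en D') := by ring
    _ = k * (cnt en D * 2 ^ D.card) * (cnt en D' * 2 ^ D'.card) := by rw [h1, h2]
    _ = k * cnt en D * cnt en D' * (2 ^ D.card * 2 ^ D'.card) := by ring

end Pool.Agent.MP_94842c_co.ES
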