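import Pool.Agent.MP_94842c_co.ES.Spec

/-! Three counts by the boundary map (project ES). -/

set_option autoImplicit false

namespace Pool.Agent.MP_94842c_co.ES

open Finset
open scoped symmDiff

namespace Lin345

variable {E : Type} [Fintype E] [DecidableEq E] {en : E × Bool → ℕ}

/-- The vertices of odd degree in `T`. -/
def bd (en : E × Bool → ℕ) (T : Finset ℕ) (X : Finset E) : Finset ℕ :=
  T.filter fun v => deg en X v % 2 = 1

theorem ev_of_bd {T : Finset ℕ} {X Y : Finset E} (hX : vs en X ⊆ T) (hY : vs en Y ⊆ T)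
    (h : bd en T X = bd en T Y) : Ev en (X ∆ Y) := fun v => by
  have h1 := deg_symmDiff (en := en) X Y v
  rw [Nat.even_iff]
  by_cases hv : v ∈ T
  · have h2 := Finset.ext_iff.1 h v
    simp only [bd, mem_filter, hv, true_and] at h2
    omega
  · have h2 : ¬ 0 < deg en X v := fun k => hv (hX (deg_pos.1 k))
    have h3 : ¬ 0 < deg en Y v := fun k => hv (hY (deg_pos.1 k))
    omega

theorem join {V0 : Finset ℕ} {v0 : ℕ} (h0 : v0 ∉ V0)
    (h : ∀ v ∈ V0, ∃ W j, Link en univ W j v0 v) (T : Finset ℕ) :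
    ∃ Y, T ⊆ V0 → ∀ v ∈ V0, (deg en Y v % 2 = 1 ↔ v ∈ T) := by
  induction T using Finset.induction_on with
  | empty => exact ⟨∅, fun _ v _ => by simp⟩
  | insert u T hu ih =>
    obtain ⟨Y, hY⟩ := ih
    by_cases hs : insert u T ⊆ V0
    · obtain ⟨W, j, X, -, -, -, hX⟩ := h u (hs (mem_insert_self u T))
      refine ⟨Y ∆ X, fun _ v hv => ?_⟩
      have h1 := deg_symmDiff (en := en) Y X v
      have h2 := hY ((subset_insert u T).trans hs) v hv
      have h3 := hX v
      rw [if_neg fun e : v = v0 => h0 (e ▸ hv), Nat.even_iff] at h3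
      rw [mem_insert]
      by_cases e : v = u
      · rw [if_pos e] at h3
        have h4 : ¬ deg en Y v % 2 = 1 := fun k => hu (e ▸ h2.1 k)
        exact iff_of_true (by omega) (Or.inl e)
      · rw [if_neg e] at h3
        rw [or_iff_right e, ← h2]
        omega
    · exact ⟨∅, fun k => absurd k hs⟩

end Lin345

open Lin345

theorem row_lin3 : LIN3 := by
  intro E _ _ en
  rw [← card_powerset, ← card_univ, ← card_powerset]
  refine card_le_mul_card_image_of_maps_to (f := bd en (vs en univ))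
    (fun X _ => mem_powerset.2 (filter_subset _ _)) _ fun b _ => ?_
  rcases ((univ : Finset E).powerset.filter fun X =>
    bd en (vs en univ) X = b).eq_empty_or_nonempty with h | ⟨X0, h⟩
  · rw [h]; exact Nat.zero_le _
  refine card_le_card_of_injOn (fun X => X ∆ X0) (fun X hX => ?_)
    fun X _ Y _ e => symmDiff_left_injective X0 e
  exact mem_Z.2 (ev_of_bd (vs_mono (subset_univ _)) (vs_mono (subset_univ _))
    ((mem_filter.1 hX).2.trans (mem_filter.1 h).2.symm))

theorem row_lin4 : LIN4 := by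
  intro E _ _ en V0 v0 h0 h
  choose Y hY using join h0 h
  rw [← card_powerset, ← card_product, ← card_univ, ← card_powerset]
  refine card_le_card_of_injOn (fun q => q.1 ∆ Y q.2) (fun q _ => mem_powerset.2 (subset_univ _)) ?_
  rintro ⟨C, T⟩ hq ⟨C', T'⟩ hq' e
  obtain ⟨h1, h2⟩ := mem_product.1 (mem_coe.1 hq)
  obtain ⟨h3, h4⟩ := mem_product.1 (mem_coe.1 hq')
  have h5 := mem_powerset.1 h2
  have h6 := mem_powerset.1 h4
  have key : ∀ v ∈ V0, (v ∈ T ↔ v ∈ T') := fun v hv => by
    have a1 := deg_symmDiff (en := en) C (Y T) v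
    have a2 := deg_symmDiff (en := en) C' (Y T') v
    have a3 := Nat.even_iff.1 (mem_Z.1 h1 v)
    have a4 := Nat.even_iff.1 (mem_Z.1 h3 v)
    rw [show C ∆ Y T = C' ∆ Y T' from e] at a1
    rw [← hY T h5 v hv, ← hY T' h6 v hv]
    dsimp only at a3 a4
    omega
  obtain rfl : T = T' := Finset.ext fun v =>
    ⟨fun k => (key v (h5 k)).1 k, fun k => (key v (h6 k)).2 k⟩
  obtain rfl : C = C' := symmDiff_left_injective (Y T) e
  rfl

theorem row_lin5 : LIN5 := by
  intro E _ _ en I T hT h
  rw [← Nat.pow_le_pow_iff_right (show 1 < 2 by norm_num), ← card_powerset, ← card_powerset]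
  refine card_le_card_of_injOn (bd en T) (fun X _ => mem_powerset.2 (filter_subset _ _))
    fun X hX Y hY e => ?_
  have h1 := mem_powerset.1 (mem_coe.1 hX)
  have h2 := mem_powerset.1 (mem_coe.1 hY)
  exact symmDiff_eq_bot.1 (h _ ((symmDiff_sub X Y).trans (union_subset h1 h2))
    (ev_of_bd ((vs_mono h1).trans hT) ((vs_mono h2).trans hT) e))

end Pool.Agent.MP_94842c_co.ES
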