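import Pool.Agent.MP_94842c_co.ES.Spec

/-! Row LO1 of project ES: a loose set is large compared with the girth. -/

set_option autoImplicit false

namespace Pool.Agent.MP_94842c_co.ES

open Finset

theorem row_lo1 (h : LIN5) : LO1 := by
  intro E _ _ en hc Z0 S g hns hS hx
  by_contra hg
  rw [not_lt] at hg
  set T0 : Finset ℕ := S \ Z0 with hT0
  set I : Finset E := univ.filter fun e => en (e, true) ∈ T0 ∧ en (e, false) ∈ T0 with hI
  have hmemI : ∀ d : E × Bool, d.1 ∈ I ↔ en d ∈ T0 ∧ en (rev d) ∈ T0 := by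
    rintro ⟨e, b⟩
    cases b <;> simp only [hI, mem_filter, mem_univ, true_and, rev, Bool.not_true, Bool.not_false]
    exact and_comm
  have hvs : vs en I ⊆ T0 := fun v hv => by
    obtain ⟨d, h1, rfl⟩ := mem_vs.1 hv
    exact ((hmemI d).1 h1).1
  have hT0S : T0 ⊆ S := sdiff_subset
  have hd : (darts en T0).card = 3 * T0.card := hc.card_darts_eq (hT0S.trans hS)
  have h1 : 2 * I.card ≤ 3 * T0.card := by
    rw [← hd, ← card_dartsOf]
    refine card_le_card fun d hd' => ?_
    rw [mem_filter] at hd'
    exact mem_darts.2 ((hmemI d).1 hd'.2).1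
  have hTS : T0.card ≤ S.card := card_le_card hT0S
  have h2 : I.card ≤ T0.card := by
    refine h en I T0 hvs fun X hX hE => hns X hE ?_ ((vs_mono hX).trans hvs)
    have := card_le_card hX
    omega
  set A : Finset (E × Bool) := univ.filter fun d => en d ∈ S ∧ en (rev d) ∉ S with hA
  have h3 : A.card ≤ (cut en S).card := by
    refine card_le_card_of_injOn (fun d => d.1) (fun d hd' => ?_) (fun d hd' e he hde => ?_)
    · simp only [hA, coe_filter, mem_univ, true_and, Set.mem_ofPred_eq] at hd'
      exact mem_coe.2 ((mem_cut d).2 fun hh => hd'.2 (hh.1 hd'.1))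
    · simp only [hA, coe_filter, mem_univ, true_and, Set.mem_ofPred_eq] at hd' he
      rcases eq_or_rev hde with h' | h'
      · exact h'
      · exact absurd (h' ▸ hd'.1) he.2
  have h4 : ((darts en (Z0 ∩ S)).image rev).card ≤ 3 * (Z0 ∩ S).card :=
    card_image_le.trans (hc.card_darts_le _)
  have h5 : darts en T0 ⊆ ((univ.filter fun d : E × Bool => d.1 ∈ I) ∪ A) ∪
      (darts en (Z0 ∩ S)).image rev := fun d hd' => by
    have hdT := mem_darts.1 hd'
    by_cases k1 : en (rev d) ∈ S
    · by_cases k2 : en (rev d) ∈ Z0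
      · exact mem_union_right _ (mem_image.2 ⟨rev d, mem_darts.2 (mem_inter.2 ⟨k2, k1⟩),
          rev_rev d⟩)
      · exact mem_union_left _ (mem_union_left _ (mem_filter.2 ⟨mem_univ _,
          (hmemI d).2 ⟨hdT, mem_sdiff.2 ⟨k1, k2⟩⟩⟩))
    · exact mem_union_left _ (mem_union_right _ (mem_filter.2 ⟨mem_univ _, hT0S hdT, k1⟩))
  have h6 := (card_le_card h5).trans ((card_union_le _ _).trans
    (Nat.add_le_add_right (card_union_le _ _) _))
  rw [card_dartsOf, hd] at h6
  have h7 : T0.card + (Z0 ∩ S).card = S.card := by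
    rw [hT0, inter_comm]; exact card_sdiff_add_card_inter S Z0
  unfold xx at hx
  generalize (cut en S).card = c at *
  generalize (Z0 ∩ S).card = z at *
  have h8 : S.card ≤ c + 4 * z := by omega
  rcases Nat.eq_zero_or_pos z with h0 | h0
  · subst h0
    nlinarith [Nat.le_self_pow (two_ne_zero) c]
  · nlinarith

end Pool.Agent.MP_94842c_co.ES
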