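import Pool.Agent.MP_94842c_co.ES.Spec

/-! Row LO2 of project ES: the layers of a zone. -/

set_option autoImplicit false

namespace Pool.Agent.MP_94842c_co.ES

open Finset

namespace LO2x

variable {E : Type} [Fintype E] [DecidableEq E]

/-- The layers. -/
def lay (en : E × Bool → ℕ) (T : Finset ℕ) : ℕ → Finset ℕ
  | 0 => T
  | j + 1 => (lay en T j).filter fun v => ∀ d, en d = v → en (rev d) ∈ lay en T j

theorem step {en : E × Bool → ℕ} (h : Cubic en) (S T : Finset ℕ) (j : ℕ) :
    (S \ lay en T (j + 1)).card ≤ 4 * (S \ lay en T j).card + (cut en S).card := by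
  have hs : S \ lay en T (j + 1) ⊆ ((S \ lay en T j) ∪
      (darts en (S \ lay en T j)).image fun d => en (rev d)) ∪
      (cut en S).image fun e => if en (e, true) ∈ S then en (e, true) else en (e, false) := by
    intro v hv
    rw [mem_sdiff] at hv
    by_cases h1 : v ∈ lay en T j
    · have h2 : ¬ ∀ d, en d = v → en (rev d) ∈ lay en T j := fun k =>
        hv.2 (mem_filter.2 ⟨h1, k⟩)
      push Not at h2
      obtain ⟨d, rfl, h3⟩ := h2
      by_cases h4 : en (rev d) ∈ S
      · exact mem_union_left _ (mem_union_right _ (mem_image.2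
          ⟨rev d, mem_darts.2 (mem_sdiff.2 ⟨h4, h3⟩), by rw [rev_rev]⟩))
      · refine mem_union_right _ (mem_image.2 ⟨d.1, (mem_cut d).2 fun k => h4 (k.1 hv.1), ?_⟩)
        rcases d with ⟨e, b⟩
        cases b
        · exact if_neg h4
        · exact if_pos hv.1
    · exact mem_union_left _ (mem_union_left _ (mem_sdiff.2 ⟨hv.1, h1⟩))
  have h1 := card_le_card hs
  have h2 := card_union_le ((S \ lay en T j) ∪
      (darts en (S \ lay en T j)).image fun d => en (rev d))
      ((cut en S).image fun e => if en (e, true) ∈ S then en (e, true) else en (e, false))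
  have h3 := card_union_le (S \ lay en T j)
      ((darts en (S \ lay en T j)).image fun d => en (rev d))
  have h4 := card_image_le (s := darts en (S \ lay en T j)) (f := fun d => en (rev d))
  have h5 := card_image_le (s := cut en S)
    (f := fun e => if en (e, true) ∈ S then en (e, true) else en (e, false))
  have h6 := h.card_darts_le (S \ lay en T j)
  omega

end LO2x

theorem row_lo2 : LO2 := by
  intro E _ _ en h Z0 S
  refine ⟨LO2x.lay en (S \ Z0), rfl, fun j => filter_subset _ _,
    fun j d hd => (mem_filter.1 hd).2 d rfl, fun j => ?_⟩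
  have key : ∀ j, 3 * (S \ LO2x.lay en (S \ Z0) j).card + (cut en S).card ≤
      4 ^ j * xx en Z0 S := by
    intro j
    induction j with
    | zero =>
      have e : S \ LO2x.lay en (S \ Z0) 0 = Z0 ∩ S := by
        show S \ (S \ Z0) = Z0 ∩ S
        ext v
        simp only [mem_sdiff, mem_inter]
        tauto
      rw [e, xx]
      omega
    | succ j ih =>
      have := LO2x.step h S (S \ Z0) j
      rw [pow_succ, mul_right_comm]
      omega
  have := key j
  omega

end Pool.Agent.MP_94842c_co.ES
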