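import Pool.Agent.MP_94842c_co.ES.Spec

/-! A minimal loose set carries a zone (project ES). -/

set_option autoImplicit false
set_option linter.unusedSectionVars false

namespace Pool.Agent.MP_94842c_co.ES

open Finset

namespace LooseR

theorem num {a b p x x0 x1 : ℕ} (hab : a ≤ b) (hp : 16 * p ^ 2 ≤ a) (h0 : a ≤ x0 ^ 2)
    (h1 : b ≤ x1 ^ 2) (h : x0 + x1 ≤ x + 2 * p) : a + b ≤ x ^ 2 := by
  have e1 : 4 * p ≤ x0 := (Nat.pow_le_pow_iff_left two_ne_zero).1 (by nlinarith)
  have e2 : a ≤ x0 * x1 := (Nat.pow_le_pow_iff_left two_ne_zero).1 (by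
    rw [mul_pow, sq]
    exact Nat.mul_le_mul h0 (hab.trans h1))
  have e3 : (2 * x1 + x0) ^ 2 ≤ (2 * x) ^ 2 := Nat.pow_le_pow_left (by omega) 2
  nlinarith

variable {E : Type} [Fintype E] [DecidableEq E] (en : E × Bool → ℕ)

theorem cut_split (S T : Finset ℕ) :
    (cut en (S ∩ T)).card + (cut en (S \ T)).card ≤ (cut en S).card + 2 * (cut en T).card := by
  simp only [cut, card_filter]
  rw [← sum_add_distrib, mul_sum, ← sum_add_distrib]
  refine sum_le_sum fun e _ => ?_
  by_cases h1 : en (e, true) ∈ S <;> by_cases h2 : en (e, false) ∈ S <;>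
    by_cases h3 : en (e, true) ∈ T <;> by_cases h4 : en (e, false) ∈ T <;>
    simp [h1, h2, h3, h4]

theorem xx_split (Z0 S T : Finset ℕ) :
    xx en Z0 (S ∩ T) + xx en Z0 (S \ T) ≤ xx en Z0 S + 2 * (cut en T).card := by
  have h1 := cut_split en S T
  have h2 := card_inter_add_card_sdiff (Z0 ∩ S) T
  rw [inter_assoc, inter_sdiff_assoc] at h2
  unfold xx
  omega

end LooseR

open LooseR in
theorem row_loose (h1 : LO1) (h2 : LO2) : LOOSE := by
  intro E _ _ en hc Z0 g hn hz
  have h0 : xx en Z0 (vs en univ) ^ 2 < (vs en univ).card := by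
    have e := cut_compl (en := en) ∅
    rw [sdiff_empty, cut_empty] at e
    refine lt_of_le_of_lt (Nat.pow_le_pow_left ?_ 2) hz
    rw [xx, e, card_empty, zero_add]
    exact Nat.mul_le_mul_left 3 (card_le_card inter_subset_left)
  obtain ⟨S, hS, hm⟩ := exists_min_image
    ((vs en univ).powerset.filter fun S => xx en Z0 S ^ 2 < S.card) card
    ⟨vs en univ, by simp [h0]⟩
  simp only [mem_filter, mem_powerset] at hS hm
  obtain ⟨G, g0, g1, g2, g3⟩ := h2 en hc Z0 S
  have hns : NS en (S \ Z0) g := hn.mono (sdiff_subset_sdiff hS.1 (Subset.refl _)) le_rfl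
  refine ⟨S, G, xx en Z0 S, ⟨hS.1, g0 ▸ sdiff_subset, g1, g2, g3, hS.2.le, g0 ▸ hns,
    fun T p hp hT => ?_⟩, h1 en hc Z0 S g hns hS.1 hS.2⟩
  by_contra hb
  push Not at hb
  have e := card_inter_add_card_sdiff S T
  have p0 : 0 < 16 * p ^ 2 := by positivity
  have a0 : (S ∩ T).card ≤ xx en Z0 (S ∩ T) ^ 2 := not_lt.1 fun h => by
    have := hm _ ⟨inter_subset_left.trans hS.1, h⟩
    omega
  have a1 : (S \ T).card ≤ xx en Z0 (S \ T) ^ 2 := not_lt.1 fun h => by
    have := hm _ ⟨sdiff_subset.trans hS.1, h⟩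
    omega
  have s := xx_split en Z0 S T
  have t := hS.2
  rcases le_total (S ∩ T).card (S \ T).card with h | h
  · have := num (x := xx en Z0 S) h hb.1 a0 a1 (by omega)
    omega
  · have := num (x := xx en Z0 S) h hb.2 a1 a0 (by omega)
    omega

end Pool.Agent.MP_94842c_co.ES
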