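import Pool.Agent.MP_94842c_co.ES.Spec

/-! Project ES, row LOW: subdivided Moebius ladders have many cycles. -/

set_option autoImplicit false

namespace Pool.Agent.MP_94842c_co.ES

open Finset Pool.Agent.MP_94842c_co.Lim

namespace Low

/-- Successor on the long cycle, or the chord. -/
def R (n k a b : ℕ) : Prop := b = a + 1 ∨ (a + 1 = n ∧ b = 0) ∨ (a < k ∧ b = a + k)

/-- The ladder. -/
def gr (n k : ℕ) : SimpleGraph (Fin n) := SimpleGraph.fromRel fun a b => R n k a b

variable {n k : ℕ} [NeZero n]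

/-- The vertex with a given number. -/
def vx (n : ℕ) [NeZero n] (i : ℕ) : Fin n := if h : i < n then ⟨i, h⟩ else 0

theorem vx_val (i : ℕ) : (vx n i).val = if i < n then i else 0 := by
  unfold vx; split_ifs <;> rfl

theorem vx_self (a : Fin n) : vx n a = a := Fin.ext (by rw [vx_val, if_pos a.2])

theorem vx_eq {i j : ℕ} : vx n i = vx n j ↔ i = j ∨ (i = 0 ∨ n ≤ i) ∧ (j = 0 ∨ n ≤ j) := by
  rw [Fin.ext_iff, vx_val, vx_val]
  split_ifs <;> omega

theorem adj (hk : 3 ≤ k) (hn : 2 * k ≤ n) {a b : ℕ} (ha : a < n) (hb : b < n) :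
    (gr n k).Adj (vx n a) (vx n b) ↔ R n k a b ∨ R n k b a := by
  rw [gr, SimpleGraph.fromRel_adj, Ne, vx_eq, vx_val, vx_val, if_pos ha, if_pos hb]
  unfold R
  omega

/-- The edges, numbered. -/
def ed (n k : ℕ) [NeZero n] (j : ℕ) : Sym2 (Fin n) :=
  if j < n then s(vx n j, vx n (j + 1)) else s(vx n (j - n), vx n (j - n + k))

theorem card_edges (hk : 3 ≤ k) (hn : 2 * k ≤ n) : (gr n k).edgeSet.ncard = n + k := by
  have h1 : (gr n k).edgeSet = ed n k '' (range (n + k) : Finset ℕ) := by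
    ext e
    induction e using Sym2.ind with
    | _ a b =>
      have ha := a.2
      have hb := b.2
      rw [← vx_self a, ← vx_self b, SimpleGraph.mem_edgeSet, adj hk hn ha hb]
      simp only [Set.mem_image, mem_coe, mem_range]
      unfold R ed
      constructor
      · rintro ((h | h | h) | h | h | h)
        exacts [⟨a, by omega, by rw [if_pos ha, Sym2.eq_iff, vx_eq, vx_eq, vx_eq, vx_eq]; omega⟩,
          ⟨a, by omega, by rw [if_pos ha, Sym2.eq_iff, vx_eq, vx_eq, vx_eq, vx_eq]; omega⟩,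
          ⟨a + n, by omega, by
            rw [if_neg (by omega), Sym2.eq_iff, vx_eq, vx_eq, vx_eq, vx_eq]; omega⟩,
          ⟨b, by omega, by rw [if_pos hb, Sym2.eq_iff, vx_eq, vx_eq, vx_eq, vx_eq]; omega⟩,
          ⟨b, by omega, by rw [if_pos hb, Sym2.eq_iff, vx_eq, vx_eq, vx_eq, vx_eq]; omega⟩,
          ⟨b + n, by omega, by
            rw [if_neg (by omega), Sym2.eq_iff, vx_eq, vx_eq, vx_eq, vx_eq]; omega⟩]
      · rintro ⟨j, hj, h⟩
        split_ifs at h <;> rw [Sym2.eq_iff, vx_eq, vx_eq, vx_eq, vx_eq] at h <;> omega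
  rw [h1, Set.InjOn.ncard_image, Set.ncard_coe_finset, card_range]
  intro i hi j hj h
  rw [mem_coe, mem_range] at hi hj
  unfold ed at h
  split_ifs at h <;> rw [Sym2.eq_iff, vx_eq, vx_eq, vx_eq, vx_eq] at h <;> omega

theorem deg_le (hk : 3 ≤ k) (hn : 2 * k ≤ n) (a : Fin n) :
    ((gr n k).neighborSet a).ncard ≤ 3 := by
  have h : (gr n k).neighborSet a ⊆ {vx n (a + 1), vx n (if a.val = 0 then n - 1 else a - 1),
      vx n (if a.val < k then a + k else a - k)} := fun b hb => by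
    have h1 := a.2
    have h2 := b.2
    rw [SimpleGraph.mem_neighborSet, ← vx_self a, ← vx_self b, adj hk hn h1 h2] at hb
    simp only [Set.mem_insert_iff, Set.mem_singleton_iff, Fin.ext_iff, vx_val]
    unfold R at hb
    split_ifs <;> omega
  refine (Set.ncard_le_ncard h).trans ((Set.ncard_insert_le _ _).trans ?_)
  exact Nat.succ_le_succ ((Set.ncard_insert_le _ _).trans (by simp))

theorem conn (hk : 3 ≤ k) (hn : 2 * k ≤ n) : (gr n k).Connected := by
  have h : ∀ i, i < n → (gr n k).Reachable (vx n 0) (vx n i) := fun i => by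
    induction i with
    | zero => exact fun _ => SimpleGraph.Reachable.refl _
    | succ i ih =>
      exact fun hi => (ih (by omega)).trans
        ((adj hk hn (by omega) hi).2 (Or.inl (Or.inl rfl))).reachable
  exact ⟨fun a b => vx_self a ▸ vx_self b ▸ (h a a.2).symm.trans (h b b.2)⟩

/-- A path with control of its vertices and of some of its edges. -/
def Q (n k : ℕ) [NeZero n] (a b : ℕ) (S T : ℕ → Prop) : Prop :=
  ∃ p : (gr n k).Walk (vx n a) (vx n b), p.IsPath ∧ (∀ x ∈ p.support, S x.val) ∧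
    ∀ j, j < k ∨ j + 1 = n → (s(vx n j, vx n (j + 1)) ∈ p.edges ↔ T j)

theorem Q.mono {a b : ℕ} {S S' T : ℕ → Prop} (h : Q n k a b S T) (hS : ∀ x, S x → S' x) :
    Q n k a b S' T := by
  obtain ⟨p, h1, h2, h3⟩ := h
  exact ⟨p, h1, fun x hx => hS _ (h2 x hx), h3⟩

theorem Q.step (hk : 3 ≤ k) (hn : 2 * k ≤ n) {a a' b : ℕ} {S S' T T' : ℕ → Prop}
    (h : Q n k a b S T) (ha : a < n) (ha' : a' < n) (hR : R n k a' a ∨ R n k a a') (h0 : ¬ S a')
    (hS : ∀ x, x = a' ∨ S x → S' x) (hT : ∀ j, j < k ∨ j + 1 = n →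
      (T' j ↔ (j = a' ∧ (j + 1 = a ∨ j + 1 = n ∧ a = 0) ∨
        j = a ∧ (j + 1 = a' ∨ j + 1 = n ∧ a' = 0)) ∨ T j)) : Q n k a' b S' T' := by
  obtain ⟨p, h1, h2, h3⟩ := h
  have hv : (vx n a').val = a' := by rw [vx_val, if_pos ha']
  refine ⟨.cons ((adj hk hn ha' ha).2 hR) p,
    (SimpleGraph.Walk.cons_isPath_iff _ _).2 ⟨h1, fun h => h0 (hv ▸ h2 _ h)⟩, fun x hx => ?_,
    fun j hj => ?_⟩
  · rw [SimpleGraph.Walk.support_cons, List.mem_cons] at hx
    exact hS _ (hx.imp (fun e => by rw [e, hv]) (h2 x))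
  · rw [SimpleGraph.Walk.edges_cons, List.mem_cons, h3 j hj, hT j hj, Sym2.eq_iff, vx_eq, vx_eq,
      vx_eq, vx_eq]
    exact or_congr_left (by omega)

theorem Q.close (hk : 3 ≤ k) (hn : 2 * k ≤ n) {a b : ℕ} {S T : ℕ → Prop} (h : Q n k a b S T)
    (ha : a < k ∧ a + 1 = b ∨ a + 1 = n ∧ b = 0) (h0 : ¬ T a) :
    ∃ C ∈ cycles (gr n k), ∀ j, j < k → (s(vx n j, vx n (j + 1)) ∈ C ↔ j = a ∨ T j) := by
  obtain ⟨p, h1, -, h3⟩ := h
  have e : vx n (a + 1) = vx n b := by rw [vx_eq]; omega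
  have hA : (gr n k).Adj (vx n b) (vx n a) :=
    (adj hk hn (by omega) (by omega)).2 (by unfold R; omega)
  refine ⟨_, ⟨_, .cons hA p, (SimpleGraph.Walk.cons_isCycle_iff _ _).2 ⟨h1, fun h => h0 ?_⟩, rfl⟩,
    fun j hj => ?_⟩
  · rw [← h3 a (by omega), e, Sym2.eq_swap]
    exact h
  · rw [SimpleGraph.Walk.mem_edgeSet, SimpleGraph.Walk.edges_cons, List.mem_cons,
      h3 j (Or.inl hj), Sym2.eq_iff, vx_eq, vx_eq, vx_eq, vx_eq]
    exact or_congr_left (by omega)

theorem many (hk : 3 ≤ k) (hn : 2 * k ≤ n) (g : ℕ → ℕ) (hg : ∀ j, g j = 0 ∨ g j = k) :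
    ∃ C ∈ cycles (gr n k), ∀ j, j < k → (s(vx n j, vx n (j + 1)) ∈ C ↔ g j = 0) := by
  have col : ∀ i c b, i < k → c = 0 ∨ c = k →
      Q n k (i + c) b (fun x => x = i + c ∨ x < i ∨ k ≤ x ∧ x < k + i) (fun j => j < i ∧ g j = 0) →
      Q n k (i + g i) b (fun x => x ≤ i ∨ k ≤ x ∧ x ≤ k + i) (fun j => j < i ∧ g j = 0) := by
    intro i c b hi hc h
    have := hg i
    by_cases e : g i = c
    · exact e ▸ h.mono (by omega)
    · exact h.step hk hn (by omega) (by omega) (by unfold R; omega) (by omega) (by omega)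
        (by omega)
  have h1 : ∀ b i, b = 0 ∨ b = k → i < k →
      Q n k (i + g i) b (fun x => x ≤ i ∨ k ≤ x ∧ x ≤ k + i) (fun j => j < i ∧ g j = 0) := by
    intro b i hb
    induction i with
    | zero =>
      refine fun hi => col 0 b b hi hb ?_
      rw [zero_add]
      refine ⟨.nil, .nil, fun x hx => Or.inl ?_, by simp⟩
      rw [SimpleGraph.Walk.support_nil, List.mem_singleton] at hx
      rw [hx, vx_val, if_pos (by omega)]
    | succ i ih =>
      have := hg i
      refine fun hi => col (i + 1) (g i) b hi this ((ih (by omega)).step hk hn (by omega)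
        (by omega) (by unfold R; omega) (by omega) (by omega) fun j hj => ?_)
      have : j = i → g j = g i := fun e => e ▸ rfl
      omega
  obtain ⟨i, rfl⟩ : ∃ i, k = i + 1 := ⟨k - 1, by omega⟩
  rcases hg i with e | e
  · obtain ⟨C, c1, c2⟩ := (h1 (i + 1) i (Or.inr rfl) i.lt_succ_self).close hk hn (by omega)
      (by omega)
    refine ⟨C, c1, fun j hj => (c2 j hj).trans ?_⟩
    have : j = i → g j = g i := fun e => e ▸ rfl
    omega
  · have h2 : ∀ m, 2 * i + 1 + m < n → Q n (i + 1) (2 * i + 1 + m) 0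
        (fun x => x ≤ 2 * i + 1 + m) (fun j => j < i ∧ g j = 0) := fun m => by
      induction m with
      | zero =>
        have := h1 0 i (Or.inl rfl) i.lt_succ_self
        rw [show i + g i = 2 * i + 1 + 0 by omega] at this
        exact fun _ => this.mono (by omega)
      | succ m ih =>
        exact fun hm => (ih (by omega)).step hk hn (by omega) hm (by unfold R; omega) (by omega)
          (by omega) (by omega)
    obtain ⟨C, c1, c2⟩ := (h2 (n - (2 * i + 2)) (by omega)).close hk hn (by omega)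
      (by omega)
    refine ⟨C, c1, fun j hj => (c2 j hj).trans ?_⟩
    have : j = i → g j = g i := fun e => e ▸ rfl
    omega

end Low

theorem row_low : LOW := by
  intro k t hk
  have : NeZero (2 * k + t) := ⟨by omega⟩
  have hn : 2 * k ≤ 2 * k + t := by omega
  refine ⟨Fin (2 * k + t), inferInstance, Low.gr _ k, Low.conn hk hn, Low.deg_le hk hn, by simp,
    (Low.card_edges hk hn).trans (by omega), ?_⟩
  choose φ h1 h2 using fun A : Finset ℕ =>
    Low.many hk hn (fun j => if j ∈ A then 0 else k) fun j => by split_ifs <;> simp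
  rw [← card_range k, ← card_powerset, ← Set.ncard_coe_finset, card_range]
  refine Set.ncard_le_ncard_of_injOn φ (fun A _ => h1 A) fun A hA B hB e => ?_
  rw [mem_coe, mem_powerset] at hA hB
  ext j
  by_cases hj : j < k
  · have := ((h2 A j hj).symm.trans (e ▸ Iff.rfl)).trans (h2 B j hj)
    by_cases a : j ∈ A <;> by_cases b : j ∈ B <;> simp [a, b] at this ⊢ <;> omega
  · exact iff_of_false (fun h => hj (mem_range.1 (hA h))) fun h => hj (mem_range.1 (hB h))

end Pool.Agent.MP_94842c_co.ES
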