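import Pool.Agent.MP_94842c_co.ES.Spec

/-! Row NUM of project ES. -/

set_option autoImplicit false

namespace Pool.Agent.MP_94842c_co.ES

open Finset

namespace RowNUM

theorem pow4 {u : ℕ} (h : 16 ≤ u) : u ^ 4 ≤ 2 ^ u := by
  induction u, h using Nat.le_induction with
  | base => norm_num
  | succ u hu ih =>
    have h1 : 16 * u ^ 3 ≤ u ^ 4 := by
      rw [pow_succ u 3, mul_comm]; exact Nat.mul_le_mul_left _ hu
    have h2 : u ^ 2 ≤ u ^ 3 := Nat.pow_le_pow_right (by omega) (by norm_num)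
    have h3 : u ^ 1 ≤ u ^ 3 := Nat.pow_le_pow_right (by omega) (by norm_num)
    have h4 : (u + 1) ^ 4 = u ^ 4 + 4 * u ^ 3 + 6 * u ^ 2 + 4 * u ^ 1 + 1 := by ring
    rw [pow_one] at h3
    rw [h4, pow_succ 2 u, pow_one]
    omega

theorem cube {c u : ℕ} (h : 16 ≤ u) (hc : c ≤ u) : c * u ^ 3 ≤ 2 ^ u :=
  (Nat.mul_le_mul_right _ hc).trans (by rw [mul_comm, ← pow_succ]; exact pow4 h)

theorem sq {c u : ℕ} (h : 16 ≤ u) (hc : c ≤ u) : c * u ^ 2 ≤ 2 ^ u :=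
  (Nat.mul_le_mul_left _ (Nat.pow_le_pow_right (by omega) (by norm_num))).trans (cube h hc)

theorem harm (m j : ℕ) (hm : 1 ≤ m) : (j : ℝ) / 2 ≤ ∑ l ∈ Ico m (2 ^ j * m), 1 / (l : ℝ) := by
  induction j with
  | zero => simp
  | succ j ih =>
    have h0 : 1 ≤ 2 ^ j * m := Nat.mul_pos (by positivity) hm
    have h1 : m ≤ 2 ^ j * m := Nat.le_mul_of_pos_left _ (by positivity)
    have h2 : 2 ^ (j + 1) * m = 2 * (2 ^ j * m) := by ring
    rw [h2]
    generalize 2 ^ j * m = M at *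
    rw [← sum_Ico_consecutive _ h1 (by omega : M ≤ 2 * M)]
    have hM : (0 : ℝ) < M := by exact_mod_cast h0
    have h3 : (Ico M (2 * M)).card • (1 / (2 * (M : ℝ))) ≤ ∑ l ∈ Ico M (2 * M), 1 / (l : ℝ) :=
      card_nsmul_le_sum _ _ _ fun l hl => by
        rw [mem_Ico] at hl
        refine one_div_le_one_div_of_le ?_ ?_
        · exact_mod_cast (by omega : 0 < l)
        · exact_mod_cast hl.2.le
    rw [Nat.card_Ico, (by omega : 2 * M - M = M), nsmul_eq_mul] at h3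
    have h4 : (M : ℝ) * (1 / (2 * M)) = 1 / 2 := by field_simp
    push_cast
    linarith

theorem exK : ∃ K : ℕ, 1 ≤ K ∧ ∀ u l0 : ℕ, 1 ≤ u → l0 ≤ 200 * u →
    (64 : ℝ) ≤ ∑ l ∈ Icc l0 (K * u), 1 / (l : ℝ) := by
  refine ⟨2 ^ 128 * 200, by norm_num, fun u l0 hu hl => ?_⟩
  have h := harm (200 * u) 128 (by omega)
  rw [← mul_assoc] at h
  refine le_trans (by norm_num) (h.trans (sum_le_sum_of_subset_of_nonneg (fun l hl' => ?_)
    fun l _ _ => by positivity))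
  rw [mem_Ico] at hl'
  exact mem_Icc.2 ⟨hl.trans hl'.1, hl'.2.le⟩

end RowNUM

open RowNUM in
theorem row_num : NUM := by
  obtain ⟨K, hK, h6⟩ := exK
  obtain ⟨c, c8⟩ : ∃ c, c = 2 ^ ((2 * K + 1) ^ 2) := ⟨_, rfl⟩
  obtain ⟨u0, hu0⟩ : ∃ u0, u0 = 16 + c * (24 * K ^ 2) + 3072 * K ^ 2 + 256 * K ^ 3 +
    256 * (K + 1) ^ 2 := ⟨_, rfl⟩
  refine ⟨2 ^ (100 * u0), K, fun n hn => ?_⟩
  have hn0 : n ≠ 0 := by
    have : 0 < 2 ^ (100 * u0) := by positivity
    omega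
  have hL : 100 * u0 ≤ Nat.log 2 n := Nat.le_log_of_pow_le (by norm_num) hn
  have a1 : 2 ^ Nat.log 2 n ≤ n := Nat.pow_log_le_self 2 hn0
  have a2 : n < 2 ^ (Nat.log 2 n + 1) := Nat.lt_pow_succ_log_self (by norm_num) n
  generalize Nat.log 2 n = L at *
  have a3 : 100 * (L / 100) ≤ L := Nat.mul_div_le L 100
  have a4 : L < 100 * (L / 100) + 100 := by omega
  have a5 : u0 ≤ L / 100 := by omega
  generalize L / 100 = u at *
  have hu : 16 ≤ u := by omega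
  have b1 : 256 * (K * u + 1) ^ 2 ≤ 2 ^ u := by
    refine le_trans ?_ (sq hu (by omega : 256 * (K + 1) ^ 2 ≤ u))
    rw [mul_assoc, ← mul_pow]
    exact Nat.mul_le_mul_left _ (Nat.pow_le_pow_left (by rw [add_mul]; omega) 2)
  have b2 : 2 ^ u ≤ 2 ^ (5 * u) := Nat.pow_le_pow_right (by norm_num) (by omega)
  refine ⟨by omega, hK, by omega, ?_, by omega, ?_, ?_, h6 u _ (by omega) (by omega), ?_, ?_⟩
  · have e : (16 * (K * u + 1) * 16 ^ u) ^ 2 = 256 * (K * u + 1) ^ 2 * 2 ^ (8 * u) := by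
      rw [pow_mul, (by norm_num : 2 ^ 8 = 16 * 16), mul_pow 16 16 u]; ring
    rw [e]
    refine (Nat.mul_le_mul_right _ b1).trans (le_trans ?_ a1)
    rw [← pow_add]
    exact Nat.pow_le_pow_right (by norm_num) (by omega)
  · rw [pow_succ] at a2
    rw [pow_add]
    omega
  · refine le_trans ?_ ((cube hu (by omega : 256 * K ^ 3 ≤ u)).trans b2)
    rw [mul_pow, mul_assoc]
  · have b3 := sq hu (by omega : 3072 * K ^ 2 ≤ u)
    have e : 3072 * K ^ 2 * u ^ 2 = 96 * (4 * (K * u)) ^ 2 * 2 := by ring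
    have e2 : 2 ^ u = 2 ^ (u - 1) * 2 := by rw [← pow_succ, Nat.sub_add_cancel (by omega)]
    omega
  · rw [← c8]
    refine le_trans (le_of_eq ?_) (sq hu (by omega : c * (24 * K ^ 2) ≤ u))
    ring

end Pool.Agent.MP_94842c_co.ES
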