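import Pool.Agent.MP_94842c_co.ES.Spec

/-! Row P1 of project ES: two good walks with the same ends contain a lens. -/

set_option autoImplicit false

namespace Pool.Agent.MP_94842c_co.ES

open Finset

theorem row_p1 (h : LENS) : P1 := by
  intro E _ _ en R G l w w' hw hw' ne e0 el
  obtain ⟨b0, b1, b2⟩ := mem_good.1 hw
  obtain ⟨c0, c1, c2⟩ := mem_good.1 hw'
  have ex : ∃ k, k ≤ l ∧ wk R w k ≠ wk R w' k := by
    by_contra! u
    exact ne (wk_ext R b0 c0 u)
  obtain ⟨j, ⟨j1, j2⟩, j3⟩ : ∃ j, (j ≤ l ∧ wk R w j ≠ wk R w' j) ∧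
      ∀ k, k < j → ¬(k ≤ l ∧ wk R w k ≠ wk R w' k) :=
    ⟨Nat.find ex, Nat.find_spec ex, fun k => Nat.find_min ex⟩
  obtain ⟨i, rfl⟩ : ∃ i, j = i + 1 := Nat.exists_eq_succ_of_ne_zero fun u => j2 (u ▸ e0)
  have pre : ∀ k, k ≤ i → wk R w k = wk R w' k := fun k hk =>
    by_contra fun u => j3 k (by omega) ⟨by omega, u⟩
  have lt : i + 1 < l := lt_of_le_of_ne j1 fun u => j2 (u ▸ el)
  have s : i + 1 + (l - (i + 1)) = l := by omega
  obtain ⟨a, a', a1, a2, a3, a4, a5, a6, a7⟩ := h en (fun k => wk R w (i + 1 + k))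
    (fun k => wk R w' (i + 1 + k)) (l - (i + 1)) (l - (i + 1)) ((wk_ch R w _).shift le_rfl)
    ((wk_ch R w' _).shift le_rfl) (b2.shift s.le) (c2.shift s.le)
    ((wk_ch R w l i (by omega)).trans (by rw [pre i le_rfl]; exact (wk_ch R w' l i (by omega)).symm))
    j2 (by omega) (by omega) (by rw [s, el])
  refine ⟨_, mem_fam.2 ⟨a6, by omega, ?_⟩, i, a, a', pre, j2, a1, a3, by omega, by omega, a7,
    fun k k1 k2 => mem_union_left _ (mem_edges.2 ⟨k - 1, by omega, ?_⟩),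
    fun k k1 k2 => mem_union_right _ (mem_edges.2 ⟨k - 1, by omega, ?_⟩), a5, el⟩
  · rw [vs_union]
    exact union_subset (vs_edges ((wk_ch R w _).shift le_rfl) (b1.shift (by omega)))
      (vs_edges ((wk_ch R w' _).shift le_rfl) (c1.shift (by omega)))
  · rw [show i + 1 + (k - 1) = i + k by omega]
  · rw [show i + 1 + (k - 1) = i + k by omega]

end Pool.Agent.MP_94842c_co.ES
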