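import Pool.Agent.MP_94842c_co.ES.Spec

/-! Rows P2 and P3 of project ES: counting lenses of a given shape. -/

set_option autoImplicit false

namespace Pool.Agent.MP_94842c_co.ES

open Finset

namespace P23

variable {E : Type} [Fintype E] [DecidableEq E] {en : E × Bool → ℕ} {R : Cub en} {G : Finset ℕ}
  {g l i a a' : ℕ} {D : Finset E} {w w' w'' : (E × Bool) × Finset ℕ}

theorem start (hD : Ev en D) (h : Lens R l w w' D i a a') (h' : Lens R l w w'' D i a a') :
    ∀ k, k ≤ i + a' → wk R w' k = wk R w'' k := by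
  intro k hk
  by_cases u : k ≤ i
  · exact (h.pre k u).symm.trans (h'.pre k u)
  have a1 := h.a1'
  have := follow R.cubic hD (p := fun k => wk R w' (i + 1 + k)) (q := fun k => wk R w'' (i + 1 + k))
    (a := a' - 1) ((wk_ch R w' _).shift le_rfl) ((wk_nb R w' _).shift le_rfl)
    ((wk_ch R w'' _).shift le_rfl) ((wk_nb R w'' _).shift le_rfl)
    (wk_other R (h.pre i le_rfl) (h'.pre i le_rfl) h.split h'.split)
    (fun k hk => by rw [add_assoc]; exact h.mem' _ (by omega) (by omega))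
    (fun k hk => by rw [add_assoc]; exact h'.mem' _ (by omega) (by omega)) (k - (i + 1)) (by omega)
  rwa [show i + 1 + (k - (i + 1)) = k by omega] at this

theorem tail (h2 : UNIQ) (ns : NS en G g) (hw : w ∈ good R G l) (hw' : w' ∈ good R G l)
    {j j' : ℕ} (hj : j ≤ l) (hj' : j' ≤ l) (hg : l - j + (l - j') ≤ g)
    (e : en (wk R w j) = en (wk R w' j')) (e' : wk R w l = wk R w' l) :
    j = j' ∧ ∀ k, j ≤ k → k ≤ l → wk R w k = wk R w' k := by
  obtain ⟨-, b1, b2⟩ := mem_good.1 hw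
  obtain ⟨-, c1, c2⟩ := mem_good.1 hw'
  obtain ⟨u, v⟩ := h2 en G g (fun k => wk R w (j + k)) (fun k => wk R w' (j' + k)) (l - j) (l - j')
    ns ((wk_ch R w _).shift le_rfl) ((wk_ch R w' _).shift le_rfl) (b2.shift (by omega))
    (c2.shift (by omega)) (b1.shift (by omega)) (c1.shift (by omega)) hg e (by
      rw [Nat.add_sub_cancel' hj, Nat.add_sub_cancel' hj', e'])
  obtain rfl : j = j' := by omega
  refine ⟨rfl, fun k h1 h3 => ?_⟩
  rcases h3.eq_or_lt with rfl | h3
  · exact e'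
  · have := v (k - j) (by omega)
    rwa [Nat.add_sub_cancel' h1] at this

theorem toSeg {q : ((E × Bool) × Finset ℕ) × ((E × Bool) × Finset ℕ)}
    (h : q ∈ lensP R G l D i a a') : q.1 ∈ seg R l D i a :=
  mem_seg.2 ⟨(mem_good.1 (mem_lensP.1 h).1).1, (mem_lensP.1 h).2.2.mem⟩

end P23

open P23

theorem row_p2 (h1 : SEG) (h2 : UNIQ) : P2 := by
  intro E _ _ en R G g γ l D i a a' ns hg hD hl
  rcases (lensP R G l D i a a').eq_empty_or_nonempty with e | ⟨q₀, hq₀⟩
  · simp [e]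
  have L := (mem_lensP.1 hq₀).2.2
  have a1 := L.a1
  have a2 := L.le
  have s1 := card_le_mul_card_image_of_maps_to (fun q => toSeg (R := R) (G := G) (l := l) (D := D)
    (i := i) (a := a) (a' := a') (q := q)) (2 ^ (l - γ - (i + a'))) fun w _ => by
      rw [← card_image_of_injOn (f := Prod.snd) fun q hq q' hq' e => Prod.ext
        ((mem_filter.1 hq).2.trans (mem_filter.1 hq').2.symm) e]
      refine card_le_of_mid fun u hu u' hu' hb => ?_
      obtain ⟨q, hq, rfl⟩ := mem_image.1 hu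
      obtain ⟨q', hq', rfl⟩ := mem_image.1 hu'
      obtain ⟨hq, e⟩ := mem_filter.1 hq
      obtain ⟨hq', e'⟩ := mem_filter.1 hq'
      obtain ⟨-, b1, b2⟩ := mem_lensP.1 hq
      obtain ⟨-, c1, c2⟩ := mem_lensP.1 hq'
      rw [e] at b2
      rw [e'] at c2
      have t1 := start hD b2 c2
      have t2 : ∀ k, i + a' ≤ k → k ≤ l - γ → wk R q.2 k = wk R q'.2 k := fun k k1 k2 =>
        wk_fwd R k1 (t1 _ le_rfl) fun j j1 j2 => hb j j1 (by omega)
      have t3 := (tail h2 ns b1 c1 (j := l - γ) (j' := l - γ) (by omega) (by omega) (by omega)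
        (by rw [t2 _ (by omega) le_rfl]) (b2.last.symm.trans c2.last)).2
      refine wk_ext R (mem_good.1 b1).1 (mem_good.1 c1).1 fun k hk => ?_
      rcases le_total k (i + a') with u | u
      · exact t1 k u
      · rcases le_total k (l - γ) with v | v
        exacts [t2 k u v, t3 k v hk]
  have s2 := h1 en R l D i a hD a1 (by omega)
  have s3 : 2 ^ γ * 2 ^ D.card * (2 ^ (l - γ - (i + a')) * 2 ^ (l + 1 - a)) ≤ 2 * 4 ^ l := by
    rw [show 4 = 2 ^ 2 from rfl, ← pow_mul, ← pow_succ', ← pow_add, ← pow_add, ← pow_add, L.card]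
    exact Nat.pow_le_pow_right two_pos (by omega)
  calc _ ≤ 2 ^ γ * 2 ^ D.card * (2 ^ (l - γ - (i + a')) * (2 * D.card * 2 ^ (l + 1 - a))) :=
        Nat.mul_le_mul_left _ (s1.trans (Nat.mul_le_mul_left _ s2))
    _ = 2 * D.card * (2 ^ γ * 2 ^ D.card * (2 ^ (l - γ - (i + a')) * 2 ^ (l + 1 - a))) := by ring
    _ ≤ 2 * D.card * (2 * 4 ^ l) := Nat.mul_le_mul_left _ s3
    _ = _ := by ring

theorem row_p3 (h1 : SEG) (h2 : UNIQ) : P3 := by
  intro E _ _ en R G g γ l D i a a' ns hg hD hl hl'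
  have t : ∀ q ∈ lensP R G l D i a a', i + 1 + a = i + 1 + a' ∧
      ∀ k, i + 1 + a ≤ k → k ≤ l → wk R q.1 k = wk R q.2 k := fun q hq => by
    obtain ⟨b1, b2, L⟩ := mem_lensP.1 hq
    exact tail h2 ns b1 b2 L.le L.le' (by omega) L.meet L.last
  refine ⟨fun n => eq_empty_of_forall_notMem fun q hq => n (by have := (t q hq).1; omega), ?_⟩
  rcases (lensP R G l D i a a').eq_empty_or_nonempty with e | ⟨q₀, hq₀⟩
  · simp [e]
  have L := (mem_lensP.1 hq₀).2.2
  refine (card_le_card_of_injOn Prod.fst (fun q hq => toSeg hq) fun q hq q' hq' e => ?_).trans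
    (h1 en R l D i a hD L.a1 (by have := L.le; omega))
  obtain ⟨-, b1, b2⟩ := mem_lensP.1 hq
  obtain ⟨-, c1, c2⟩ := mem_lensP.1 hq'
  refine Prod.ext e (wk_ext R (mem_good.1 b1).1 (mem_good.1 c1).1 fun k hk => ?_)
  rcases le_or_gt k (i + a') with u | u
  · exact start hD b2 (e ▸ c2) k u
  · have := (t q hq).1
    rw [← (t q hq).2 k (by omega) hk, ← (t q' hq').2 k (by omega) hk, e]

end Pool.Agent.MP_94842c_co.ES
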