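import Pool.Agent.MP_94842c_co.ES.Spec

/-! Row P4 of project ES: the lens pairs around one even set. -/

set_option autoImplicit false

namespace Pool.Agent.MP_94842c_co.ES

open Finset

namespace P4a

theorem div {x γ m l : ℕ} (h : 2 ^ γ * 2 ^ m * x ≤ 4 * m * 4 ^ l) :
    (x : ℝ) ≤ 4 * m * 4 ^ l * (1 / 2) ^ γ * (1 / 2) ^ m := by
  have h1 : (2 : ℝ) ^ γ * 2 ^ m * x ≤ 4 * m * 4 ^ l := by exact_mod_cast h
  have e : ∀ k : ℕ, (2 : ℝ) ^ k * (1 / 2) ^ k = 1 := fun k => by rw [← mul_pow]; norm_num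
  calc (x : ℝ) = (2 ^ γ * (1 / 2) ^ γ) * (2 ^ m * (1 / 2) ^ m) * x := by rw [e, e]; ring
    _ = (2 ^ γ * 2 ^ m * x) * ((1 / 2) ^ γ * (1 / 2) ^ m) := by ring
    _ ≤ (4 * m * 4 ^ l) * ((1 / 2) ^ γ * (1 / 2) ^ m) := by gcongr
    _ = _ := by ring

theorem second (l m : ℕ) :
    ∑ i ∈ range l, ∑ a ∈ range l,
      (if a = m / 2 then (if 2 * (m / 2) = m ∧ i + 1 + m / 2 ≤ l then
        (2 * m * 2 ^ (l + 1 - m / 2) : ℝ) else 0) else 0) ≤
      4 ^ l * (1 / 2) ^ m * hh l (m / 2) := by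
  have h0 : 0 ≤ 4 ^ l * (1 / 2 : ℝ) ^ m * hh l (m / 2) := by unfold hh; positivity
  simp only [sum_ite_eq', mem_range]
  by_cases h : m / 2 < l
  swap
  · simpa [h] using h0
  by_cases h2 : 2 * (m / 2) = m
  swap
  · simpa [h2] using h0
  obtain ⟨a, rfl⟩ : ∃ a, m = 2 * a := ⟨_, h2.symm⟩
  have e : 2 * a / 2 = a := by omega
  rw [e] at h ⊢
  obtain ⟨c, rfl⟩ : ∃ c, l = a + c := ⟨l - a, by omega⟩
  simp only [h, if_true, true_and]
  rw [← sum_filter]
  have : (range (a + c)).filter (fun i => i + 1 + a ≤ a + c) = range c := by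
    ext i; simp only [mem_filter, mem_range]; omega
  rw [this, sum_const, card_range, nsmul_eq_mul, hh, Nat.add_sub_cancel_left,
    show a + c + 1 - a = c + 1 by omega]
  have e1 : (4 : ℝ) ^ a * (1 / 2) ^ (2 * a) = 1 := by rw [pow_mul, ← mul_pow]; norm_num
  have e2 : (4 : ℝ) ^ c * (1 / 2) ^ c = 2 ^ c := by rw [← mul_pow]; norm_num
  refine le_of_eq ?_
  calc _ = 8 * (a : ℝ) * c * 1 * 2 ^ c := by push_cast; ring
    _ = 8 * (a : ℝ) * c * (4 ^ a * (1 / 2) ^ (2 * a)) * (4 ^ c * (1 / 2) ^ c) := by rw [e1, e2]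
    _ = _ := by ring

end P4a

theorem row_p4 (h1 : P2) (h2 : P3) : P4 := by
  intro E _ _ en R G g γ l L D hG hg hD hl hL
  have key : ∀ i a, ((lensP R G l D i a (D.card - a)).card : ℝ) ≤
      4 * D.card * 4 ^ l * (1 / 2) ^ γ * (1 / 2) ^ D.card +
      (if a = D.card / 2 then (if 2 * (D.card / 2) = D.card ∧ i + 1 + D.card / 2 ≤ l then
        (2 * D.card * 2 ^ (l + 1 - D.card / 2) : ℝ) else 0) else 0) := fun i a => by
    have p1 : (0 : ℝ) ≤ 4 * D.card * 4 ^ l * (1 / 2) ^ γ * (1 / 2) ^ D.card := by positivity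
    have p2 : (0 : ℝ) ≤ (if a = D.card / 2 then (if 2 * (D.card / 2) = D.card ∧
        i + 1 + D.card / 2 ≤ l then (2 * D.card * 2 ^ (l + 1 - D.card / 2) : ℝ) else 0)
        else 0) := by
      split_ifs <;> positivity
    rcases (lensP R G l D i a (D.card - a)).eq_empty_or_nonempty with h | ⟨q, hq⟩
    · rw [h, card_empty, Nat.cast_zero]; linarith
    have hL' := (mem_lensP.1 hq).2.2
    have c1 := hL'.card
    have c2 := hL'.le
    by_cases k1 : i + (D.card - a) + γ ≤ l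
    · have := P4a.div (h1 en R G g γ l D i a _ hG hg hD k1)
      linarith
    by_cases k2 : i + a + γ ≤ l
    · have := P4a.div (h1 en R G g γ l D i (D.card - a) a hG hg hD k2)
      rw [card_lensP_symm]
      linarith
    obtain ⟨k3, k4⟩ := h2 en R G g γ l D i a (D.card - a) hG hg hD (by omega) (by omega)
    have k5 : a = D.card - a := by
      by_contra k
      rw [k3 k] at hq
      exact notMem_empty _ hq
    have k6 : a = D.card / 2 := by omega
    rw [if_pos k6, if_pos ⟨by omega, by omega⟩, ← k6]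
    have : ((lensP R G l D i a (D.card - a)).card : ℝ) ≤ 2 * D.card * 2 ^ (l + 1 - a) := by
      exact_mod_cast k4
    linarith
  refine (sum_le_sum fun i _ => sum_le_sum fun a _ => key i a).trans ?_
  simp only [sum_add_distrib, sum_const, card_range, nsmul_eq_mul]
  have s2 := P4a.second l D.card
  have l1 : (l : ℝ) ≤ L := by exact_mod_cast hl
  have l2 : (D.card : ℝ) ≤ 2 * L := by exact_mod_cast hL
  have s1 : (l : ℝ) * (l * (4 * D.card * 4 ^ l * (1 / 2) ^ γ * (1 / 2) ^ D.card)) ≤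
      L * (L * (4 * (2 * L) * 4 ^ l * (1 / 2) ^ γ * (1 / 2) ^ D.card)) := by gcongr
  calc _ ≤ _ := add_le_add s1 s2
    _ = _ := by ring

end Pool.Agent.MP_94842c_co.ES
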