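import Pool.Agent.MP_94842c_co.ES.Spec

/-! Row PAIRS: counting pairs of good walks with the same ends. -/

set_option autoImplicit false

namespace Pool.Agent.MP_94842c_co.ES

open Finset

namespace PAIRSL

variable {E : Type} [Fintype E] [DecidableEq E] {en : E × Bool → ℕ}

theorem lower (R : Cub en) {S G : Finset ℕ} {l : ℕ} (hG : G ⊆ S) (hS : 1 ≤ S.card)
    (h : 7 * (3 * S.card * 2 ^ l) ≤ 8 * (good R G l).card) :
    49 * 4 ^ l ≤ 64 * ((good R G l ×ˢ good R G l).filter fun q =>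
      (q.1.1, wk R q.1 l) = (q.2.1, wk R q.2 l)).card := by
  have h1 := card_sq_le (good R G l) (darts en S ×ˢ darts en S) (fun w => (w.1, wk R w l))
    fun w hw => by
      obtain ⟨-, h2, -⟩ := mem_good.1 hw
      exact mem_product.2 ⟨mem_darts.2 (hG (h2 0 l.zero_le)), mem_darts.2 (hG (h2 l le_rfl))⟩
  have h2 := R.cubic.card_darts_le S
  rw [card_product] at h1
  have h3 := h1.trans (Nat.mul_le_mul_right _ (Nat.mul_le_mul h2 h2))
  generalize ((good R G l ×ˢ good R G l).filter fun q =>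
      (q.1.1, wk R q.1 l) = (q.2.1, wk R q.2 l)).card = Q at h3 ⊢
  have h4 := Nat.pow_le_pow_left h 2
  have h5 : (4 : ℕ) ^ l = (2 ^ l) ^ 2 := by rw [← pow_mul, mul_comm, pow_mul]; norm_num
  rw [h5]
  refine Nat.le_of_mul_le_mul_left (c := 3 * S.card * (3 * S.card)) ?_ (by positivity)
  calc 3 * S.card * (3 * S.card) * (49 * (2 ^ l) ^ 2) = (7 * (3 * S.card * 2 ^ l)) ^ 2 := by ring
    _ ≤ (8 * (good R G l).card) ^ 2 := h4
    _ = 64 * (good R G l).card ^ 2 := by ring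
    _ ≤ 64 * (3 * S.card * (3 * S.card) * Q) := Nat.mul_le_mul_left _ h3
    _ = _ := by ring

theorem diag (R : Cub en) {S G : Finset ℕ} {l : ℕ} (hG : G ⊆ S) (h : 24 * S.card ≤ 2 ^ l) :
    8 * (good R G l).card ≤ 4 ^ l := by
  have h1 : good R G l ⊆ darts en S ×ˢ (range l).powerset := fun w hw => by
    obtain ⟨h1, h2, -⟩ := mem_good.1 hw
    exact mem_product.2 ⟨mem_darts.2 (hG (h2 0 l.zero_le)),
      mem_powerset.2 fun k hk => mem_range.2 (mem_walks.1 h1 k hk)⟩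
  have h2 := card_le_card h1
  rw [card_product, card_powerset, card_range] at h2
  have h3 := h2.trans (Nat.mul_le_mul_right _ (R.cubic.card_darts_le S))
  have h5 : (4 : ℕ) ^ l = 2 ^ l * 2 ^ l := mul_pow 2 2 l
  rw [h5]
  calc 8 * (good R G l).card ≤ 8 * (3 * S.card * 2 ^ l) := Nat.mul_le_mul_left _ h3
    _ = 24 * S.card * 2 ^ l := by ring
    _ ≤ _ := Nat.mul_le_mul_right _ h

theorem upper (h1 : P1) (R : Cub en) (G : Finset ℕ) {l L : ℕ} (hl : l ≤ L) :
    ((good R G l ×ˢ good R G l).filter fun q =>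
      (q.1.1, wk R q.1 l) = (q.2.1, wk R q.2 l)).card ≤ (good R G l).card +
        ∑ D ∈ fam en G (2 * L), ∑ i ∈ range l, ∑ a ∈ range l,
          (lensP R G l D i a (D.card - a)).card := by
  classical
  have h2 : ((good R G l ×ˢ good R G l).filter fun q =>
      (q.1.1, wk R q.1 l) = (q.2.1, wk R q.2 l)) ⊆ (good R G l).image (fun w => (w, w)) ∪
        (fam en G (2 * L)).biUnion fun D => (range l).biUnion fun i => (range l).biUnion fun a =>
          lensP R G l D i a (D.card - a) := fun q hq => by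
    obtain ⟨hq1, hq2⟩ := mem_filter.1 hq
    obtain ⟨g1, g2⟩ := mem_product.1 hq1
    by_cases he : q.1 = q.2
    · exact mem_union_left _ (mem_image.2 ⟨q.1, g1, Prod.ext rfl he⟩)
    · obtain ⟨D, hD, i, a, a', hL⟩ := h1 en R G l q.1 q.2 g1 g2 he (Prod.mk.inj hq2).1
        (Prod.mk.inj hq2).2
      have b1 := hL.le
      have b2 := hL.card
      have b3 : D.card - a = a' := by omega
      obtain ⟨c1, c2, c3⟩ := mem_fam.1 hD
      refine mem_union_right _ (mem_biUnion.2 ⟨D, mem_fam.2 ⟨c1, by omega, c3⟩,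
        mem_biUnion.2 ⟨i, mem_range.2 (by omega), mem_biUnion.2 ⟨a, mem_range.2 (by omega), ?_⟩⟩⟩)
      rw [b3]
      exact mem_lensP.2 ⟨g1, g2, hL⟩
  refine (card_le_card h2).trans ((card_union_le _ _).trans (add_le_add card_image_le ?_))
  refine card_biUnion_le.trans (sum_le_sum fun D _ => ?_)
  exact card_biUnion_le.trans (sum_le_sum fun i _ => card_biUnion_le)

end PAIRSL

theorem row_pairs (h1 : P1) (h2 : P4) : PAIRS := by
  intro E _ _ en R S G g γ l L hns hγ hl hG hS hgood h24 h256 hwt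
  have a1 := PAIRSL.lower R hG hS hgood
  have a2 := PAIRSL.diag R hG h24
  have a3 := PAIRSL.upper h1 R G hl
  have a4 : 37 * 4 ^ l ≤ 64 * ∑ D ∈ fam en G (2 * L), ∑ i ∈ range l, ∑ a ∈ range l,
      (lensP R G l D i a (D.card - a)).card := by omega
  have a5 : (37 : ℝ) * 4 ^ l ≤ 64 * ∑ D ∈ fam en G (2 * L), ∑ i ∈ range l, ∑ a ∈ range l,
      ((lensP R G l D i a (D.card - a)).card : ℝ) := by exact_mod_cast a4
  have a6 : ∑ D ∈ fam en G (2 * L), ∑ i ∈ range l, ∑ a ∈ range l,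
      ((lensP R G l D i a (D.card - a)).card : ℝ) ≤
        4 ^ l * (8 * (L : ℝ) ^ 3 * (1 / 2) ^ γ * wt (fam en G (2 * L)) +
          ∑ D ∈ fam en G (2 * L), hh l (D.card / 2) * (1 / 2) ^ D.card) := by
    rw [wt, mul_sum, ← sum_add_distrib, mul_sum]
    refine sum_le_sum fun D hD => ?_
    obtain ⟨c1, c2, -⟩ := mem_fam.1 hD
    exact (h2 en R G g γ l L D hns hγ c1.1 hl c2).trans (le_of_eq (by ring))
  have a7 : 8 * (L : ℝ) ^ 3 * (1 / 2) ^ γ ≤ 1 / 32 := by
    have b1 : (256 : ℝ) * (L : ℝ) ^ 3 ≤ 2 ^ γ := by exact_mod_cast h256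
    rw [one_div_pow, mul_one_div, div_le_iff₀ (by positivity)]
    linarith
  have a8 : 8 * (L : ℝ) ^ 3 * (1 / 2) ^ γ * wt (fam en G (2 * L)) ≤ 1 / 32 * 2 :=
    mul_le_mul a7 hwt (sum_nonneg fun _ _ => by positivity) (by norm_num)
  have a9 : (0 : ℝ) < 4 ^ l := by positivity
  generalize ∑ D ∈ fam en G (2 * L), hh l (D.card / 2) * (1 / 2 : ℝ) ^ D.card = H at a6 ⊢
  have b1 := a5.trans (mul_le_mul_of_nonneg_left (a6.trans
    (mul_le_mul_of_nonneg_left (add_le_add a8 le_rfl) a9.le)) (by norm_num))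
  have b2 : (37 : ℝ) ≤ 64 * (1 / 32 * 2 + H) := by
    refine le_of_mul_le_mul_right (b1.trans (le_of_eq ?_)) a9
    ring
  linarith

end Pool.Agent.MP_94842c_co.ES
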