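import Pool.Agent.MP_94842c_co.ES.Spec

/-! Row RED1 of project ES: splitting vertices of degree at least four. -/

set_option autoImplicit false
set_option linter.unusedSectionVars false

namespace Pool.Agent.MP_94842c_co.ES

open Finset

namespace Red1

variable {E : Type} [Fintype E] [DecidableEq E]

/-- Move the darts of `A` to the vertex `w`. -/
def mv (en : E × Bool → ℕ) (A : Finset (E × Bool)) (w : ℕ) (d : E × Bool) : ℕ :=
  if d ∈ A then w else en d

/-- Move the darts of `A` to `w` and join `v` to `w` by a new edge. -/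
def sp (en : E × Bool → ℕ) (A : Finset (E × Bool)) (v w : ℕ) : Option E × Bool → ℕ
  | (some e, b) => mv en A w (e, b)
  | (none, true) => v
  | (none, false) => w

/-- Number of darts of `A` on edges of `X`. -/
def cc (A : Finset (E × Bool)) (X : Finset E) : ℕ := (A.filter fun d => d.1 ∈ X).card

variable {en : E × Bool → ℕ} {A : Finset (E × Bool)} {v w : ℕ}

theorem deg_sp (X : Finset (Option E)) (u : ℕ) : deg (sp en A v w) X u =
    (if none ∈ X then (if v = u then 1 else 0) + (if w = u then 1 else 0) else 0) +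
      deg (mv en A w) (eraseNone X) u := by
  unfold deg
  rw [card_filter, card_filter, Fintype.sum_prod_type, Fintype.sum_prod_type, Fintype.sum_option]
  refine congrArg₂ (· + ·) ?_ ?_
  · rw [Fintype.sum_bool]
    by_cases h : none ∈ X
    · rw [if_pos h]
      exact congrArg₂ (· + ·) (if_congr (and_iff_right h) rfl rfl)
        (if_congr (and_iff_right h) rfl rfl)
    · rw [if_neg h, if_neg fun h' => h h'.1, if_neg fun h' => h h'.1]
  · exact sum_congr rfl fun e _ => sum_congr rfl fun b _ =>
      if_congr (and_congr mem_eraseNone.symm Iff.rfl) rfl rfl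

theorem deg_w (hw : ∀ d, en d ≠ w) (X : Finset E) : deg (mv en A w) X w = cc A X := by
  refine congrArg card ?_
  ext d
  simp only [mem_filter, mem_univ, true_and, mv]
  by_cases h : d ∈ A
  · simp [h]
  · simp [h, hw d]

theorem deg_w0 (hw : ∀ d, en d ≠ w) (X : Finset E) : deg en X w = 0 := by
  rw [deg, card_eq_zero, filter_eq_empty_iff]
  exact fun d _ h => hw d h.2

theorem deg_v (hA : ∀ d ∈ A, en d = v) (hvw : w ≠ v) (X : Finset E) :
    deg (mv en A w) X v + cc A X = deg en X v := by
  unfold deg cc
  rw [← card_union_of_disjoint]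
  · refine congrArg card ?_
    ext d
    simp only [mem_filter, mem_univ, true_and, mv, mem_union]
    by_cases h : d ∈ A
    · simp [h, hvw, hA d h]
    · simp [h]
  · refine disjoint_left.2 fun d h1 h2 => ?_
    simp only [mem_filter, mem_univ, true_and, mv] at h1 h2
    rw [if_pos h2.1] at h1
    exact hvw h1.2

theorem deg_o (hA : ∀ d ∈ A, en d = v) (X : Finset E) {u : ℕ} (h1 : u ≠ v) (h2 : u ≠ w) :
    deg (mv en A w) X u = deg en X u := by
  refine congrArg card ?_
  ext d
  simp only [mem_filter, mem_univ, true_and, mv]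
  by_cases h : d ∈ A
  · simp [h, hA d h, h1.symm, h2.symm]
  · simp [h]

theorem ev_iff (hA : ∀ d ∈ A, en d = v) (hw : ∀ d, en d ≠ w) (hvw : w ≠ v)
    (X : Finset (Option E)) :
    Ev (sp en A v w) X ↔ Ev en (eraseNone X) ∧ (none ∈ X ↔ Odd (cc A (eraseNone X))) := by
  have a1 := deg_w (A := A) hw (eraseNone X)
  have a2 := deg_v hA hvw (eraseNone X)
  have a3 := deg_w0 hw (eraseNone X)
  have b1 := deg_sp (en := en) (A := A) (v := v) (w := w) X w
  have b2 := deg_sp (en := en) (A := A) (v := v) (w := w) X v
  rw [if_neg hvw.symm, if_pos rfl] at b1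
  rw [if_neg hvw, if_pos rfl] at b2
  have b3 : ∀ u, u ≠ v → u ≠ w → deg (sp en A v w) X u = deg en (eraseNone X) u := fun u h1 h2 => by
    rw [deg_sp, deg_o hA _ h1 h2, if_neg h1.symm, if_neg h2.symm]
    simp
  constructor
  · intro h
    have h1 := h w
    have h2 := h v
    refine ⟨fun u => ?_, ?_⟩
    · by_cases e1 : u = v
      · subst e1
        rw [Nat.even_iff] at *
        split_ifs at b1 b2 <;> omega
      · by_cases e2 : u = w
        · rw [e2, a3]; exact Even.zero
        · rw [← b3 u e1 e2]; exact h u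
    · rw [Nat.odd_iff]
      rw [Nat.even_iff] at h1
      by_cases hn : none ∈ X
      · rw [if_pos hn] at b1
        exact iff_of_true hn (by omega)
      · rw [if_neg hn] at b1
        exact iff_of_false hn (by omega)
  · rintro ⟨h, hn⟩ u
    have h2 := h v
    rw [Nat.odd_iff] at hn
    by_cases e1 : u = v
    · subst e1
      rw [Nat.even_iff] at *
      by_cases h0 : none ∈ X
      · rw [if_pos h0] at b2
        have := hn.1 h0
        omega
      · rw [if_neg h0] at b2
        have := mt hn.2 h0
        omega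
    · by_cases e2 : u = w
      · subst e2
        rw [Nat.even_iff]
        by_cases h0 : none ∈ X
        · rw [if_pos h0] at b1
          have := hn.1 h0
          omega
        · rw [if_neg h0] at b1
          have := mt hn.2 h0
          omega
      · rw [b3 u e1 e2]; exact h u

theorem bd_of_sp (hA : ∀ d ∈ A, en d = v) (hw : ∀ d, en d ≠ w) (hvw : w ≠ v) {ε C : ℝ}
    (h : Bd ε C (sp en A v w)) : Bd ε C en := by
  refine transfer (fun X => eraseNone X) (fun X Y hXY => eraseNone.monotone hXY)
    eraseNone_empty (fun X hX => ((ev_iff hA hw hvw X).1 hX).1) (fun X Y hX hY e => ?_)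
    (fun X hX => ?_) h
  · have h1 := ((ev_iff hA hw hvw X).1 hX).2
    have h2 := ((ev_iff hA hw hvw Y).1 hY).2
    have e' : eraseNone X = eraseNone Y := e
    rw [e'] at h1
    ext o
    cases o with
    | none => exact h1.trans h2.symm
    | some a => rw [← mem_eraseNone, ← mem_eraseNone, e']
  · by_cases ho : Odd (cc A X)
    · refine ⟨insertNone X, (ev_iff hA hw hvw _).2 ?_, eraseNone_insertNone X⟩
      rw [eraseNone_insertNone]
      exact ⟨hX, iff_of_true none_mem_insertNone ho⟩
    · refine ⟨X.map Function.Embedding.some, (ev_iff hA hw hvw _).2 ?_, eraseNone_map_some X⟩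
      rw [eraseNone_map_some]
      exact ⟨hX, iff_of_false (by simp) ho⟩

theorem erase_univ : eraseNone (univ : Finset (Option E)) = (univ : Finset E) := by
  ext e; simp [mem_eraseNone]

theorem main (ε C : ℝ) (H : ∀ {E : Type} [Fintype E] [DecidableEq E] (en : E × Bool → ℕ),
    (∀ v, deg en univ v ≤ 3) → Bd ε C en) (T : Finset ℕ) (n : ℕ) :
    ∀ {E : Type} [Fintype E] [DecidableEq E] (en : E × Bool → ℕ),
      (∀ u, u ∉ T → deg en univ u ≤ 3) → ∑ u ∈ T, deg en univ u < n → Bd ε C en := by
  induction n with
  | zero => intro E _ _ en _ h; omega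
  | succ n ih =>
    intro E _ _ en hT hn
    by_cases h3 : ∀ v, deg en univ v ≤ 3
    · exact H en h3
    obtain ⟨v, hv⟩ := not_forall.1 h3
    have hvT : v ∈ T := by_contra fun h => hv (hT v h)
    obtain ⟨A, hA1, hA2⟩ := exists_subset_card_eq
      (s := univ.filter fun d : E × Bool => d.1 ∈ (univ : Finset E) ∧ en d = v) (n := 2)
      (by have : deg en univ v = (univ.filter fun d : E × Bool =>
            d.1 ∈ (univ : Finset E) ∧ en d = v).card := rfl
          omega)
    have hA : ∀ d ∈ A, en d = v := fun d hd => (mem_filter.1 (hA1 hd)).2.2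
    obtain ⟨w, hw0⟩ := Infinite.exists_notMem_finset (T ∪ univ.image en)
    rw [mem_union, not_or] at hw0
    have hw : ∀ d, en d ≠ w := fun d e => hw0.2 (mem_image.2 ⟨d, mem_univ _, e⟩)
    have hvw : w ≠ v := fun e => hw0.1 (e ▸ hvT)
    have hc : cc A (univ : Finset E) = 2 := by simp [cc, hA2]
    have d1 : deg (sp en A v w) univ w = 3 := by
      rw [deg_sp, erase_univ, deg_w hw, hc]; simp [hvw.symm]
    have d2 : deg (sp en A v w) univ v + 1 = deg en univ v := by
      rw [deg_sp, erase_univ, ← deg_v hA hvw, hc]; simp [hvw]; omega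
    have d3 : ∀ u, u ≠ v → u ≠ w → deg (sp en A v w) univ u = deg en univ u := fun u h1 h2 => by
      rw [deg_sp, erase_univ, deg_o hA _ h1 h2]; simp [h1.symm, h2.symm]
    refine bd_of_sp hA hw hvw (ih _ (fun u hu => ?_) ?_)
    · by_cases e : u = w
      · rw [e, d1]
      · rw [d3 u (fun e' => hu (e' ▸ hvT)) e]; exact hT u hu
    · have : ∑ u ∈ T, deg (sp en A v w) univ u < ∑ u ∈ T, deg en univ u := by
        refine sum_lt_sum (fun u hu => ?_) ⟨v, hvT, by omega⟩
        by_cases e : u = v
        · rw [e]; omega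
        · exact (d3 u e fun e' => hw0.1 (e' ▸ hu)).le
      omega

end Red1

theorem row_red1 : RED1 := by
  intro ε C H E _ _ en
  refine Red1.main ε C H (vs en univ) _ en (fun u hu => ?_) (Nat.lt_succ_self _)
  have : ¬ 0 < deg en univ u := fun h => hu (deg_pos.1 h)
  omega

end Pool.Agent.MP_94842c_co.ES
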