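import Pool.Agent.MP_94842c_co.ES.Spec

/-! Project ES, row RED2: reduction to cubic multigraphs. -/

set_option autoImplicit false
set_option linter.unusedSectionVars false

namespace Pool.Agent.MP_94842c_co.ES

open Finset

namespace Red2

variable {E : Type} [Fintype E] [DecidableEq E] {en : E × Bool → ℕ}

/-- Restriction to the edges other than `a`. -/
def res (f : E × Bool → ℕ) (a : E) (x : {e // e ≠ a} × Bool) : ℕ := f (x.1.1, x.2)

theorem deg_res (f : E × Bool → ℕ) (a : E) (Y : Finset {e // e ≠ a}) (v : ℕ) :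
    deg (res f a) Y v = deg f (Y.map (Function.Embedding.subtype _)) v := by
  rw [deg_eq_sum, deg_eq_sum, sum_map]; rfl

theorem not_mem (a : E) (Y : Finset {e // e ≠ a}) :
    a ∉ Y.map (Function.Embedding.subtype _) := fun h => by
  obtain ⟨x, -, hx⟩ := mem_map.1 h
  exact x.2 hx

theorem msub (a : E) (X : Finset E) :
    (X.subtype (· ≠ a)).map (Function.Embedding.subtype _) = X.erase a := by
  rw [subtype_map, filter_ne']

theorem step (a : E) (f : E × Bool → ℕ) (G : Finset E → Finset E)
    (mono : ∀ X Y, X ⊆ Y → G X ⊆ G Y) (g0 : G ∅ = ∅) (er : ∀ X, a ∉ X → (G X).erase a = X)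
    (ev : ∀ X, a ∉ X → (Ev f X ↔ Ev en (G X))) (su : ∀ X, Ev en X → G (X.erase a) = X)
    {ε C : ℝ} (h : Bd ε C (res f a)) : Bd ε C en := by
  have e1 : ∀ Y : Finset {e // e ≠ a}, Ev (res f a) Y ↔
      Ev en (G (Y.map (Function.Embedding.subtype _))) := fun Y => by
    rw [← ev _ (not_mem a Y)]
    exact forall_congr' fun v => by rw [deg_res]
  refine transfer (fun Y => G (Y.map (Function.Embedding.subtype _)))
    (fun X Y hXY => mono _ _ (map_subset_map.2 hXY)) (by rw [map_empty, g0])
    (fun X hX => (e1 X).1 hX) (fun X Y _ _ e => ?_) (fun X hX => ?_) h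
  · refine map_injective (Function.Embedding.subtype _) ?_
    rw [← er _ (not_mem a X), ← er _ (not_mem a Y)]
    exact congrArg (·.erase a) e
  · refine ⟨X.subtype (· ≠ a), (e1 _).2 ?_, ?_⟩
    · rw [msub, su X hX]; exact hX
    · rw [msub, su X hX]

theorem deg_sum (f : E × Bool → ℕ) (X : Finset E) (v : ℕ) : deg f X v =
    ∑ x ∈ univ.filter fun x : E × Bool => x.1 ∈ X, if f x = v then 1 else 0 := by
  rw [deg, ← filter_filter, card_filter]

theorem deg_update (d : E × Bool) (w : ℕ) (X : Finset E) (v : ℕ) :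
    deg (Function.update en d w) X v + (if d.1 ∈ X ∧ v = en d then 1 else 0) =
      deg en X v + (if d.1 ∈ X ∧ v = w then 1 else 0) := by
  rw [deg_sum, deg_sum]
  by_cases h : d.1 ∈ X
  · have hd : d ∈ univ.filter fun x : E × Bool => x.1 ∈ X := mem_filter.2 ⟨mem_univ _, h⟩
    rw [← add_sum_erase _ _ hd, ← add_sum_erase _ _ hd, Function.update_self,
      sum_congr rfl fun x hx => by rw [Function.update_of_ne (ne_of_mem_erase hx)]]
    simp only [h, true_and, @eq_comm _ v]
    omega
  · simp only [h, false_and, if_false, add_zero]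
    refine sum_congr rfl fun x hx => ?_
    rw [Function.update_of_ne fun e : x = d => h (e ▸ (mem_filter.1 hx).2)]

theorem deg_insert (d : E × Bool) {X : Finset E} (h : d.1 ∉ X) (v : ℕ) :
    deg en (insert d.1 X) v =
      deg en X v + ((if v = en d then 1 else 0) + (if v = en (rev d) then 1 else 0)) := by
  rw [insert_eq, deg_union (disjoint_singleton_left.2 h), deg_single, add_comm]

/-- An even set that uses a dart uses another dart at the same vertex. -/
theorem other {X : Finset E} (hX : Ev en X) {d : E × Bool} (h : d.1 ∈ X) :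
    ∃ x : E × Bool, x.1 ∈ X ∧ en x = en d ∧ x ≠ d := by
  by_contra hn
  have : deg en X (en d) = 1 := card_eq_one.2 ⟨d, eq_singleton_iff_unique_mem.2
    ⟨mem_filter.2 ⟨mem_univ _, h, rfl⟩, fun x hx => not_not.1 fun e =>
      hn ⟨x, (mem_filter.1 hx).2.1, (mem_filter.1 hx).2.2, e⟩⟩⟩
  have h2 := hX (en d)
  rw [this] at h2
  exact Nat.not_even_one h2

end Red2

open Red2 in
theorem row_red2 : RED2 := by
  intro ε C hε hC h3 E _ _ en
  induction' hn : Fintype.card E using Nat.strong_induction_on with n ih generalizing E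
  intro hd
  by_cases hc : Cubic en
  · exact h3 en hc
  obtain ⟨d, hd3⟩ := not_forall.1 hc
  have IH : ∀ (a : E) (f : E × Bool → ℕ), (∀ v, deg f (univ.erase a) v ≤ 3) →
      Bd ε C (res f a) := fun a f hf =>
    ih _ (hn ▸ Fintype.card_subtype_lt (x := a) fun h => h rfl) _ rfl fun v => by
      rw [deg_res, ← subtype_univ, msub]; exact hf v
  by_cases h1 : ∀ x, en x = en d → x = d
  · refine step d.1 en id (fun _ _ h => h) rfl (fun X h => erase_eq_of_notMem h)
      (fun _ _ => Iff.rfl) (fun X hX => erase_eq_of_notMem fun h => ?_)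
      (IH _ _ fun v => (deg_mono (subset_univ _) v).trans (hd v))
    obtain ⟨x, -, a, b⟩ := other hX h
    exact b (h1 x a)
  obtain ⟨d', h2⟩ := not_forall.1 h1
  obtain ⟨h2, hne⟩ := Classical.not_imp.1 h2
  have all : ∀ x, en x = en d → x = d ∨ x = d' := fun x hx => by
    by_contra hh
    obtain ⟨a, b⟩ := not_or.1 hh
    have : 2 < deg en univ (en d) := two_lt_card_iff.2 ⟨x, d, d', by simp [hx], by simp, by simp [h2],
      a, b, fun e => hne e.symm⟩
    have := hd (en d)
    omega
  by_cases hl : d'.1 = d.1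
  · refine bd_of_loop (d := d) ?_ hε hC
    rw [← (eq_or_rev hl).resolve_left hne, h2]
  have key : ∀ X, d'.1 ∉ X → ∀ v, deg en (if d.1 ∈ X then insert d'.1 X else X) v =
      deg (Function.update en d (en (rev d'))) X v +
        2 * (if d.1 ∈ X ∧ v = en d then 1 else 0) := fun X hX v => by
    have := deg_update (en := en) d (en (rev d')) X v
    by_cases h : d.1 ∈ X
    · rw [if_pos h, deg_insert d' hX, h2]
      simp only [h, true_and] at this ⊢
      omega
    · simp only [h, false_and, if_false, add_zero, mul_zero] at this ⊢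
      exact this.symm
  refine step d'.1 (Function.update en d (en (rev d')))
    (fun X => if d.1 ∈ X then insert d'.1 X else X) (fun X Y h => ?_) (by simp) (fun X h => ?_)
    (fun X h => forall_congr' fun v => ?_) (fun X hX => ?_) (IH _ _ fun v => ?_)
  · by_cases a : d.1 ∈ X
    · rw [if_pos a, if_pos (h a)]; exact insert_subset_insert _ h
    · rw [if_neg a]
      split_ifs
      exacts [h.trans (subset_insert _ _), h]
  · split_ifs
    exacts [erase_insert h, erase_eq_of_notMem h]
  · rw [key X h, Nat.even_iff, Nat.even_iff]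
    omega
  · by_cases a : d.1 ∈ X
    · rw [if_pos (mem_erase.2 ⟨fun e => hl e.symm, a⟩)]
      obtain ⟨x, x1, x2, x3⟩ := other hX a
      exact insert_erase ((all x x2).resolve_left x3 ▸ x1)
    · rw [if_neg fun h => a (mem_of_mem_erase h)]
      refine erase_eq_of_notMem fun h => ?_
      obtain ⟨x, x1, x2, x3⟩ := other hX h
      exact a ((all x (x2.trans h2)).resolve_right x3 ▸ x1)
  · have a := key _ (notMem_erase d'.1 univ) v
    have b := (deg_mono (en := en) (subset_univ
      (if d.1 ∈ univ.erase d'.1 then insert d'.1 (univ.erase d'.1) else univ.erase d'.1)) v).trans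
      (hd v)
    omega

end Pool.Agent.MP_94842c_co.ES
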