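import Pool.Agent.MP_94842c_co.ES.Spec

/-! A cubic multigraph has a pair of successor maps (project ES). -/

set_option autoImplicit false

namespace Pool.Agent.MP_94842c_co.ES

open Finset

namespace RotRow

variable {E : Type} [Fintype E] [DecidableEq E] {en : E × Bool → ℕ}

theorem fibre (h : Cubic en) (v : ℕ) : ∃ f : E × Bool → ZMod 3, ∀ d, en d = v →
    (∀ e e', en e = v → en e' = v → f e = f e' → e = e') ∧ ∀ c, ∃ e, en e = v ∧ f e = c := by
  by_cases hv : ∃ d, en d = v
  · obtain ⟨d, rfl⟩ := hv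
    obtain ⟨a, b, c, hab, hac, hbc, he⟩ := card_eq_three.1 (h d)
    have hm : ∀ e, en e = en d ↔ e = a ∨ e = b ∨ e = c := fun e => by
      simpa using Finset.ext_iff.1 he e
    have hba := hab.symm
    have hca := hac.symm
    have hcb := hbc.symm
    let f : E × Bool → ZMod 3 := fun e => if e = a then 0 else if e = b then 1 else 2
    have fa : f a = 0 := if_pos rfl
    have fb : f b = 1 := (if_neg hba).trans (if_pos rfl)
    have fc : f c = 2 := (if_neg hca).trans (if_neg hcb)
    refine ⟨f, fun _ _ => ⟨fun e e' h1 h2 h3 => ?_, fun k => ?_⟩⟩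
    · rcases (hm e).1 h1 with r | r | r <;> rcases (hm e').1 h2 with s | s | s <;>
        rw [r, s] at h3 ⊢ <;> simp only [fa, fb, fc] at h3 <;> exact absurd h3 (by decide)
    · have hk : k = 0 ∨ k = 1 ∨ k = 2 := by revert k; decide
      rcases hk with rfl | rfl | rfl
      exacts [⟨a, (hm a).2 (Or.inl rfl), fa⟩, ⟨b, (hm b).2 (Or.inr (Or.inl rfl)), fb⟩,
        ⟨c, (hm c).2 (Or.inr (Or.inr rfl)), fc⟩]
  · exact ⟨fun _ => 0, fun d hd => absurd ⟨d, hd⟩ hv⟩

theorem index (h : Cubic en) : ∃ f : E × Bool → ZMod 3,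
    (∀ e e', en e = en e' → f e = f e' → e = e') ∧ ∀ d c, ∃ e, en e = en d ∧ f e = c := by
  choose f hf using fibre h
  refine ⟨fun d => f (en d) d, fun e e' h1 h2 => ?_, fun d c => ?_⟩
  · refine (hf (en e') e' rfl).1 e e' h1 rfl ?_
    simpa only [h1] using h2
  · obtain ⟨e, h1, h2⟩ := (hf (en d) d rfl).2 c
    exact ⟨e, h1, by simpa only [h1] using h2⟩

end RotRow

theorem row_rot : ROT := by
  intro E _ _ en h
  obtain ⟨f, hi, hs⟩ := RotRow.index h
  choose g g1 g2 using hs
  let k : Bool → ZMod 3 := fun b => if b then 1 else 2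
  let s : Bool → E × Bool → E × Bool := fun b d => g (rev d) (f (rev d) + k b)
  have s1 : ∀ b d, en (s b d) = en (rev d) := fun b d => g1 _ _
  have s2 : ∀ b d, f (s b d) = f (rev d) + k b := fun b d => g2 _ _
  have inj : ∀ b, Function.Injective (s b) := fun b d e he => by
    refine rev_inj (hi _ _ (by rw [← s1 b d, he, s1]) ?_)
    have h1 := s2 b d
    rw [he, s2] at h1
    exact (add_right_cancel h1).symm
  refine ⟨⟨fun b => Equiv.ofBijective (s b) (Finite.injective_iff_bijective.1 (inj b)), s1,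
    fun b d he => ?_, fun d he => ?_, fun d e he => ?_⟩⟩
  · have h1 := s2 b d
    have he' : s b d = rev d := he
    rw [he', left_eq_add] at h1
    revert h1
    cases b <;> decide
  · have h1 := s2 true d
    have he' : s true d = s false d := he
    rw [he', s2] at h1
    exact absurd (add_left_cancel h1) (by decide)
  · have hk : ∀ x y : ZMod 3, x = y ∨ x = y + 1 ∨ x = y + 2 := by decide
    rcases hk (f e) (f (rev d)) with r | r | r
    · exact Or.inl (hi _ _ he r)
    · exact Or.inr (Or.inl (hi _ _ (he.trans (s1 true d).symm) (r.trans (s2 true d).symm)))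
    · exact Or.inr (Or.inr (hi _ _ (he.trans (s1 false d).symm) (r.trans (s2 false d).symm)))

end Pool.Agent.MP_94842c_co.ES
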