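import Pool.Agent.MP_94842c_co.ES.Spec

/-! Walks with a segment on an even set (project ES). -/

set_option autoImplicit false

namespace Pool.Agent.MP_94842c_co.ES

open Finset

theorem row_seg : SEG := by
  intro E _ _ en R l D i a hD ha hl
  rw [← card_dartsOf D, mul_comm]
  refine card_le_mul_card_image_of_maps_to (f := fun w => wk R w (i + 1)) (fun w hw => ?_) _
    fun c _ => ?_
  · exact mem_filter.2 ⟨mem_univ _, (mem_seg.1 hw).2 1 le_rfl ha⟩
  refine (card_le_of_bits (i := i + 1) (j := i + a) hl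
    (fun w hw => (mem_seg.1 (mem_filter.1 hw).1).1) fun w hw w' hw' hb => ?_).trans_eq
    (by congr 1; omega)
  rw [mem_filter, mem_seg] at hw hw'
  have e : wk R w (i + 1) = wk R w' (i + 1) := hw.2.trans hw'.2.symm
  have f := follow R.cubic hD (p := fun k => wk R w (i + 1 + k)) (q := fun k => wk R w' (i + 1 + k))
    (a := a - 1) ((wk_ch R w _).shift le_rfl) ((wk_nb R w _).shift le_rfl)
    ((wk_ch R w' _).shift le_rfl) ((wk_nb R w' _).shift le_rfl) e
    (fun k hk => by rw [add_assoc]; exact hw.1.2 _ (by omega) (by omega))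
    fun k hk => by rw [add_assoc]; exact hw'.1.2 _ (by omega) (by omega)
  have bits : ∀ k, k ∈ w.2 ↔ k ∈ w'.2 := fun k => by
    by_cases c : k < i + 1 ∨ i + a ≤ k
    · exact hb k c
    · obtain ⟨m, rfl⟩ : ∃ m, k = i + 1 + m := ⟨k - (i + 1), by omega⟩
      exact wk_bit R (f m (by omega)) (f (m + 1) (by omega))
  exact Prod.ext (wk_bwd R (i + 1).zero_le e fun k _ _ => bits k) (Finset.ext bits)

end Pool.Agent.MP_94842c_co.ES
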