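import Pool.Agent.MP_94842c_co.ES.Spec

/-! Row SM: the second moment bound. -/

set_option autoImplicit false

namespace Pool.Agent.MP_94842c_co.ES

open Finset
open scoped symmDiff

namespace SML

variable {E : Type} [Fintype E] [DecidableEq E] {en : E × Bool → ℕ}

theorem deg_inter (h : Cubic en) {D D' C : Finset E} (hD : Ev en D) (hD' : Ev en D')
    (hC : Ev en C) (h1 : D ⊆ C) (h2 : D' ⊆ C) (v : ℕ) :
    Even (deg en (D ∩ D') v) ∧ (0 < deg en D v → 0 < deg en D' v → 0 < deg en (D ∩ D') v) := by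
  have a1 := deg_symmDiff (en := en) D D' v
  have a2 : Disjoint (D ∆ D') (D ∩ D') := disjoint_left.2 fun e he he' => by
    rw [mem_symmDiff] at he
    rw [mem_inter] at he'
    rcases he with he | he
    exacts [he.2 he'.2, he.2 he'.1]
  have a3 := deg_union (en := en) a2 v
  have a4 : deg en (D ∆ D' ∪ D ∩ D') v ≤ deg en C v :=
    deg_mono (union_subset ((symmDiff_sub D D').trans (union_subset h1 h2))
      (inter_subset_left.trans h1)) v
  have a5 := h.deg_le C v
  have a6 : deg en (D ∩ D') v ≤ deg en D v := deg_mono inter_subset_left v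
  have a7 : deg en (D ∩ D') v ≤ deg en D' v := deg_mono inter_subset_right v
  have a8 := deg_mono (en := en) h1 v
  have a9 := deg_mono (en := en) h2 v
  have b1 := hD v
  have b2 := hD' v
  have b3 := hC v
  rw [Nat.even_iff] at b1 b2 b3 ⊢
  omega

theorem eq_of_common (h : Cubic en) {D D' C : Finset E} (hD : Circ en D) (hD' : Circ en D')
    (hC : Ev en C) (h1 : D ⊆ C) (h2 : D' ⊆ C) (hd : ¬ Disjoint (vs en D) (vs en D')) :
    D = D' := by
  obtain ⟨v, hv, hv'⟩ := not_disjoint_iff.1 hd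
  have he : Ev en (D ∩ D') := fun u => (deg_inter h hD.1 hD'.1 hC h1 h2 u).1
  have hp := (deg_inter h hD.1 hD'.1 hC h1 h2 v).2 (deg_pos.2 hv) (deg_pos.2 hv')
  obtain ⟨d, hd1, -⟩ := mem_vs.1 (deg_pos.1 hp)
  exact (hD.2.2 _ he inter_subset_left ⟨_, hd1⟩).symm.trans
    (hD'.2.2 _ he inter_subset_right ⟨_, hd1⟩)

theorem cnt_pos {D : Finset E} (hD : Ev en D) : 0 < cnt en D :=
  card_pos.2 ⟨D, mem_filter.2 ⟨mem_Z.2 hD, Subset.refl _⟩⟩

theorem sum_ind (D : Finset E) (x : ℝ) :
    ∑ C ∈ Z en, (if D ⊆ C then x else 0) = x * cnt en D := by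
  rw [← sum_filter, sum_const, nsmul_eq_mul, mul_comm]
  rfl

theorem moment (F : Finset (Finset E)) (b : Finset E → ℝ) :
    (∑ D ∈ F, b D * cnt en D) ^ 2 ≤
      hit en F * ∑ D ∈ F, ∑ D' ∈ F, b D * b D' * cnt en (D ∪ D') := by
  have e1 : ∑ D ∈ F, b D * cnt en D = ∑ C ∈ (Z en).filter fun C => ∃ D ∈ F, D ⊆ C,
      ∑ D ∈ F, (if D ⊆ C then b D else 0) := by
    rw [sum_filter_of_ne, sum_comm]
    · exact sum_congr rfl fun D _ => (sum_ind D (b D)).symm
    · intro C _ hne
      obtain ⟨D, hD, h0⟩ := exists_ne_zero_of_sum_ne_zero hne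
      refine ⟨D, hD, ?_⟩
      by_contra hc
      exact h0 (if_neg hc)
  have e2 : ∑ D ∈ F, ∑ D' ∈ F, b D * b D' * cnt en (D ∪ D') =
      ∑ C ∈ Z en, (∑ D ∈ F, (if D ⊆ C then b D else 0)) ^ 2 := by
    simp only [sq, sum_mul_sum]
    rw [sum_comm (s := Z en)]
    refine sum_congr rfl fun D _ => ?_
    rw [sum_comm (s := Z en)]
    refine sum_congr rfl fun D' _ => ?_
    rw [← sum_ind]
    refine sum_congr rfl fun C _ => ?_
    by_cases h1 : D ⊆ C <;> by_cases h2 : D' ⊆ C <;> simp [h1, h2, union_subset_iff]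
  rw [e1, e2]
  refine sq_sum_le_card_mul_sum_sq.trans (mul_le_mul_of_nonneg_left ?_ (Nat.cast_nonneg _))
  exact sum_le_sum_of_subset_of_nonneg (filter_subset _ _) fun _ _ _ => sq_nonneg _

theorem term (h1 : LIN1) (h2 : LIN2) (h : Cubic en) {D D' : Finset E} (hD : Circ en D)
    (hD' : Circ en D') {a a' : ℝ} {k : ℕ} (ha : 0 ≤ a) (ha' : 0 ≤ a')
    (hb : a' ≤ (1 / 2) ^ D'.card) (hk : Disjoint (vs en D) (vs en D') → Rho en D D' k) :
    a * (Z en).card / cnt en D * (a' * (Z en).card / cnt en D') * cnt en (D ∪ D') ≤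
      (Z en).card * ((if D = D' then a else 0) + a * a' * k) := by
  have c1 : (0 : ℝ) < cnt en D := Nat.cast_pos.2 (cnt_pos hD.1)
  have c2 : (0 : ℝ) < cnt en D' := Nat.cast_pos.2 (cnt_pos hD'.1)
  have hN : (0 : ℝ) ≤ (Z en).card := Nat.cast_nonneg _
  have hk0 : 0 ≤ a * a' * k := mul_nonneg (mul_nonneg ha ha') (Nat.cast_nonneg _)
  by_cases he : D = D'
  · subst he
    rw [if_pos rfl, union_self]
    have l1 : ((Z en).card : ℝ) ≤ 2 ^ D.card * cnt en D := by exact_mod_cast h1 en D hD.1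
    have l2 : a' * (Z en).card / cnt en D ≤ 1 := by
      rw [div_le_one c1]
      refine (mul_le_mul hb l1 hN (by positivity)).trans (le_of_eq ?_)
      rw [← mul_assoc, ← mul_pow]
      norm_num
    have l3 : a * (Z en).card / cnt en D * (a' * (Z en).card / cnt en D) * cnt en D =
        (Z en).card * a * (a' * (Z en).card / cnt en D) := by
      field_simp
    rw [l3, mul_add]
    exact (mul_le_of_le_one_right (mul_nonneg hN ha) l2).trans
      (le_add_of_nonneg_right (mul_nonneg hN hk0))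
  · rw [if_neg he, zero_add]
    by_cases hd : Disjoint (vs en D) (vs en D')
    · have l1 : (cnt en (D ∪ D') : ℝ) * (Z en).card ≤ k * cnt en D * cnt en D' := by
        exact_mod_cast h2 en D D' k hD.1 hD'.1 (disjoint_of_vs hd) (hk hd)
      have l2 : a * (Z en).card / cnt en D * (a' * (Z en).card / cnt en D') * cnt en (D ∪ D') =
          (Z en).card * (a * a') * (cnt en (D ∪ D') * (Z en).card / (cnt en D * cnt en D')) := by
        field_simp
      rw [l2, ← mul_assoc ((Z en).card : ℝ) (a * a')]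
      refine mul_le_mul_of_nonneg_left ?_ (mul_nonneg hN (mul_nonneg ha ha'))
      rw [div_le_iff₀ (mul_pos c1 c2), ← mul_assoc]
      exact l1
    · have l1 : cnt en (D ∪ D') = 0 := by
        rw [cnt, card_eq_zero, filter_eq_empty_iff]
        intro C hC hs
        rw [union_subset_iff] at hs
        exact he (eq_of_common h hD hD' (mem_Z.1 hC) hs.1 hs.2 hd)
      rw [l1, Nat.cast_zero, mul_zero]
      exact mul_nonneg hN hk0

end SML

theorem row_sm (h1 : LIN1) (h2 : LIN2) : SM := by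
  intro E _ _ en hc F a k hF ha hk
  have hN : (0 : ℝ) < (Z en).card := Nat.cast_pos.2 (card_pos.2 ⟨∅, mem_Z.2 ev_empty⟩)
  have m := SML.moment (en := en) F fun D => a D * (Z en).card / cnt en D
  have e1 : ∑ D ∈ F, a D * (Z en).card / cnt en D * cnt en D = (∑ D ∈ F, a D) * (Z en).card := by
    rw [sum_mul]
    exact sum_congr rfl fun D hD =>
      div_mul_cancel₀ _ (Nat.cast_pos.2 (SML.cnt_pos (hF D hD).1)).ne'
  have e2 : ∑ D ∈ F, ∑ D' ∈ F, a D * (Z en).card / cnt en D * (a D' * (Z en).card / cnt en D') *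
      cnt en (D ∪ D') ≤
        (Z en).card * (∑ D ∈ F, a D + ∑ D ∈ F, ∑ D' ∈ F, a D * a D' * k D D') := by
    rw [← sum_add_distrib, mul_sum]
    refine sum_le_sum fun D hD => ?_
    refine (sum_le_sum fun D' hD' => SML.term h1 h2 hc (hF D hD) (hF D' hD') (ha D hD).1
      (ha D' hD').1 (ha D' hD').2 (hk D hD D' hD')).trans (le_of_eq ?_)
    rw [← mul_sum, sum_add_distrib, sum_ite_eq, if_pos hD]
  rw [e1] at m
  have m2 := m.trans (mul_le_mul_of_nonneg_left e2 (Nat.cast_nonneg _))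
  refine le_of_mul_le_mul_right ?_ hN
  refine (le_of_eq ?_).trans (m2.trans (le_of_eq ?_))
  · ring
  · ring

end Pool.Agent.MP_94842c_co.ES
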