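import Pool.Agent.MP_94842c_co.ES.Spec

/-! Circuits that contain a short circuit are few (project ES). -/

set_option autoImplicit false

namespace Pool.Agent.MP_94842c_co.ES

open Finset

theorem SMALL.card_le (E : Type) [Fintype E] [DecidableEq E] (t : ℕ) :
    (univ.filter fun X : Finset E => X.card ≤ t).card ≤ (Fintype.card E + 1) ^ t := by
  induction t with
  | zero =>
    rw [pow_zero, card_le_one]
    intro a ha b hb
    rw [mem_filter, Nat.le_zero, card_eq_zero] at ha hb
    rw [ha.2, hb.2]
  | succ t ih =>
    have h : (univ.filter fun X : Finset E => X.card ≤ t + 1) ⊆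
        (univ.filter fun X : Finset E => X.card ≤ t) ∪
        ((univ : Finset E) ×ˢ univ.filter fun X : Finset E => X.card ≤ t).image
          fun q => insert q.1 q.2 := by
      intro X hX
      simp only [mem_filter, mem_univ, true_and, mem_union, mem_image, mem_product] at hX ⊢
      rcases X.eq_empty_or_nonempty with rfl | ⟨e, he⟩
      · simp
      · exact Or.inr ⟨(e, X.erase e), by rw [card_erase_of_mem he]; omega, insert_erase he⟩
    refine (card_le_card h).trans ((card_union_le _ _).trans
      ((add_le_add le_rfl card_image_le).trans ?_))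
    rw [card_product, card_univ, pow_succ]
    nlinarith

theorem row_small : SMALL := by
  intro E _ _ en F t hF
  rw [hit, ← card_union_add_card_inter]
  refine add_le_add (card_le_card (union_subset (fun D hD => mem_Z.2 (mem_circs.1 hD).1)
    (filter_subset _ _))) (le_trans (card_le_card fun C hC => ?_) (SMALL.card_le E t))
  rw [mem_inter, mem_filter] at hC
  obtain ⟨h1, -, D, h2, h3⟩ := hC
  rw [mem_filter, ← (mem_circs.1 h1).2.2 D (hF D h2).1.1 h3 (hF D h2).1.2.1]
  exact ⟨mem_univ _, (hF D h2).2⟩

end Pool.Agent.MP_94842c_co.ES
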