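import Pool.Agent.MP_94842c_co.ES.Spec

/-! The kernel has bounded mass (project ES). -/

set_option autoImplicit false

namespace Pool.Agent.MP_94842c_co.ES

open Finset

theorem SUMA.geo (n : ℕ) :
    ∑ j ∈ range n, (j : ℝ) * (1 / 2) ^ j = 2 - 2 * (n + 1) * (1 / 2) ^ n := by
  induction n with
  | zero => simp
  | succ n ih => rw [sum_range_succ, ih]; push_cast; ring

theorem row_suma : SUMA := by
  intro a l0 L h
  have h1 : ∀ l ∈ Icc l0 L, hh l a / l ≤ 8 * (((l - a : ℕ) : ℝ) * (1 / 2) ^ (l - a)) := by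
    intro l hl
    have hl0 : (0 : ℝ) < l := by exact_mod_cast h.trans (mem_Icc.1 hl).1
    rcases le_total l a with c | c
    · simp [hh, Nat.sub_eq_zero_of_le c]
    · have c' : (a : ℝ) ≤ l := by exact_mod_cast c
      have : 0 ≤ ((l - a : ℕ) : ℝ) * (1 / 2) ^ (l - a) := by positivity
      rw [div_le_iff₀ hl0, hh]
      nlinarith
  refine (sum_le_sum h1).trans ?_
  rw [← mul_sum]
  have h2 : ∑ l ∈ Icc l0 L, ((l - a : ℕ) : ℝ) * (1 / 2) ^ (l - a) ≤
      ∑ l ∈ range (a + (L + 1)), ((l - a : ℕ) : ℝ) * (1 / 2) ^ (l - a) :=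
    sum_le_sum_of_subset_of_nonneg (fun l hl => by rw [mem_Icc] at hl; rw [mem_range]; omega)
      fun _ _ _ => by positivity
  rw [sum_range_add, sum_eq_zero (s := range a) fun l hl => by
    rw [Nat.sub_eq_zero_of_le (mem_range.1 hl).le]; simp, zero_add] at h2
  simp only [Nat.add_sub_cancel_left] at h2
  rw [SUMA.geo] at h2
  have : (0 : ℝ) ≤ 2 * (((L + 1 : ℕ) : ℝ) + 1) * (1 / 2) ^ (L + 1) := by positivity
  linarith

end Pool.Agent.MP_94842c_co.ES
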