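import Pool.Agent.MP_94842c_co.ES.Spec

/-! Row THRU: the weight of the short circuits through a vertex. -/

set_option autoImplicit false

namespace Pool.Agent.MP_94842c_co.ES

open Finset

namespace Thru

theorem sum_cover {α β : Type} (s : Finset α) (I : Finset β) (P : β → α → Prop)
    [∀ i, DecidablePred (P i)] (f : α → ℝ) (hf : ∀ x, 0 ≤ f x)
    (h : ∀ x ∈ s, ∃ i ∈ I, P i x) : ∑ x ∈ s, f x ≤ ∑ i ∈ I, ∑ x ∈ s.filter (P i), f x := by
  simp only [sum_filter]
  rw [sum_comm]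
  refine sum_le_sum fun x hx => ?_
  obtain ⟨i, hi, hp⟩ := h x hx
  refine le_trans ?_ (single_le_sum (f := fun i => if P i x then f x else 0) (fun j _ => ?_) hi)
  · rw [if_pos hp]
  · split_ifs
    exacts [hf x, le_rfl]

variable {E : Type} [Fintype E] [DecidableEq E] {en : E × Bool → ℕ}

theorem ins (R : Cub en) {G : Finset ℕ} {D : Finset E} {d : E × Bool} {b : Finset ℕ} {t : ℕ}
    (hG : vs en D ⊆ G) (hd : d.1 ∈ D) (h1 : edges (wk R (d, b)) t = D)
    (h2 : en (wk R (d, b) t) = en d) : Ins en (wk R (d, b)) t G := fun k hk => by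
  rcases hk.lt_or_eq with hk | rfl
  · exact hG (en_mem_vs (h1 ▸ mem_edges.2 ⟨k, hk, rfl⟩))
  · exact h2 ▸ hG (en_mem_vs hd)

theorem fibre (h1 : TRACE) (h2 : SHORT) (h3 : UNIQ) (R : Cub en) {G : Finset ℕ} {g γ t : ℕ}
    (hn : NS en G g) (hγ : 2 * γ ≤ g) (ht : γ ≤ t) (d : E × Bool) (F : Finset (Finset E))
    (hF : ∀ D ∈ F, Circ en D ∧ vs en D ⊆ G ∧ d.1 ∈ D ∧ D.card = t) : F.card ≤ 2 ^ (t - γ) := by
  have key : ∀ D, ∃ b : Finset ℕ, D ∈ F → edges (wk R (d, b)) t = D ∧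
      en (wk R (d, b) t) = en d := fun D => by
    by_cases hD : D ∈ F
    · obtain ⟨a1, -, a3, a4⟩ := hF D hD
      obtain ⟨b, -, b2, b3, -⟩ := h1 en R D d a1 a3
      exact ⟨b, fun _ => a4 ▸ ⟨b2, b3⟩⟩
    · exact ⟨∅, fun h => (hD h).elim⟩
  choose b hb using key
  rw [← card_range (t - γ), ← card_powerset]
  refine card_le_card_of_injOn (fun D => b D ∩ range (t - γ)) (fun D _ => ?_)
    fun D hD D' hD' e => ?_
  · rw [mem_coe, mem_powerset]; exact inter_subset_right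
  obtain ⟨a1, a2⟩ := hb D hD
  obtain ⟨c1, c2⟩ := hb D' hD'
  have i1 := ins R (hF D hD).2.1 (hF D hD).2.2.1 a1 a2
  have i2 := ins R (hF D' hD').2.1 (hF D' hD').2.2.1 c1 c2
  have e1 : ∀ k, k ≤ t - γ → wk R (d, b D) k = wk R (d, b D') k := fun k hk =>
    wk_fwd R k.zero_le rfl fun j _ hj => by
      have h := Finset.ext_iff.1 e j
      have h' : j < t - γ := by omega
      simpa [h'] using h
  have hs : t - γ + γ ≤ t := by omega
  have hs' : t - γ + γ = t := by omega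
  have c : ∀ w, Ch en (fun k => wk R w (t - γ + k)) γ := fun w => (wk_ch R w t).shift hs
  have e2 := (h3 en G g _ _ γ γ hn (c _) (c _)
    (h2 en G g _ γ hn (c _) ((wk_nb R _ t).shift hs) (i1.shift hs) (by omega))
    (h2 en G g _ γ hn (c _) ((wk_nb R _ t).shift hs) (i2.shift hs) (by omega))
    (i1.shift hs) (i2.shift hs) (by omega) (congrArg en (e1 _ le_rfl))
    (by rw [hs', a2, c2])).2
  rw [← a1, ← c1]
  refine image_congr fun k hk => congrArg Prod.fst ?_
  rw [mem_coe, mem_range] at hk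
  by_cases h : k ≤ t - γ
  · exact e1 k h
  · have := e2 (k - (t - γ)) (by omega)
    rwa [show t - γ + (k - (t - γ)) = k by omega] at this

end Thru

theorem row_thru (h1 : TRACE) (h2 : SHORT) (h3 : UNIQ) : THRU := by
  intro E _ _ en R G g γ M v hn hγ
  refine (Thru.sum_cover _ (darts en {v} ×ˢ Icc 1 M) (fun i D => i.1.1 ∈ D ∧ D.card = i.2) _
    (fun _ => by positivity) fun D hD => ?_).trans ?_
  · obtain ⟨a1, a2⟩ := mem_filter.1 hD
    obtain ⟨b1, b2, -⟩ := mem_fam.1 a1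
    obtain ⟨d, d1, d2⟩ := mem_vs.1 a2
    exact ⟨(d, D.card), mem_product.2 ⟨mem_darts.2 (mem_singleton.2 d2),
      mem_Icc.2 ⟨b1.2.1.card_pos, b2⟩⟩, d1, rfl⟩
  refine (sum_le_card_nsmul _ _ ((1 / 2 : ℝ) ^ γ) fun i _ => ?_).trans ?_
  · generalize hF : (((fam en G M).filter fun D => v ∈ vs en D).filter
      fun D => i.1.1 ∈ D ∧ D.card = i.2) = F
    have hF' : ∀ D ∈ F, Circ en D ∧ vs en D ⊆ G ∧ i.1.1 ∈ D ∧ D.card = i.2 := fun D hD => by
      rw [← hF, mem_filter, mem_filter, mem_fam] at hD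
      exact ⟨hD.1.1.1, hD.1.1.2.2, hD.2⟩
    rcases F.eq_empty_or_nonempty with rfl | ⟨D, hD⟩
    · rw [sum_empty]; positivity
    obtain ⟨a1, a2, -, a4⟩ := hF' D hD
    have ht : γ ≤ i.2 := by
      by_contra hc
      exact a1.2.1.ne_empty (hn D a1.1 (by omega) a2)
    have hc : (F.card : ℝ) ≤ 2 ^ (i.2 - γ) := by
      exact_mod_cast Thru.fibre h1 h2 h3 R hn hγ ht i.1 F hF'
    rw [sum_congr rfl fun D hD => by rw [(hF' D hD).2.2.2], sum_const, nsmul_eq_mul]
    refine (mul_le_mul_of_nonneg_right hc (by positivity)).trans_eq ?_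
    obtain ⟨s, hs⟩ := Nat.exists_eq_add_of_le ht
    rw [hs, Nat.add_sub_cancel_left, pow_add, mul_left_comm, ← mul_pow]
    norm_num
  · rw [nsmul_eq_mul, card_product, Nat.card_Icc, Nat.add_sub_cancel]
    have := R.cubic.card_darts_le {v}
    rw [card_singleton, mul_one] at this
    have h' : ((darts en {v}).card : ℝ) ≤ 3 := by exact_mod_cast this
    push_cast
    gcongr

end Pool.Agent.MP_94842c_co.ES
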