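import Pool.Agent.MP_94842c_co.ES.Spec

/-! A circuit of a cubic multigraph is traced by a walk from any of its darts. -/

set_option autoImplicit false

namespace Pool.Agent.MP_94842c_co.ES

open Finset

namespace Trace

variable {E : Type} [Fintype E] [DecidableEq E] {en : E × Bool → ℕ}

/-- The walk that follows `D`. -/
def pw (R : Cub en) (D : Finset E) (d : E × Bool) : ℕ → E × Bool
  | 0 => d
  | k + 1 => R.nx (decide ((R.nx true (pw R D d k)).1 ∈ D)) (pw R D d k)

variable (R : Cub en) {D : Finset E} {d : E × Bool}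

theorem pw_succ (k : ℕ) :
    pw R D d (k + 1) = R.nx (decide ((R.nx true (pw R D d k)).1 ∈ D)) (pw R D d k) := rfl

theorem pw_mem (hD : Ev en D) (hd : d.1 ∈ D) (k : ℕ) : (pw R D d k).1 ∈ D := by
  induction k with
  | zero => exact hd
  | succ k ih =>
    obtain ⟨b, h1, h2, h3⟩ := hD.exists_other (a := rev (pw R D d k)) ih
    rw [pw_succ]
    by_cases h : (R.nx true (pw R D d k)).1 ∈ D
    · rw [decide_eq_true h]; exact h
    · rw [decide_eq_false h]
      rcases R.all _ b h2 with e | e | e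
      · exact (h3 e).elim
      · exact (h (e ▸ h1)).elim
      · exact e ▸ h1

theorem wk_pw (t k : ℕ) (hk : k ≤ t) :
    wk R (d, (range t).filter fun j => (R.nx true (pw R D d j)).1 ∈ D) k = pw R D d k := by
  induction k with
  | zero => rfl
  | succ k ih =>
    rw [wk_succ, ih (by omega), pw_succ]
    refine congrArg (fun b => R.nx b _) (decide_eq_decide.2 ?_)
    simp only [mem_filter, mem_range]
    exact ⟨fun h => h.2, fun h => ⟨hk, h⟩⟩

end Trace

open Trace in
theorem row_trace (h : CYC) : TRACE := by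
  intro E _ _ en R D d hD hd
  classical
  have hm := pw_mem R hD.1 hd
  have hex : ∃ t, ∃ j, j < t ∧ en (pw R D d j) = en (pw R D d t) := by
    obtain ⟨a, b, h1, h2⟩ := Finite.exists_ne_map_eq_of_infinite (pw R D d)
    rcases lt_or_gt_of_ne h1 with h3 | h3
    exacts [⟨b, a, h3, congrArg en h2⟩, ⟨a, b, h3, congrArg en h2.symm⟩]
  obtain ⟨t, ⟨j, hj, he⟩, hmin⟩ : ∃ t, (∃ j, j < t ∧ en (pw R D d j) = en (pw R D d t)) ∧
      ∀ s, s < t → ¬ ∃ j, j < s ∧ en (pw R D d j) = en (pw R D d s) :=
    ⟨Nat.find hex, Nat.find_spec hex, fun s hs => Nat.find_min hex hs⟩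
  have inj : ∀ a b, a < t → b < t → en (pw R D d a) = en (pw R D d b) → a = b := by
    intro a b ha hb e
    by_contra hne
    rcases lt_or_gt_of_ne hne with h3 | h3
    exacts [hmin b hb ⟨a, h3, e⟩, hmin a ha ⟨b, h3, e.symm⟩]
  obtain ⟨c1, c2⟩ := h en (fun k => pw R D d (j + k)) (t - j) (by omega)
    (fun k _ => R.en_nx _ _) (fun k _ => R.ne_rev _ _)
    (fun a b ha hb e => by have := inj _ _ (by omega) (by omega) e; omega)
    (by rw [Nat.add_sub_cancel' hj.le]; exact he.symm)
  have c3 : edges (fun k => pw R D d (j + k)) (t - j) = D := hD.2.2 _ c1.1 (fun e he => by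
    obtain ⟨k, -, rfl⟩ := mem_edges.1 he
    exact hm _) c1.2.1
  obtain rfl : j = 0 := by
    obtain ⟨k, hk, e⟩ := mem_edges.1 (c3.symm ▸ hd : d.1 ∈ edges (fun k => pw R D d (j + k)) (t - j))
    rcases eq_or_rev e with e | e
    · have := inj (j + k) 0 (by omega) (by omega) (congrArg en e)
      omega
    · by_contra h0
      have h1 : j + k = 1 := inj (j + k) 1 (by omega) (by omega)
        ((congrArg en e).trans (R.en_nx _ d).symm)
      rw [h1] at e
      exact R.ne_rev _ d e
  rw [c3, Nat.sub_zero] at c2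
  subst c2
  refine ⟨(range D.card).filter fun j => (R.nx true (pw R D d j)).1 ∈ D,
    fun k hk => mem_range.1 (mem_filter.1 hk).1, ?_, ?_, fun a b ha hb e => ?_⟩
  · refine Eq.trans (image_congr fun k hk => ?_) c3
    simp only [wk_pw R _ k (mem_range.1 hk).le, Nat.zero_add]
  · rw [wk_pw R _ _ le_rfl]; exact he.symm
  · rw [wk_pw R _ _ ha.le, wk_pw R _ _ hb.le] at e
    exact inj a b ha hb e

end Pool.Agent.MP_94842c_co.ES
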