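import Pool.Agent.MP_94842c_co.ES.Spec

/-! Row TT: traces of cuts on one of three vertex-disjoint circuits. -/

set_option autoImplicit false

namespace Pool.Agent.MP_94842c_co.ES

open Finset
open scoped symmDiff

namespace TTr

variable {E : Type} [Fintype E] [DecidableEq E] {en : E × Bool → ℕ}

theorem norm {D D1 D2 : Finset E} (hD : Circ en D) {T : Finset ℕ} (h : cut en T ⊆ D1 ∪ D2)
    (h1 : Disjoint D1 D) (h2 : Disjoint D2 D) :
    ∃ T1, cut en T1 = cut en T ∧ Disjoint (vs en D) T1 := by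
  rcases hD.const ((disjoint_union_left.2 ⟨h1, h2⟩).mono_left h) with h3 | h3
  · exact ⟨_, cut_compl T, disjoint_left.2 fun v hv h4 => (mem_sdiff.1 h4).2 (h3 hv)⟩
  · exact ⟨T, rfl, h3⟩

theorem sub {D1 D2 D3 : Finset E} {A B : Finset ℕ} (hA : cut en A ⊆ D1 ∪ D2)
    (hB : cut en B ⊆ D1 ∪ D3) (h3 : Disjoint (vs en D3) A) (h2 : Disjoint (vs en D2) B) :
    cut en (A ∩ B) ⊆ D1 := fun e he => by
  have a := fun h => mem_union.1 (@hA e h)
  have b := fun h => mem_union.1 (@hB e h)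
  have c := fun (x : Bool) h => disjoint_left.1 h3 (en_mem_vs (d := (e, x)) h)
  have d := fun (x : Bool) h => disjoint_left.1 h2 (en_mem_vs (d := (e, x)) h)
  have c1 := c true
  have c2 := c false
  have d1 := d true
  have d2 := d false
  simp only [mem_cut', mem_inter] at he a b c1 c2 d1 d2
  tauto

theorem trace {D : Finset E} {T U : Finset ℕ} (h : cut en T ⊆ D)
    (h' : ∀ v ∈ vs en D, (v ∈ T ↔ v ∈ U)) : IsCut en (cut en U ∩ D) := by
  refine ⟨T, Finset.ext fun e => ?_⟩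
  by_cases he : e ∈ D
  · rw [mem_inter, mem_cut', mem_cut', h' _ (en_mem_vs (d := (e, true)) he),
      h' _ (en_mem_vs (d := (e, false)) he), and_iff_left he]
  · exact ⟨fun h1 => absurd (h h1) he, fun h1 => absurd (mem_inter.1 h1).2 he⟩

theorem alt {D : Finset E} (hD : Circ en D) {A B : Finset ℕ} (h : cut en A ∩ D = cut en B ∩ D) :
    (∀ v ∈ vs en D, (v ∈ B ↔ v ∉ A)) ∨ ∀ v ∈ vs en D, (v ∈ B ↔ v ∈ A) := by
  have h1 : Disjoint (cut en (A ∆ B)) D := disjoint_left.2 fun e h1 h2 => by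
    have h3 := Finset.ext_iff.1 h e
    rw [cut_symmDiff, mem_symmDiff] at h1
    rw [mem_inter, mem_inter] at h3
    tauto
  refine (hD.const h1).imp (fun h2 v hv => ?_) fun h2 v hv => ?_
  · have := mem_symmDiff.1 (h2 hv)
    tauto
  · have := disjoint_left.1 h2 hv
    rw [mem_symmDiff] at this
    tauto

end TTr

theorem row_tt : TT := by
  intro E _ _ en D1 D2 D3 T2 T2' T3 T3' c1 c2 c3 d12 d13 d23 s2 s2' s3 s3' e e'
  have f12 := disjoint_of_vs d12
  have f13 := disjoint_of_vs d13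
  have f23 := disjoint_of_vs d23
  obtain ⟨A, hA, a⟩ := TTr.norm c3 s2 f13 f23
  obtain ⟨A', hA', a'⟩ := TTr.norm c3 s2' f13 f23
  obtain ⟨B, hB, b⟩ := TTr.norm c2 s3 f12 f23.symm
  obtain ⟨B', hB', b'⟩ := TTr.norm c2 s3' f12 f23.symm
  rw [← hA] at s2 e ⊢
  rw [← hA'] at s2' e' ⊢
  rw [← hB] at s3 e
  rw [← hB'] at s3' e'
  rcases TTr.alt c1 e with h | h
  · rcases TTr.alt c1 e' with h' | h'
    · refine Or.inr (Or.inr ?_)
      rw [← cut_symmDiff]
      refine TTr.trace (T := (A ∩ B') ∆ (A' ∩ B)) ?_ fun v hv => ?_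
      · rw [cut_symmDiff]
        exact symmDiff_subset_union.trans
          (union_subset (TTr.sub s2 s3' a b') (TTr.sub s2' s3 a' b))
      · simp only [mem_symmDiff, mem_inter, h v hv, h' v hv]
        tauto
    · exact Or.inr (Or.inl (TTr.trace (TTr.sub s2' s3' a' b') fun v hv => by
        rw [mem_inter, h' v hv, and_self]))
  · exact Or.inl (TTr.trace (TTr.sub s2 s3 a b) fun v hv => by rw [mem_inter, h v hv, and_self])

end Pool.Agent.MP_94842c_co.ES
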