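import Pool.Agent.MP_94842c_co.ES.Fin
import Pool.Agent.MP_94842c_co.ES.RowARCS
import Pool.Agent.MP_94842c_co.ES.RowAW
import Pool.Agent.MP_94842c_co.ES.RowBR1
import Pool.Agent.MP_94842c_co.ES.RowBR2
import Pool.Agent.MP_94842c_co.ES.RowCA
import Pool.Agent.MP_94842c_co.ES.RowCB
import Pool.Agent.MP_94842c_co.ES.RowCNT
import Pool.Agent.MP_94842c_co.ES.RowCOMP
import Pool.Agent.MP_94842c_co.ES.RowCORE
import Pool.Agent.MP_94842c_co.ES.RowCT1
import Pool.Agent.MP_94842c_co.ES.RowCT23
import Pool.Agent.MP_94842c_co.ES.RowCYC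
import Pool.Agent.MP_94842c_co.ES.RowDUAL
import Pool.Agent.MP_94842c_co.ES.RowGOODW
import Pool.Agent.MP_94842c_co.ES.RowGW2
import Pool.Agent.MP_94842c_co.ES.RowHIT
import Pool.Agent.MP_94842c_co.ES.RowLENS
import Pool.Agent.MP_94842c_co.ES.RowLIN12
import Pool.Agent.MP_94842c_co.ES.RowLIN345
import Pool.Agent.MP_94842c_co.ES.RowLO1
import Pool.Agent.MP_94842c_co.ES.RowLO2
import Pool.Agent.MP_94842c_co.ES.RowLOOSE
import Pool.Agent.MP_94842c_co.ES.RowLOW
import Pool.Agent.MP_94842c_co.ES.RowNEAR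
import Pool.Agent.MP_94842c_co.ES.RowNUM
import Pool.Agent.MP_94842c_co.ES.RowP1
import Pool.Agent.MP_94842c_co.ES.RowP23
import Pool.Agent.MP_94842c_co.ES.RowP4
import Pool.Agent.MP_94842c_co.ES.RowPAIRS
import Pool.Agent.MP_94842c_co.ES.RowRED1
import Pool.Agent.MP_94842c_co.ES.RowRED2
import Pool.Agent.MP_94842c_co.ES.RowROT
import Pool.Agent.MP_94842c_co.ES.RowSEG
import Pool.Agent.MP_94842c_co.ES.RowSM
import Pool.Agent.MP_94842c_co.ES.RowSMALL
import Pool.Agent.MP_94842c_co.ES.RowSU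
import Pool.Agent.MP_94842c_co.ES.RowSUMA
import Pool.Agent.MP_94842c_co.ES.RowTHRU
import Pool.Agent.MP_94842c_co.ES.RowTRACE
import Pool.Agent.MP_94842c_co.ES.RowTT

/-! Assembly of project ES. -/

set_option autoImplicit false

namespace Pool.Agent.MP_94842c_co.ES

theorem all_sm : SM := row_sm (row_lin1 (row_cnt row_dual)) (row_lin2 (row_cnt row_dual))

theorem all_lens : LENS := row_lens row_cyc

theorem all_short : SHORT := row_short row_cyc

theorem all_uniq : UNIQ := row_uniq all_lens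

theorem all_trace : TRACE := row_trace row_cyc

theorem all_aw : AW :=
  row_aw (row_goodw (row_gw2 all_short all_uniq))
    (row_pairs (row_p1 all_lens) (row_p4 (row_p2 row_seg all_uniq) (row_p3 row_seg all_uniq)))
    row_suma

theorem all_cb : CB :=
  row_cb all_sm (row_ct2 (row_arcs all_trace)) (row_ct3 (row_ct1 all_short all_uniq))
    (row_near (row_thru all_trace all_short all_uniq)) all_aw

theorem all_hit : HIT :=
  row_hit row_rot (row_ca all_sm row_tt) (row_loose (row_lo1 row_lin5) row_lo2) row_num all_cb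

theorem all_gen : GEN := row_gen (row_core all_hit row_small row_lin3) row_red1 row_red2

theorem all_br1 : BR1 := row_br1 row_cyc

theorem all_comp : COMP := row_comp all_gen row_lin4

end Pool.Agent.MP_94842c_co.ES
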