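import Pool.Agent.MP_94842c_co.ES.Spec

/-! Row CYC: a closed simple chain of darts is a circuit. -/

set_option autoImplicit false

namespace Pool.Agent.MP_94842c_co.ES

open Finset

theorem row_cyc : CYC := by
  intro E _ _ en p t ht hc hn hs h0
  obtain ⟨nx, n1, n2, n3⟩ : ∃ nx : ℕ → ℕ, (∀ k, k < t → nx k < t ∧ en (rev (p k)) = en (p (nx k))) ∧
      (∀ k, k + 1 < t → nx k = k + 1) ∧ ∀ k, ¬ k + 1 < t → nx k = 0 := by
    refine ⟨fun k => if k + 1 < t then k + 1 else 0, fun k hk => ?_, fun k hk => if_pos hk,
      fun k hk => if_neg hk⟩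
    dsimp only
    split_ifs with h
    · exact ⟨h, (hc k hk).symm⟩
    · obtain rfl : t = k + 1 := by omega
      exact ⟨by omega, (hc k hk).symm.trans h0⟩
  have lt : ∀ j k, j < k → k < t → p k ≠ rev (p j) := fun j k h hk e => by
    have := hs k (j + 1) hk (by omega) (by rw [e, hc j (by omega)])
    subst this
    exact hn j hk e
  have inj : Set.InjOn (fun k => (p k).1) (range t : Finset ℕ) := fun j hj k hk e => by
    rw [mem_coe, mem_range] at hj hk
    rcases eq_or_rev e with e | e
    · exact hs j k hj hk (by rw [e])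
    · rcases lt_trichotomy j k with h | h | h
      · exact absurd (by rw [e, rev_rev]) (lt j k h hk)
      · exact h
      · exact absurd e (lt k j h hj)
  refine ⟨⟨fun v => ?_, ⟨_, mem_edges.2 ⟨0, ht, rfl⟩⟩, fun Y hY hD ⟨e, he⟩ => ?_⟩,
    by rw [edges, card_image_of_injOn inj, card_range]⟩
  · have e1 : deg en (edges p t) v = ∑ k ∈ range t, ((if v = en (p k) then 1 else 0) +
        (if v = en (p (k + 1)) then 1 else 0)) := by
      rw [deg_eq_sum, edges, sum_image inj]
      refine sum_congr rfl fun k hk => ?_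
      rw [hc k (mem_range.1 hk), ← deg_single, deg_eq_sum, sum_singleton]
    have e2 := (sum_range_succ (fun k => if v = en (p k) then 1 else 0) t).symm.trans
      (sum_range_succ' (fun k => if v = en (p k) then 1 else 0) t)
    rw [h0] at e2
    rw [e1, sum_add_distrib, ← add_right_cancel e2]
    exact ⟨_, rfl⟩
  · have step : ∀ k, k < t → (p k).1 ∈ Y → (p (nx k)).1 ∈ Y := fun k hk hm => by
      obtain ⟨b, b1, b2, b3⟩ := hY.exists_other (a := rev (p k)) hm
      obtain ⟨j, hj, e⟩ := mem_edges.1 (hD b1)
      rcases eq_or_rev e.symm with rfl | rfl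
      · rwa [← hs j _ hj (n1 k hk).1 (b2.trans (n1 k hk).2)]
      · have := hs _ _ (n1 j hj).1 (n1 k hk).1 ((n1 j hj).2.symm.trans (b2.trans (n1 k hk).2))
        have : j = k := by
          by_cases a : j + 1 < t <;> by_cases b : k + 1 < t <;>
            simp only [n2, n3, a, b, not_false_eq_true] at this <;> omega
        exact absurd (this ▸ rfl) b3
    have up : ∀ k, (p k).1 ∈ Y → ∀ m, k + m < t → (p (k + m)).1 ∈ Y := fun k hk m => by
      induction m with
      | zero => exact fun _ => hk
      | succ m ih =>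
        intro h
        have := step _ (by omega) (ih (by omega))
        rwa [n2 (k + m) h] at this
    obtain ⟨k, hk, rfl⟩ := mem_edges.1 (hD he)
    have a := step _ (by omega) (up k he (t - 1 - k) (by omega))
    rw [n3 _ (by omega)] at a
    refine Subset.antisymm hD fun e he => ?_
    obtain ⟨j, hj, rfl⟩ := mem_edges.1 he
    simpa using up 0 a j (by omega)

end Pool.Agent.MP_94842c_co.ES
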