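import Pool.Agent.MP_94842c_co.ES.Spec

/-! The weight of the circuits near a given one (project ES). -/

set_option autoImplicit false

namespace Pool.Agent.MP_94842c_co.ES

open Finset

theorem row_near (h : THRU) : NEAR := by
  intro E _ _ en R G g u M D hns hg hD
  set B := reach en univ (vs en D) (2 * u) with hB
  have h1 : wt ((fam en G M).filter fun D' => (contact en D D' (2 * u)).Nonempty) ≤
      ∑ y ∈ B, wt ((fam en G M).filter fun D' => y ∈ vs en D') := by
    simp only [wt, sum_filter]
    rw [sum_comm]
    refine sum_le_sum fun D' _ => ?_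
    split_ifs with c
    · obtain ⟨z, hz⟩ := c
      obtain ⟨a, y, b, c⟩ := mem_contact.1 hz
      refine le_trans (le_of_eq ?_) (single_le_sum (a := y) (fun _ _ => by positivity)
        (reach_mono' (subset_univ _) (singleton_subset_iff.2 a) _ c))
      rw [if_pos b]
    · exact sum_nonneg fun _ _ => by positivity
  have h2 : (B.card : ℝ) ≤ 4 ^ (2 * u) * (2 * M) := by
    have := (R.cubic.card_reach univ (vs en D) (2 * u)).trans
      (Nat.mul_le_mul_left _ ((card_vs_le D).trans (Nat.mul_le_mul_left 2 hD)))
    exact_mod_cast this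
  refine h1.trans ((sum_le_card_nsmul _ _ _ fun y _ =>
    h en R G g (5 * u) M y hns (by omega)).trans ?_)
  rw [nsmul_eq_mul]
  refine (mul_le_mul_of_nonneg_right h2 (by positivity)).trans_eq ?_
  have : (4 : ℝ) ^ (2 * u) * (1 / 2) ^ (5 * u) = (1 / 2) ^ u := by
    rw [pow_mul, pow_mul, ← mul_pow]; norm_num
  rw [← this]; ring

end Pool.Agent.MP_94842c_co.ES
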