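import Pool.Agent.MP_94842c_co.ES.Spec

/-! Rows SHORT and UNIQ: short walks in a zone of large girth. -/

set_option autoImplicit false

namespace Pool.Agent.MP_94842c_co.ES

open Finset

theorem row_short (h : CYC) : SHORT := by
  intro E _ _ en G g p t hG hc hn hi ht
  have key : ∀ k, k ≤ t → ∀ j, j < k → en (p j) ≠ en (p k) := fun k => by
    induction k using Nat.strong_induction_on with
    | _ k ih =>
      intro hk j hj e
      obtain ⟨s, rfl⟩ : ∃ s, k = j + s := ⟨k - j, by omega⟩
      have c := hc.shift (i := j) (s := s) hk
      obtain ⟨h1, h2⟩ := h en (fun k => p (j + k)) s (by omega) c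
        (fun k hk' => hn (j + k) (by omega)) (fun a b ha hb e' => by
          rcases lt_trichotomy a b with u | u | u
          · exact absurd e' (ih (j + b) (by omega) (by omega) (j + a) (by omega))
          · exact u
          · exact absurd e'.symm (ih (j + a) (by omega) (by omega) (j + b) (by omega))) e.symm
      exact h1.2.1.ne_empty (hG _ h1.1 (by omega) (vs_edges c (hi.shift hk)))
  intro j k hj hk e
  rcases lt_trichotomy j k with u | u | u
  · exact absurd e (key k hk j u)
  · exact u
  · exact absurd e.symm (key j hj k u)

theorem row_uniq (h : LENS) : UNIQ := by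
  intro E _ _ en G g p p' r r' hG
  induction r generalizing p p' r' with
  | zero =>
    intro _ _ _ s' _ _ _ e0 e1
    exact ⟨s' 0 r' (by omega) le_rfl (e0.symm.trans e1), fun k hk => by omega⟩
  | succ r ih =>
    intro c c' s s' i i' hg e0 e1
    rcases r' with _ | r'
    · exact absurd (s 0 (r + 1) (by omega) le_rfl (e0.trans e1.symm)) (by omega)
    by_cases e : p 0 = p' 0
    · obtain ⟨a, b⟩ := ih (fun k => p (1 + k)) (fun k => p' (1 + k)) r' (c.shift (by omega))
        (c'.shift (by omega)) (s.shift (by omega)) (s'.shift (by omega)) (i.shift (by omega))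
        (i'.shift (by omega)) (by omega)
        ((c 0 (by omega)).trans (e ▸ (c' 0 (by omega)).symm)) (by simpa only [add_comm 1] using e1)
      refine ⟨by omega, fun k hk => ?_⟩
      rcases k with _ | k
      · exact e
      · simpa only [add_comm 1] using b k (by omega)
    · obtain ⟨a, a', -, a1, -, a2, -, h1, h2⟩ := h en p p' _ _ c c' s s' e0 e (by omega) (by omega) e1
      refine absurd (hG _ h1.1 (by omega) ?_) h1.2.1.ne_empty
      rw [vs_union]
      exact union_subset (vs_edges (fun k hk => c k (by omega)) fun k hk => i k (by omega))
        (vs_edges (fun k hk => c' k (by omega)) fun k hk => i' k (by omega))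

end Pool.Agent.MP_94842c_co.ES
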