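import Pool.Agent.MP_94842c_co.ES.Walk
import Pool.Agent.MP_94842c_co.LimDefs

/-! Statements of the rows of project ES. -/

set_option autoImplicit false

namespace Pool.Agent.MP_94842c_co.ES

open Finset Pool.Agent.MP_94842c_co.Lim
open scoped symmDiff

open Classical in
/-- Number of cuts inside `D`. -/
noncomputable def ncut {E : Type} [Fintype E] [DecidableEq E] (en : E × Bool → ℕ) (D : Finset E) :
    ℕ := (D.powerset.filter (IsCut en)).card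

/-- Boundary size used in the definition of a loose set. -/
def xx {E : Type} [Fintype E] [DecidableEq E] (en : E × Bool → ℕ) (Z0 S : Finset ℕ) : ℕ :=
  (cut en S).card + 3 * (Z0 ∩ S).card

/-- The dart model of a simple graph. -/
noncomputable def enG {V : Type} [Finite V] (G : SimpleGraph V) (d : G.edgeSet × Bool) : ℕ :=
  (Finite.equivFin V (if d.2 then (Quot.out d.1.1).1 else (Quot.out d.1.1).2)).val

/-- The numerical conditions of the large girth case. -/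
structure Num (n u K l0 : ℕ) : Prop where
  u1 : 1 ≤ u
  K1 : 1 ≤ K
  l1 : 1 ≤ l0
  n2 : (16 * (K * u + 1) * 16 ^ u) ^ 2 ≤ n
  n3 : 32 * (K * u + 1) ^ 2 ≤ 2 ^ (5 * u)
  n4 : 24 * n ≤ 2 ^ l0
  n5 : 256 * (K * u) ^ 3 ≤ 2 ^ (5 * u)
  n6 : (64 : ℝ) ≤ ∑ l ∈ Icc l0 (K * u), 1 / (l : ℝ)
  n7 : 96 * (4 * (K * u)) ^ 2 ≤ 2 ^ (u - 1)
  n8 : 2 ^ ((2 * K + 1) ^ 2) * (24 * (K * u) ^ 2) ≤ 2 ^ u

def DUAL : Prop := ∀ {E : Type} [Fintype E] [DecidableEq E] (en : E × Bool → ℕ) (X : Finset E),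
  IsCut en X ↔ ∀ C, Ev en C → Even (X ∩ C).card

def CNT : Prop := ∀ {E : Type} [Fintype E] [DecidableEq E] (en : E × Bool → ℕ) (D : Finset E),
  Ev en D → cnt en D * 2 ^ D.card = (Z en).card * ncut en D

def LIN1 : Prop := ∀ {E : Type} [Fintype E] [DecidableEq E] (en : E × Bool → ℕ) (D : Finset E),
  Ev en D → (Z en).card ≤ 2 ^ D.card * cnt en D

def LIN2 : Prop := ∀ {E : Type} [Fintype E] [DecidableEq E] (en : E × Bool → ℕ) (D D' : Finset E)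
  (k : ℕ), Ev en D → Ev en D' → Disjoint D D' → Rho en D D' k →
  cnt en (D ∪ D') * (Z en).card ≤ k * cnt en D * cnt en D'

def LIN3 : Prop := ∀ {E : Type} [Fintype E] [DecidableEq E] (en : E × Bool → ℕ),
  2 ^ Fintype.card E ≤ (Z en).card * 2 ^ (vs en univ).card

def LIN4 : Prop := ∀ {E : Type} [Fintype E] [DecidableEq E] (en : E × Bool → ℕ) (V0 : Finset ℕ)
  (v0 : ℕ), v0 ∉ V0 → (∀ v ∈ V0, ∃ W j, Link en univ W j v0 v) →
  (Z en).card * 2 ^ V0.card ≤ 2 ^ Fintype.card E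

def LIN5 : Prop := ∀ {E : Type} [Fintype E] [DecidableEq E] (en : E × Bool → ℕ) (I : Finset E)
  (T : Finset ℕ), vs en I ⊆ T → (∀ X, X ⊆ I → Ev en X → X = ∅) → I.card ≤ T.card

def SM : Prop := ∀ {E : Type} [Fintype E] [DecidableEq E] (en : E × Bool → ℕ), Cubic en →
  ∀ (F : Finset (Finset E)) (a : Finset E → ℝ) (k : Finset E → Finset E → ℕ),
  (∀ D ∈ F, Circ en D) → (∀ D ∈ F, 0 ≤ a D ∧ a D ≤ (1 / 2) ^ D.card) →
  (∀ D ∈ F, ∀ D' ∈ F, Disjoint (vs en D) (vs en D') → Rho en D D' (k D D')) →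
  (∑ D ∈ F, a D) ^ 2 * (Z en).card ≤
    hit en F * (∑ D ∈ F, a D + ∑ D ∈ F, ∑ D' ∈ F, a D * a D' * k D D')

def TT : Prop := ∀ {E : Type} [Fintype E] [DecidableEq E] (en : E × Bool → ℕ)
  (D1 D2 D3 : Finset E) (T2 T2' T3 T3' : Finset ℕ), Circ en D1 → Circ en D2 → Circ en D3 →
  Disjoint (vs en D1) (vs en D2) → Disjoint (vs en D1) (vs en D3) →
  Disjoint (vs en D2) (vs en D3) → cut en T2 ⊆ D1 ∪ D2 → cut en T2' ⊆ D1 ∪ D2 →
  cut en T3 ⊆ D1 ∪ D3 → cut en T3' ⊆ D1 ∪ D3 → cut en T2 ∩ D1 = cut en T3 ∩ D1 →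
  cut en T2' ∩ D1 = cut en T3' ∩ D1 →
  IsCut en (cut en T2 ∩ D1) ∨ IsCut en (cut en T2' ∩ D1) ∨
    IsCut en ((cut en T2 ∆ cut en T2') ∩ D1)

def CA : Prop := ∀ {E : Type} [Fintype E] [DecidableEq E] (en : E × Bool → ℕ), Cubic en →
  ∀ (F : Finset (Finset E)) (g : ℕ), (∀ D ∈ F, Circ en D ∧ D.card ≤ g) →
  (∀ D ∈ F, ∀ D' ∈ F, D ≠ D' → Disjoint (vs en D) (vs en D')) →
  (F.card : ℝ) * (Z en).card ≤ (2 * F.card + 2 * 8 ^ g) * hit en F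

def ROT : Prop := ∀ {E : Type} [Fintype E] [DecidableEq E] (en : E × Bool → ℕ), Cubic en →
  Nonempty (Cub en)

def CYC : Prop := ∀ {E : Type} [Fintype E] [DecidableEq E] (en : E × Bool → ℕ)
  (p : ℕ → E × Bool) (t : ℕ), 1 ≤ t → Ch en p t → (∀ k, k + 1 < t → p (k + 1) ≠ rev (p k)) →
  (∀ j k, j < t → k < t → en (p j) = en (p k) → j = k) → en (p t) = en (p 0) →
  Circ en (edges p t) ∧ (edges p t).card = t

def LENS : Prop := ∀ {E : Type} [Fintype E] [DecidableEq E] (en : E × Bool → ℕ)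
  (p p' : ℕ → E × Bool) (r r' : ℕ), Ch en p r → Ch en p' r' → Simple en p r → Simple en p' r' →
  en (p 0) = en (p' 0) → p 0 ≠ p' 0 → 1 ≤ r → 1 ≤ r' → en (p r) = en (p' r') →
  ∃ a a', 1 ≤ a ∧ a ≤ r ∧ 1 ≤ a' ∧ a' ≤ r' ∧ en (p a) = en (p' a') ∧
    Circ en (edges p a ∪ edges p' a') ∧ (edges p a ∪ edges p' a').card = a + a'

def SHORT : Prop := ∀ {E : Type} [Fintype E] [DecidableEq E] (en : E × Bool → ℕ) (G : Finset ℕ)
  (g : ℕ) (p : ℕ → E × Bool) (t : ℕ), NS en G g → Ch en p t → Nb p t → Ins en p t G → t ≤ g →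
  Simple en p t

def UNIQ : Prop := ∀ {E : Type} [Fintype E] [DecidableEq E] (en : E × Bool → ℕ) (G : Finset ℕ)
  (g : ℕ) (p p' : ℕ → E × Bool) (r r' : ℕ), NS en G g → Ch en p r → Ch en p' r' →
  Simple en p r → Simple en p' r' → Ins en p r G → Ins en p' r' G → r + r' ≤ g →
  en (p 0) = en (p' 0) → en (p r) = en (p' r') → r = r' ∧ ∀ k, k < r → p k = p' k

def TRACE : Prop := ∀ {E : Type} [Fintype E] [DecidableEq E] (en : E × Bool → ℕ) (R : Cub en)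
  (D : Finset E) (d : E × Bool), Circ en D → d.1 ∈ D →
  ∃ b : Finset ℕ, (∀ k ∈ b, k < D.card) ∧ edges (wk R (d, b)) D.card = D ∧
    en (wk R (d, b) D.card) = en d ∧
    ∀ j k, j < D.card → k < D.card → en (wk R (d, b) j) = en (wk R (d, b) k) → j = k

def ARCS : Prop := ∀ {E : Type} [Fintype E] [DecidableEq E] (en : E × Bool → ℕ) (_ : Cub en)
  (D : Finset E) (u : ℕ), Circ en D → 1 ≤ u →
  ∃ α : ℕ → ℕ, (∀ x, α x ≤ D.card / u) ∧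
    ∀ x ∈ vs en D, ∀ y ∈ vs en D, α x = α y → Link en D (vs en D) u x y

def THRU : Prop := ∀ {E : Type} [Fintype E] [DecidableEq E] (en : E × Bool → ℕ) (_ : Cub en)
  (G : Finset ℕ) (g γ M v : ℕ), NS en G g → 2 * γ ≤ g →
  wt ((fam en G M).filter fun D => v ∈ vs en D) ≤ 3 * M * (1 / 2) ^ γ

def LO1 : Prop := ∀ {E : Type} [Fintype E] [DecidableEq E] (en : E × Bool → ℕ), Cubic en →
  ∀ (Z0 S : Finset ℕ) (g : ℕ), NS en (S \ Z0) g → S ⊆ vs en univ → xx en Z0 S ^ 2 < S.card →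
  2 * g < 3 * S.card

def LO2 : Prop := ∀ {E : Type} [Fintype E] [DecidableEq E] (en : E × Bool → ℕ), Cubic en →
  ∀ (Z0 S : Finset ℕ), ∃ G : ℕ → Finset ℕ, G 0 = S \ Z0 ∧ (∀ j, G (j + 1) ⊆ G j) ∧
    (∀ j d, en d ∈ G (j + 1) → en (rev d) ∈ G j) ∧ ∀ j, (S \ G j).card ≤ 4 ^ j * xx en Z0 S

def LOOSE : Prop := ∀ {E : Type} [Fintype E] [DecidableEq E] (en : E × Bool → ℕ), Cubic en →
  ∀ (Z0 : Finset ℕ) (g : ℕ), NS en (vs en univ \ Z0) g → (3 * Z0.card) ^ 2 < (vs en univ).card →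
  ∃ S G x, Zone en S G x g ∧ 2 * g < 3 * S.card

def CT1 : Prop := ∀ {E : Type} [Fintype E] [DecidableEq E] (en : E × Bool → ℕ) (_ : Cub en)
  (S : Finset ℕ) (G : ℕ → Finset ℕ) (x g u : ℕ) (D D' : Finset E) (T : Finset ℕ),
  Zone en S G x g → 1 ≤ u → 2 * u ≤ g → vs en D ⊆ G (2 * u) → cut en T ⊆ D ∪ D' →
  3 * (S ∩ T).card < 2 ^ (u - 1) → Disjoint (contact en D D' (2 * u)) T →
  IsCut en (cut en T ∩ D)

def CT2 : Prop := ∀ {E : Type} [Fintype E] [DecidableEq E] (en : E × Bool → ℕ) (_ : Cub en)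
  (S : Finset ℕ) (G : ℕ → Finset ℕ) (x g u K : ℕ) (D D' : Finset E),
  Zone en S G x g → 1 ≤ u → 6 * u ≤ g → D ∈ fam en (G (2 * u)) (K * u) →
  D' ∈ fam en (G (2 * u)) (K * u) → Disjoint (vs en D) (vs en D') →
  (contact en D D' (2 * u)).card ≤ (K + 1) ^ 2

def CT3 : Prop := ∀ {E : Type} [Fintype E] [DecidableEq E] (en : E × Bool → ℕ) (_ : Cub en)
  (S : Finset ℕ) (G : ℕ → Finset ℕ) (x g u p : ℕ) (D D' : Finset E),
  Zone en S G x g → 1 ≤ u → 2 * u ≤ g → vs en D ⊆ G (2 * u) → 1 ≤ p → (D ∪ D').card ≤ p →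
  96 * p ^ 2 ≤ 2 ^ (u - 1) → Rho en D D' (2 ^ (contact en D D' (2 * u)).card)

def NEAR : Prop := ∀ {E : Type} [Fintype E] [DecidableEq E] (en : E × Bool → ℕ) (_ : Cub en)
  (G : Finset ℕ) (g u M : ℕ) (D : Finset E), NS en G g → 10 * u ≤ g → D.card ≤ M →
  wt ((fam en G M).filter fun D' => (contact en D D' (2 * u)).Nonempty) ≤
    6 * (M : ℝ) ^ 2 * (1 / 2) ^ u

def GW2 : Prop := ∀ {E : Type} [Fintype E] [DecidableEq E] (en : E × Bool → ℕ) (R : Cub en)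
  (G : Finset ℕ) (g γ l : ℕ) (d : E × Bool) (P : Finset ((E × Bool) × Finset ℕ)), NS en G g →
  1 ≤ γ → 2 * γ ≤ g → P ⊆ walks E l →
  (∀ w ∈ P, w.1 = d ∧ Ins en (wk R w) l G ∧ ¬ Simple en (wk R w) l) →
  2 ^ γ * P.card ≤ 2 * (l + 1) ^ 2 * 2 ^ l

def GOODW : Prop := ∀ {E : Type} [Fintype E] [DecidableEq E] (en : E × Bool → ℕ) (R : Cub en)
  (S : Finset ℕ) (G : ℕ → Finset ℕ) (x g u l : ℕ), Zone en S G x g → 1 ≤ u → 10 * u ≤ g →
  (16 * (l + 1) * 16 ^ u) ^ 2 ≤ S.card → 32 * (l + 1) ^ 2 ≤ 2 ^ (5 * u) →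
  7 * (3 * S.card * 2 ^ l) ≤ 8 * (good R (G (2 * u)) l).card

def P1 : Prop := ∀ {E : Type} [Fintype E] [DecidableEq E] (en : E × Bool → ℕ) (R : Cub en)
  (G : Finset ℕ) (l : ℕ) (w w' : (E × Bool) × Finset ℕ), w ∈ good R G l → w' ∈ good R G l →
  w ≠ w' → w.1 = w'.1 → wk R w l = wk R w' l →
  ∃ D ∈ fam en G (2 * l), ∃ i a a', Lens R l w w' D i a a'

def SEG : Prop := ∀ {E : Type} [Fintype E] [DecidableEq E] (en : E × Bool → ℕ) (R : Cub en)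
  (l : ℕ) (D : Finset E) (i a : ℕ), Ev en D → 1 ≤ a → i + a ≤ l →
  (seg R l D i a).card ≤ 2 * D.card * 2 ^ (l + 1 - a)

def P2 : Prop := ∀ {E : Type} [Fintype E] [DecidableEq E] (en : E × Bool → ℕ) (R : Cub en)
  (G : Finset ℕ) (g γ l : ℕ) (D : Finset E) (i a a' : ℕ), NS en G g → 2 * γ ≤ g → Ev en D →
  i + a' + γ ≤ l → 2 ^ γ * 2 ^ D.card * (lensP R G l D i a a').card ≤ 4 * D.card * 4 ^ l

def P3 : Prop := ∀ {E : Type} [Fintype E] [DecidableEq E] (en : E × Bool → ℕ) (R : Cub en)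
  (G : Finset ℕ) (g γ l : ℕ) (D : Finset E) (i a a' : ℕ), NS en G g → 2 * γ ≤ g → Ev en D →
  l < i + a' + γ → l < i + a + γ → (a ≠ a' → lensP R G l D i a a' = ∅) ∧
    (lensP R G l D i a a').card ≤ 2 * D.card * 2 ^ (l + 1 - a)

def P4 : Prop := ∀ {E : Type} [Fintype E] [DecidableEq E] (en : E × Bool → ℕ) (R : Cub en)
  (G : Finset ℕ) (g γ l L : ℕ) (D : Finset E), NS en G g → 2 * γ ≤ g → Ev en D → l ≤ L →
  D.card ≤ 2 * L →
  (∑ i ∈ range l, ∑ a ∈ range l, ((lensP R G l D i a (D.card - a)).card : ℝ)) ≤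
    4 ^ l * (1 / 2) ^ D.card * (8 * (L : ℝ) ^ 3 * (1 / 2) ^ γ + hh l (D.card / 2))

def PAIRS : Prop := ∀ {E : Type} [Fintype E] [DecidableEq E] (en : E × Bool → ℕ) (R : Cub en)
  (S G : Finset ℕ) (g γ l L : ℕ), NS en G g → 2 * γ ≤ g → l ≤ L → G ⊆ S → 1 ≤ S.card →
  7 * (3 * S.card * 2 ^ l) ≤ 8 * (good R G l).card → 24 * S.card ≤ 2 ^ l →
  256 * L ^ 3 ≤ 2 ^ γ → wt (fam en G (2 * L)) ≤ 2 →
  1 / 2 ≤ ∑ D ∈ fam en G (2 * L), hh l (D.card / 2) * (1 / 2) ^ D.card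

def SUMA : Prop := ∀ a l0 L : ℕ, 1 ≤ l0 → ∑ l ∈ Icc l0 L, hh l a / l ≤ 16

def NUM : Prop := ∃ n0 K : ℕ, ∀ n, n0 ≤ n → Num n (Nat.log 2 n / 100) K (Nat.log 2 n + 6)

def AW : Prop := ∀ {E : Type} [Fintype E] [DecidableEq E] (en : E × Bool → ℕ) (_ : Cub en)
  (S : Finset ℕ) (G : ℕ → Finset ℕ) (x g u K l0 : ℕ), Zone en S G x g → Num S.card u K l0 →
  10 * u ≤ g → 2 ≤ wt (fam en (G (2 * u)) (2 * (K * u)))

def CB : Prop := ∀ {E : Type} [Fintype E] [DecidableEq E] (en : E × Bool → ℕ) (_ : Cub en)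
  (S : Finset ℕ) (G : ℕ → Finset ℕ) (x g u K l0 : ℕ), Zone en S G x g → Num S.card u K l0 →
  10 * u ≤ g → (Z en).card ≤ 2 * hit en (fam en (G (2 * u)) (2 * (K * u)))

def SMALL : Prop := ∀ {E : Type} [Fintype E] [DecidableEq E] (en : E × Bool → ℕ)
  (F : Finset (Finset E)) (t : ℕ), (∀ D ∈ F, Circ en D ∧ D.card ≤ t) →
  (circs en).card + hit en F ≤ (Z en).card + (Fintype.card E + 1) ^ t

def HIT : Prop := ∀ ε : ℝ, 0 < ε → ∃ n1 K : ℕ, ∀ {E : Type} [Fintype E] [DecidableEq E]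
  (en : E × Bool → ℕ), Cubic en → n1 ≤ (vs en univ).card → ∃ F : Finset (Finset E),
  (∀ D ∈ F, Circ en D ∧ D.card ≤ K * Nat.log 2 (vs en univ).card) ∧
  (1 / 2 - ε) * (Z en).card ≤ hit en F

def CORE : Prop := ∀ ε : ℝ, 0 < ε → ∃ C : ℝ, 1 ≤ C ∧ ∀ {E : Type} [Fintype E] [DecidableEq E]
  (en : E × Bool → ℕ), Cubic en → Bd ε C en

def RED1 : Prop := ∀ ε C : ℝ, (∀ {E : Type} [Fintype E] [DecidableEq E] (en : E × Bool → ℕ),
  (∀ v, deg en univ v ≤ 3) → Bd ε C en) →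
  ∀ {E : Type} [Fintype E] [DecidableEq E] (en : E × Bool → ℕ), Bd ε C en

def RED2 : Prop := ∀ ε C : ℝ, 0 ≤ ε → 1 ≤ C → (∀ {E : Type} [Fintype E] [DecidableEq E]
  (en : E × Bool → ℕ), Cubic en → Bd ε C en) →
  ∀ {E : Type} [Fintype E] [DecidableEq E] (en : E × Bool → ℕ), (∀ v, deg en univ v ≤ 3) →
  Bd ε C en

def GEN : Prop := ∀ ε : ℝ, 0 < ε → ∃ C : ℝ, ∀ {E : Type} [Fintype E] [DecidableEq E]
  (en : E × Bool → ℕ), Bd ε C en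

def BR1 : Prop := ∀ (V : Type) [Finite V] (G : SimpleGraph V) [Fintype G.edgeSet]
  [DecidableEq G.edgeSet], (cycles G).ncard ≤ (circs (enG G)).card

def BR2 : Prop := ∀ (V : Type) [Finite V] (G : SimpleGraph V) [Fintype G.edgeSet]
  [DecidableEq G.edgeSet],
  ((∀ v, (G.neighborSet v).ncard ≤ 3) → ∀ u, deg (enG G) univ u ≤ 3) ∧
  (G.Connected → ∃ (V0 : Finset ℕ) (v0 : ℕ), v0 ∉ V0 ∧ V0.card + 1 = Nat.card V ∧
    ∀ v ∈ V0, ∃ W j, Link (enG G) univ W j v0 v)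

def COMP : Prop := ∀ ε : ℝ, 0 < ε → ∃ C : ℝ, ∀ {E : Type} [Fintype E] [DecidableEq E]
  (en : E × Bool → ℕ), (∀ v, deg en univ v ≤ 3) →
  ((circs en).card : ℝ) ≤ (1 + ε) * 2 ^ (Fintype.card E / 3) + C

def LOW : Prop := ∀ k t : ℕ, 3 ≤ k → ∃ (V : Type) (_ : Finite V) (G : SimpleGraph V),
  G.Connected ∧ (∀ v, (G.neighborSet v).ncard ≤ 3) ∧ Nat.card V = 2 * k + t ∧
  G.edgeSet.ncard = 3 * k + t ∧ 2 ^ k ≤ (cycles G).ncard

end Pool.Agent.MP_94842c_co.ES
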