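import Pool.Agent.MP_94842c_co.ES.Basic

/-! Basic facts on walks in cubic multigraphs (project ES). -/

set_option autoImplicit false
set_option linter.unusedSectionVars false

namespace Pool.Agent.MP_94842c_co.ES

open Finset

variable {E : Type} [Fintype E] [DecidableEq E] {en : E × Bool → ℕ}

theorem Cub.cubic (R : Cub en) : Cubic en := fun d => by
  have : (univ.filter fun e : E × Bool => e.1 ∈ univ ∧ en e = en d) =
      {d, R.nx true (rev d), R.nx false (rev d)} := by
    ext e
    simp only [mem_filter, mem_univ, true_and, mem_insert, mem_singleton]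
    constructor
    · intro h
      simpa using R.all (rev d) e (by simpa using h)
    · rintro (rfl | rfl | rfl)
      · rfl
      all_goals rw [R.en_nx, rev_rev]
  rw [deg, this]
  have h1 := R.ne_rev true (rev d)
  have h2 := R.ne_rev false (rev d)
  rw [rev_rev] at h1 h2
  exact card_eq_three.2 ⟨_, _, _, h1.symm, h2.symm, R.ne _, rfl⟩

theorem Cubic.deg_le (h : Cubic en) (X : Finset E) (v : ℕ) : deg en X v ≤ 3 := by
  refine (deg_mono (subset_univ X) v).trans ?_
  rcases (deg en univ v).eq_zero_or_pos with h0 | h0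
  · omega
  · obtain ⟨d, -, rfl⟩ := mem_vs.1 (deg_pos.1 h0)
    exact (h d).le

theorem card_darts (T : Finset ℕ) : (darts en T).card = ∑ v ∈ T, deg en univ v := by
  rw [sum_deg, darts]; simp

theorem Cubic.card_darts_le (h : Cubic en) (T : Finset ℕ) : (darts en T).card ≤ 3 * T.card := by
  rw [card_darts, mul_comm]
  exact sum_le_card_nsmul _ _ _ fun v _ => h.deg_le _ v

theorem Cubic.card_darts_eq (h : Cubic en) {T : Finset ℕ} (hT : T ⊆ vs en univ) :
    (darts en T).card = 3 * T.card := by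
  rw [card_darts, mul_comm]
  refine sum_const_nat fun v hv => ?_
  obtain ⟨d, -, rfl⟩ := mem_vs.1 (hT hv)
  exact h d

theorem Cubic.card_edges (h : Cubic en) : 2 * Fintype.card E = 3 * (vs en univ).card := by
  rw [← h.card_darts_eq (Subset.refl _), ← card_univ, ← card_dartsOf, darts]
  refine congrArg card (filter_congr fun d _ => ?_)
  simp [en_mem_vs]

theorem Cubic.card_reach (h : Cubic en) (A : Finset E) (P : Finset ℕ) (j : ℕ) :
    (reach en A P j).card ≤ 4 ^ j * P.card := by
  induction j with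
  | zero => simp [reach]
  | succ j ih =>
    have h1 : (univ.filter fun d : E × Bool => d.1 ∈ A ∧ en d ∈ reach en A P j).card ≤
        3 * (reach en A P j).card := le_trans (card_le_card fun d hd => by
      rw [mem_filter] at hd; exact mem_darts.2 hd.2.2) (h.card_darts_le _)
    refine (card_union_le _ _).trans ((add_le_add le_rfl (card_image_le.trans h1)).trans ?_)
    rw [pow_succ]; nlinarith

/-- An even set does not contain three distinct darts at one vertex. -/
theorem Cubic.not_three (h : Cubic en) {D : Finset E} (hD : Ev en D) {a b c : E × Bool}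
    (ha : a.1 ∈ D) (hb : b.1 ∈ D) (hc : c.1 ∈ D) (h1 : en b = en a) (h2 : en c = en a)
    (hab : a ≠ b) (hac : a ≠ c) : b = c := by
  by_contra hbc
  have h3 : 3 ≤ deg en D (en a) := by
    rw [← card_eq_three.2 ⟨a, b, c, hab, hac, hbc, rfl⟩]
    refine card_le_card fun d hd => ?_
    simp only [mem_insert, mem_singleton] at hd
    rcases hd with rfl | rfl | rfl <;> simp [*]
  have h4 := h.deg_le D (en a)
  have h5 := hD (en a)
  rw [Nat.even_iff] at h5
  omega

/-- A dart of an even set has a second dart of the set at its vertex. -/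
theorem Ev.exists_other {D : Finset E} (hD : Ev en D) {a : E × Bool} (ha : a.1 ∈ D) :
    ∃ b : E × Bool, b.1 ∈ D ∧ en b = en a ∧ b ≠ a := by
  have h1 : 0 < deg en D (en a) := deg_pos.2 (en_mem_vs ha)
  have h2 := hD (en a)
  rw [Nat.even_iff] at h2
  obtain ⟨b, hb, hne⟩ := exists_mem_ne (s := univ.filter fun d : E × Bool => d.1 ∈ D ∧ en d = en a)
    (by unfold deg at h1 h2; omega) a
  rw [mem_filter] at hb
  exact ⟨b, hb.2.1, hb.2.2, hne⟩

theorem Ch.shift {p : ℕ → E × Bool} {t : ℕ} (h : Ch en p t) {i s : ℕ} (hs : i + s ≤ t) :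
    Ch en (fun k => p (i + k)) s := fun k hk => h (i + k) (by omega)

theorem Nb.shift {p : ℕ → E × Bool} {t : ℕ} (h : Nb p t) {i s : ℕ} (hs : i + s ≤ t) :
    Nb (fun k => p (i + k)) s := fun k hk => h (i + k) (by omega)

theorem Simple.shift {p : ℕ → E × Bool} {t : ℕ} (h : Simple en p t) {i s : ℕ} (hs : i + s ≤ t) :
    Simple en (fun k => p (i + k)) s := fun j k hj hk e => by
  have := h (i + j) (i + k) (by omega) (by omega) e
  omega

theorem Ins.shift {p : ℕ → E × Bool} {t : ℕ} {G : Finset ℕ} (h : Ins en p t G) {i s : ℕ}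
    (hs : i + s ≤ t) : Ins en (fun k => p (i + k)) s G := fun k hk => h (i + k) (by omega)

theorem Ins.mono {p : ℕ → E × Bool} {t : ℕ} {G G' : Finset ℕ} (h : Ins en p t G) (hG : G ⊆ G') :
    Ins en p t G' := fun k hk => hG (h k hk)

theorem vs_edges {p : ℕ → E × Bool} {t : ℕ} {G : Finset ℕ} (h : Ch en p t) (hG : Ins en p t G) :
    vs en (edges p t) ⊆ G := fun v hv => by
  obtain ⟨d, h1, rfl⟩ := mem_vs.1 hv
  obtain ⟨k, hk, e⟩ := mem_edges.1 h1
  rcases eq_or_rev e.symm with rfl | rfl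
  · exact hG k hk.le
  · exact h k hk ▸ hG (k + 1) hk

/-- Two non-backtracking chains inside one even set with the same first dart agree. -/
theorem follow (h : Cubic en) {D : Finset E} (hD : Ev en D) {p q : ℕ → E × Bool} {a : ℕ}
    (hp : Ch en p a) (hp' : Nb p a) (hq : Ch en q a) (hq' : Nb q a) (h0 : p 0 = q 0)
    (mp : ∀ k, k ≤ a → (p k).1 ∈ D) (mq : ∀ k, k ≤ a → (q k).1 ∈ D) :
    ∀ k, k ≤ a → p k = q k := by
  intro k hk
  induction k with
  | zero => exact h0
  | succ k ih =>
    have e := ih (by omega)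
    exact h.not_three hD (a := rev (p k)) (mp k (by omega)) (mp _ hk) (mq _ hk) (hp k hk)
      (e ▸ hq k hk) (hp' k hk).symm (e ▸ (hq' k hk).symm)

variable (R : Cub en)

@[simp] theorem wk_zero (w : (E × Bool) × Finset ℕ) : wk R w 0 = w.1 := rfl

theorem wk_succ (w : (E × Bool) × Finset ℕ) (k : ℕ) :
    wk R w (k + 1) = R.nx (decide (k ∈ w.2)) (wk R w k) := rfl

theorem wk_ch (w : (E × Bool) × Finset ℕ) (t : ℕ) : Ch en (wk R w) t := fun _ _ => R.en_nx _ _

theorem wk_nb (w : (E × Bool) × Finset ℕ) (t : ℕ) : Nb (wk R w) t := fun _ _ => R.ne_rev _ _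

/-- Forward determination: equal darts at `i` and equal bits on `[i, j)`. -/
theorem wk_fwd {w w' : (E × Bool) × Finset ℕ} {i j : ℕ} (hij : i ≤ j) (h : wk R w i = wk R w' i)
    (hb : ∀ k, i ≤ k → k < j → (k ∈ w.2 ↔ k ∈ w'.2)) : wk R w j = wk R w' j := by
  induction hij with
  | refl => exact h
  | @step j hj ih =>
    rw [wk_succ, wk_succ, ih fun k h1 h2 => hb k h1 (by omega), decide_eq_decide.2 (hb j hj j.lt_succ_self)]

/-- Backward determination: equal darts at `j` and equal bits on `[i, j)`. -/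
theorem wk_bwd {w w' : (E × Bool) × Finset ℕ} {i j : ℕ} (hij : i ≤ j) (h : wk R w j = wk R w' j)
    (hb : ∀ k, i ≤ k → k < j → (k ∈ w.2 ↔ k ∈ w'.2)) : wk R w i = wk R w' i := by
  induction hij with
  | refl => exact h
  | @step j hj ih =>
    refine ih ?_ fun k h1 h2 => hb k h1 (by omega)
    rw [wk_succ, wk_succ, decide_eq_decide.2 (hb j hj j.lt_succ_self)] at h
    exact (R.nx _).injective h

/-- Darts determine bits. -/
theorem wk_bit {w w' : (E × Bool) × Finset ℕ} {k : ℕ} (h : wk R w k = wk R w' k)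
    (h' : wk R w (k + 1) = wk R w' (k + 1)) : k ∈ w.2 ↔ k ∈ w'.2 := by
  rw [wk_succ, wk_succ, h] at h'
  have := R.ne (wk R w' k)
  by_cases h1 : k ∈ w.2 <;> by_cases h2 : k ∈ w'.2 <;> simp_all

/-- A walk of length `l` is determined by its darts. -/
theorem wk_ext {l : ℕ} {w w' : (E × Bool) × Finset ℕ} (hw : w ∈ walks E l) (hw' : w' ∈ walks E l)
    (h : ∀ k, k ≤ l → wk R w k = wk R w' k) : w = w' := by
  refine Prod.ext (h 0 l.zero_le) (Finset.ext fun k => ?_)
  by_cases hk : k < l
  · exact wk_bit R (h k hk.le) (h (k + 1) hk)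
  · exact iff_of_false (fun h' => hk (mem_walks.1 hw k h')) fun h' => hk (mem_walks.1 hw' k h')

/-- A dart has only two successors. -/
theorem wk_other {w w' w'' : (E × Bool) × Finset ℕ} {k : ℕ} (h1 : wk R w k = wk R w' k)
    (h2 : wk R w k = wk R w'' k) (n1 : wk R w (k + 1) ≠ wk R w' (k + 1))
    (n2 : wk R w (k + 1) ≠ wk R w'' (k + 1)) : wk R w' (k + 1) = wk R w'' (k + 1) := by
  rw [wk_succ, wk_succ, ← h1] at n1
  rw [wk_succ, wk_succ, ← h2] at n2
  rw [wk_succ, wk_succ, ← h1, ← h2]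
  by_cases a : k ∈ w.2 <;> by_cases b : k ∈ w'.2 <;> by_cases c : k ∈ w''.2 <;> simp_all

omit R in
/-- Counting walks that are determined by their bits outside `[i, j)`. -/
theorem card_le_of_bits {l i j : ℕ} (hj : j ≤ l) {P : Finset ((E × Bool) × Finset ℕ)}
    (hP : P ⊆ walks E l) (h : ∀ w ∈ P, ∀ w' ∈ P,
      (∀ k, k < i ∨ j ≤ k → (k ∈ w.2 ↔ k ∈ w'.2)) → w = w') : P.card ≤ 2 ^ (l - (j - i)) := by
  have hc : (range l \ Ico i j).card = l - (j - i) := by
    rw [card_sdiff_of_subset fun k hk => by rw [mem_Ico] at hk; rw [mem_range]; omega]; simp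
  rw [← hc, ← card_powerset]
  refine card_le_card_of_injOn (fun w => w.2 \ Ico i j) (fun w hw => ?_) fun w hw w' hw' e => ?_
  · rw [mem_coe, mem_powerset]
    exact sdiff_subset_sdiff (fun k hk => mem_range.2 (mem_walks.1 (hP hw) k hk)) (Subset.refl _)
  · refine h w hw w' hw' fun k hk => ?_
    have h1 := Finset.ext_iff.1 e k
    have h2 : k ∉ Ico i j := by rw [mem_Ico]; omega
    simpa [h2] using h1

omit R in
/-- The same with two windows `[0, i)` and `[j, l)` of determined bits. -/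
theorem card_le_of_mid {i j : ℕ} {P : Finset ((E × Bool) × Finset ℕ)}
    (h : ∀ w ∈ P, ∀ w' ∈ P,
      (∀ k, i ≤ k → k < j → (k ∈ w.2 ↔ k ∈ w'.2)) → w = w') : P.card ≤ 2 ^ (j - i) := by
  rw [← Nat.card_Ico i j, ← card_powerset]
  refine card_le_card_of_injOn (fun w => w.2 ∩ Ico i j) (fun w _ => ?_) fun w hw w' hw' e => ?_
  · rw [mem_coe, mem_powerset]; exact inter_subset_right
  · refine h w hw w' hw' fun k h1 h2 => ?_
    have h3 := Finset.ext_iff.1 e k
    simpa [h1, h2] using h3

/-- Walks with a prescribed dart at index `i`. -/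
theorem card_at {l i : ℕ} (c : E × Bool) :
    ((walks E l).filter fun w => wk R w i = c).card ≤ 2 ^ l := by
  refine (card_le_of_bits (i := 0) (j := 0) l.zero_le (filter_subset _ _)
    fun w hw w' hw' hb => ?_).trans_eq (by simp)
  rw [mem_filter] at hw hw'
  exact Prod.ext (wk_bwd R i.zero_le (hw.2.trans hw'.2.symm) fun k _ _ => hb k (by omega))
    (Finset.ext fun k => hb k (by omega))

theorem Lens.symm {R : Cub en} {l : ℕ} {w w' : (E × Bool) × Finset ℕ} {D : Finset E} {i a a' : ℕ}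
    (h : Lens R l w w' D i a a') : Lens R l w' w D i a' a :=
  ⟨fun k hk => (h.pre k hk).symm, h.split.symm, h.a1', h.a1, h.le', h.le,
    h.card.trans (add_comm _ _), h.mem', h.mem, h.meet.symm, h.last.symm⟩

theorem card_lensP_symm (G : Finset ℕ) (l : ℕ) (D : Finset E) (i a a' : ℕ) :
    (lensP R G l D i a a').card = (lensP R G l D i a' a).card :=
  card_bij' (fun q _ => q.swap) (fun q _ => q.swap)
    (fun _ h => by rw [mem_lensP] at h ⊢; exact ⟨h.2.1, h.1, h.2.2.symm⟩)
    (fun _ h => by rw [mem_lensP] at h ⊢; exact ⟨h.2.1, h.1, h.2.2.symm⟩)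
    (fun _ _ => rfl) fun _ _ => rfl

omit R in
/-- Cauchy-Schwarz for the fibres of a map. -/
theorem card_sq_le {α β : Type} [DecidableEq β] (s : Finset α) (t : Finset β) (f : α → β)
    (h : ∀ a ∈ s, f a ∈ t) :
    s.card ^ 2 ≤ t.card * ((s ×ˢ s).filter fun q => f q.1 = f q.2).card := by
  have h1 := card_eq_sum_card_fiberwise (s := s) (t := t) (f := f) h
  have h2 : ((s ×ˢ s).filter fun q => f q.1 = f q.2).card =
      ∑ b ∈ t, (s.filter fun a => f a = b).card ^ 2 := by
    rw [card_eq_sum_card_fiberwise (t := t) (f := fun q => f q.1) fun q hq => by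
      simp only [coe_filter, mem_product, Set.mem_ofPred_eq] at hq; exact h _ hq.1.1]
    refine sum_congr rfl fun b _ => ?_
    rw [sq, ← card_product]
    refine congrArg card ?_
    ext q
    simp only [mem_filter, mem_product]
    constructor
    · rintro ⟨⟨⟨a1, a2⟩, a3⟩, a4⟩; exact ⟨⟨a1, a4⟩, a2, a3 ▸ a4⟩
    · rintro ⟨⟨a1, a4⟩, a2, a3⟩; exact ⟨⟨⟨a1, a2⟩, a4.trans a3.symm⟩, a4⟩
  rw [h2, h1]
  exact sq_sum_le_card_mul_sum_sq

omit R in
/-- Transfer along a monotone bijection of cycle spaces. -/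
theorem transfer {E' : Type} [Fintype E'] [DecidableEq E'] {en' : E' × Bool → ℕ}
    (g : Finset E' → Finset E) (mono : ∀ X Y, X ⊆ Y → g X ⊆ g Y) (g0 : g ∅ = ∅)
    (maps : ∀ X, Ev en' X → Ev en (g X))
    (inj : ∀ X Y, Ev en' X → Ev en' Y → g X = g Y → X = Y)
    (surj : ∀ X, Ev en X → ∃ Y, Ev en' Y ∧ g Y = X) {ε C : ℝ} (h : Bd ε C en') : Bd ε C en := by
  have h1 : (Z en').card = (Z en).card :=
    card_bij (fun X _ => g X) (fun X hX => mem_Z.2 (maps X (mem_Z.1 hX)))
      (fun X hX Y hY => inj X Y (mem_Z.1 hX) (mem_Z.1 hY)) fun X hX => by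
        obtain ⟨Y, a, b⟩ := surj X (mem_Z.1 hX)
        exact ⟨Y, mem_Z.2 a, b⟩
  have h2 : (circs en).card ≤ (circs en').card := by
    refine le_trans (card_le_card fun D hD => ?_) (card_image_le (f := g))
    obtain ⟨a, b, c⟩ := mem_circs.1 hD
    obtain ⟨Y, hY, rfl⟩ := surj D a
    refine mem_image_of_mem g (mem_circs.2 ⟨hY, ?_, fun X x1 x2 x3 => ?_⟩)
    · rw [nonempty_iff_ne_empty] at b ⊢
      exact fun e => b (e ▸ g0)
    · refine inj X Y x1 hY (c _ (maps X x1) (mono X Y x2) ?_)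
      rw [nonempty_iff_ne_empty] at x3 ⊢
      exact fun e => x3 (inj X ∅ x1 ev_empty (e.trans g0.symm))
  unfold Bd at h ⊢
  rw [← h1]
  exact (Nat.cast_le.2 h2).trans h

omit R in
/-- A multigraph with a loop. -/
theorem bd_of_loop {d : E × Bool} (hd : en (rev d) = en d) {ε C : ℝ} (hε : 0 ≤ ε) (hC : 1 ≤ C) :
    Bd ε C en := by
  have h0 : Ev en {d.1} := fun v => by rw [deg_single, hd]; exact ⟨_, rfl⟩
  have h1 : (circs en).card ≤ ((Z en).filter fun X => d.1 ∉ X).card + 1 := by
    refine le_trans (card_le_card fun D hD => ?_) (card_insert_le {d.1} _)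
    obtain ⟨a, -, c⟩ := mem_circs.1 hD
    by_cases h : d.1 ∈ D
    · exact mem_insert.2 (Or.inl (c _ h0 (by simpa using h) (singleton_nonempty _)).symm)
    · exact mem_insert.2 (Or.inr (mem_filter.2 ⟨mem_Z.2 a, h⟩))
  have h2 : ((Z en).filter fun X => d.1 ∉ X).card ≤ ((Z en).filter fun X => d.1 ∈ X).card :=
    card_le_card_of_injOn (fun X => symmDiff X {d.1}) (fun X hX => by
      simp only [coe_filter, Set.mem_ofPred_eq, mem_Z] at hX ⊢
      exact ⟨hX.1.symmDiff h0, by simp [mem_symmDiff, hX.2]⟩)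
      fun X _ Y _ e => symmDiff_left_injective _ e
  have h3 := card_filter_add_card_filter_not (s := Z en) fun X => d.1 ∈ X
  have h4 : 2 * ((circs en).card : ℝ) ≤ (Z en).card + 2 := by exact_mod_cast (by omega)
  have h5 : 0 ≤ ε * (Z en).card := by positivity
  unfold Bd
  linarith

end Pool.Agent.MP_94842c_co.ES
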